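import Pool.Agent.SH.Q.Stmts

/-!
# Block III-Q: exactness of the alternating sum complex, elementwise
-/

open CategoryTheory CategoryTheory.Limits AlgebraicTopology Opposite Simplicial

namespace Pool.Agent.SHQ.Elem

variable {k : Type} [Field k]

theorem d_apply (X : SimplicialObject (ModuleCat.{0} k)) (s : ℕ) (x : X.obj (op ⦋s + 1⦌)) :
    ((AlternatingFaceMapComplex.obj X).d (s + 1) s).hom x =
      ∑ i : Fin (s + 2), ((-1 : ℤ) ^ (i : ℕ)) • (X.δ i).hom x := by
  rw [AlternatingFaceMapComplex.obj_d_eq]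
  rw [ModuleCat.hom_sum, LinearMap.sum_apply]
  rfl

theorem exact_succ (X : SimplicialObject (ModuleCat.{0} k)) (s : ℕ) :
    ((alternatingFaceMapComplex _).obj X).ExactAt (s + 1) ↔
      ∀ x : X.obj (op ⦋s + 1⦌),
        (∑ i : Fin (s + 2), ((-1 : ℤ) ^ (i : ℕ)) • (X.δ i).hom x) = 0 →
        ∃ y : X.obj (op ⦋s + 2⦌),
          (∑ i : Fin (s + 3), ((-1 : ℤ) ^ (i : ℕ)) • (X.δ i).hom y) = x := by
  show (AlternatingFaceMapComplex.obj X).ExactAt (s + 1) ↔ _
  rw [HomologicalComplex.exactAt_iff' _ (s + 2) (s + 1) s (by simp) (by simp),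
    ShortComplex.moduleCat_exact_iff]
  constructor
  · intro h x hx
    obtain ⟨y, hy⟩ := h x (by
      show ((AlternatingFaceMapComplex.obj X).d (s + 1) s).hom x = 0
      rw [d_apply]
      exact hx)
    refine ⟨y, ?_⟩
    rw [← d_apply]
    exact hy
  · intro h x hx
    have hx' : ((AlternatingFaceMapComplex.obj X).d (s + 1) s).hom x = 0 := hx
    rw [d_apply] at hx'
    obtain ⟨y, hy⟩ := h x hx'
    refine ⟨y, ?_⟩
    show ((AlternatingFaceMapComplex.obj X).d (s + 2) (s + 1)).hom y = x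
    rw [d_apply]
    exact hy

theorem exact_zero (X : SimplicialObject (ModuleCat.{0} k)) :
    ((alternatingFaceMapComplex _).obj X).ExactAt 0 ↔
      ∀ x : X.obj (op ⦋0⦌), ∃ y : X.obj (op ⦋1⦌), (X.δ 0).hom y - (X.δ 1).hom y = x := by
  show (AlternatingFaceMapComplex.obj X).ExactAt 0 ↔ _
  rw [HomologicalComplex.exactAt_iff' _ 1 0 0 (by simp) (by simp),
    ShortComplex.moduleCat_exact_iff]
  have hd : (AlternatingFaceMapComplex.obj X).d 0 0 = 0 :=
    HomologicalComplex.shape _ _ _ (by simp)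
  have h1 : ∀ y : X.obj (op ⦋1⦌), ((AlternatingFaceMapComplex.obj X).d 1 0).hom y =
      (X.δ 0).hom y - (X.δ 1).hom y := by
    intro y
    rw [d_apply X 0 y, Fin.sum_univ_two]
    simp [sub_eq_add_neg]
  constructor
  · intro h x
    obtain ⟨y, hy⟩ := h x (by
      show ((AlternatingFaceMapComplex.obj X).d 0 0).hom x = 0
      rw [hd]
      rfl)
    refine ⟨y, ?_⟩
    rw [← h1]
    exact hy
  · intro h x _
    obtain ⟨y, hy⟩ := h x
    refine ⟨y, ?_⟩
    show ((AlternatingFaceMapComplex.obj X).d 1 0).hom y = x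
    rw [h1]
    exact hy

end Pool.Agent.SHQ.Elem
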