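import Pool.Agent.SH.S.Deg
import Pool.Agent.SH.S.Defs2
import Pool.Agent.SH.Q.Elem

/-!
# Block III-Q (MP_2d0b73_an): the bridge to the structures of block III-S

`CSS`: cosimplicial simplicial sets; `PolyGen X`: the cohomology ring is polynomial on homogeneous
generators of positive degrees; `del`: the differential of the complex of the cohomology groups of a
cosimplicial simplicial set. `q_bnd`: the indecomposables are exact outside two degrees.
-/

open CategoryTheory CategoryTheory.Limits AlgebraicTopology Opposite Simplicial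

namespace Pool.Agent.SHQ

open Pool.Agent.SHS (SS H Hn Dec HB Mor cof cls cls_surjective Hn_mul Hn_one)

/-- Cosimplicial simplicial sets. -/
structure CSS where
  Z : ℕ → SS
  map : ∀ {s t : ℕ}, Mor s t → SS.Hom (Z s) (Z t)
  map_id : ∀ {s : ℕ} (n : ℕ) (x : (Z s).X n), (map (OrderHom.id : Mor s s)).f n x = x
  map_comp : ∀ {r s t : ℕ} (f : Mor r s) (g : Mor s t) (n : ℕ) (x : (Z r).X n),
    (map (g.comp f)).f n x = (map g).f n ((map f).f n x)

/-- The cohomology ring is polynomial on homogeneous generators of positive degree. -/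
def PolyGen (X : SS) : Prop :=
  ∃ (σ : Type) (w : σ → ℕ) (x : σ → H X), (∀ i, 0 < w i) ∧ (∀ i, x i ∈ Hn X (w i)) ∧
    HB X (fun d : σ →₀ ℕ => Finsupp.weight w d) (fun d => d.prod fun i e => x i ^ e)

/-- The differential. -/
noncomputable def del (C : CSS) (s : ℕ) : H (C.Z (s + 1)) →ₗ[ZMod 2] H (C.Z s) :=
  ∑ i : Fin (s + 2), (H.map (C.map (cof i))).toLinearMap

theorem del_apply (C : CSS) (s : ℕ) (a : H (C.Z (s + 1))) :
    del C s a = ∑ i : Fin (s + 2), H.map (C.map (cof i)) a := by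
  rw [del, LinearMap.sum_apply]
  rfl

namespace Br

theorem Hmap_congr {X Y : SS} {φ ψ : SS.Hom X Y} (h : ∀ n x, φ.f n x = ψ.f n x) (a : H Y) :
    H.map φ a = H.map ψ a := by
  have e : φ = ψ := by
    cases φ
    cases ψ
    congr 1
    funext n x
    exact h n x
  rw [e]

theorem sup_mul (X : SS) : (⨆ n, Hn X n) * (⨆ n, Hn X n) ≤ ⨆ n, Hn X n := by
  rw [Submodule.iSup_mul]
  refine iSup_le fun i => ?_
  rw [Submodule.mul_iSup]
  refine iSup_le fun j => ?_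
  refine Submodule.mul_le.2 fun a ha b hb => ?_
  exact Submodule.mem_iSup_of_mem (i + j) (Hn_mul ha hb)

/-- The subring of the finite sums of homogeneous elements. -/
noncomputable def HF (X : SS) : Subalgebra (ZMod 2) (H X) where
  carrier := {a | a ∈ ⨆ n, Hn X n}
  mul_mem' := fun {a b} ha hb => sup_mul X (Submodule.mul_mem_mul ha hb)
  one_mem' := Submodule.mem_iSup_of_mem 0 Hn_one
  add_mem' := fun {a b} ha hb => by
    show a + b ∈ ⨆ n, Hn X n
    exact Submodule.add_mem _ ha hb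
  zero_mem' := by
    show (0 : H X) ∈ ⨆ n, Hn X n
    exact Submodule.zero_mem _
  algebraMap_mem' := fun c => by
    show algebraMap (ZMod 2) (H X) c ∈ ⨆ n, Hn X n
    rw [Algebra.algebraMap_eq_smul_one]
    exact Submodule.smul_mem _ _ (Submodule.mem_iSup_of_mem 0 Hn_one)

theorem mem_HF {X : SS} {a : H X} : a ∈ HF X ↔ a ∈ ⨆ n, Hn X n := Iff.rfl

theorem Hn_le_HF {X : SS} {n : ℕ} {a : H X} (h : a ∈ Hn X n) : a ∈ HF X :=
  Submodule.mem_iSup_of_mem n h

/-- The grading. -/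
noncomputable def dgF (X : SS) (j : ℕ) : Submodule (ZMod 2) (HF X) :=
  (Hn X j).comap (HF X).val.toLinearMap

theorem mem_dgF {X : SS} {j : ℕ} {a : HF X} : a ∈ dgF X j ↔ (a : H X) ∈ Hn X j := Iff.rfl

section poly

variable {X : SS} {σ : Type} {w : σ → ℕ} {x : σ → H X}

theorem aeval_eq (f : MvPolynomial σ (ZMod 2)) : MvPolynomial.aeval (R := ZMod 2) x f =
    ∑ d ∈ f.support, MvPolynomial.coeff d f • (d.prod fun i e => x i ^ e) := by
  rw [MvPolynomial.aeval_def, MvPolynomial.eval₂_eq]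
  refine Finset.sum_congr rfl fun d _ => ?_
  rw [Algebra.smul_def]
  rfl

theorem map_whs (hb : HB X (fun d : σ →₀ ℕ => Finsupp.weight w d)
    (fun d => d.prod fun i e => x i ^ e)) (j : ℕ) :
    (MvPolynomial.weightedHomogeneousSubmodule (ZMod 2) w j).map
      (MvPolynomial.aeval (R := ZMod 2) x).toLinearMap = Hn X j := by
  apply le_antisymm
  · rintro _ ⟨f, hf, rfl⟩
    show MvPolynomial.aeval (R := ZMod 2) x f ∈ Hn X j
    rw [aeval_eq]
    refine Submodule.sum_mem _ fun d hd => ?_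
    have hw : Finsupp.weight w d = j := hf (MvPolynomial.mem_support_iff.1 hd)
    have h1 := hb.mem d
    simp only [hw] at h1
    exact Submodule.smul_mem _ _ h1
  · refine (hb.span j).trans (Submodule.span_le.2 ?_)
    rintro _ ⟨d, hd, rfl⟩
    refine ⟨MvPolynomial.monomial d 1, ?_, ?_⟩
    · exact MvPolynomial.isWeightedHomogeneous_monomial w d 1 hd
    · show MvPolynomial.aeval (R := ZMod 2) x (MvPolynomial.monomial d 1) = _
      rw [MvPolynomial.aeval_monomial, map_one, one_mul]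

theorem aeval_inj (hb : HB X (fun d : σ →₀ ℕ => Finsupp.weight w d)
    (fun d => d.prod fun i e => x i ^ e)) :
    Function.Injective (MvPolynomial.aeval (R := ZMod 2) x) := by
  rw [injective_iff_map_eq_zero]
  intro f hf
  rw [aeval_eq] at hf
  have h1 := linearIndependent_iff'.1 hb.indep f.support (fun d => MvPolynomial.coeff d f) hf
  ext d
  rw [MvPolynomial.coeff_zero]
  by_contra hd
  exact hd (h1 d (MvPolynomial.mem_support_iff.2 hd))

end poly

theorem isPolyGr {X : SS} (h : PolyGen X) : IsPolyGr (k := ZMod 2) (dgF X) := by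
  obtain ⟨σ, w, x, hw, hx, hb⟩ := h
  let x' : σ → HF X := fun i => ⟨x i, Hn_le_HF (hx i)⟩
  have hv : ∀ f : MvPolynomial σ (ZMod 2),
      ((MvPolynomial.aeval (R := ZMod 2) x' f : HF X) : H X) =
        MvPolynomial.aeval (R := ZMod 2) x f := by
    intro f
    have e : (HF X).val.comp (MvPolynomial.aeval (R := ZMod 2) x') =
        MvPolynomial.aeval (R := ZMod 2) x := by
      refine MvPolynomial.algHom_ext fun i => ?_
      rw [AlgHom.comp_apply, MvPolynomial.aeval_X, MvPolynomial.aeval_X]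
      rfl
    exact congrArg (fun g => g f) e
  refine ⟨σ, x', w, hw, ⟨?_, ?_⟩, fun j => ?_⟩
  · intro f g hfg
    apply aeval_inj hb
    rw [← hv, ← hv, hfg]
  · rintro ⟨a, ha⟩
    have h1 : (⨆ n, Hn X n) ≤
        LinearMap.range (MvPolynomial.aeval (R := ZMod 2) x).toLinearMap := by
      refine iSup_le fun n => ?_
      rw [← map_whs hb n]
      exact LinearMap.map_le_range
    obtain ⟨f, hf⟩ := h1 ha
    exact ⟨f, Subtype.ext ((hv f).trans hf)⟩
  · ext a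
    rw [mem_dgF, ← map_whs hb j]
    constructor
    · rintro ⟨f, hf, hfa⟩
      exact ⟨f, hf, Subtype.ext ((hv f).trans hfa)⟩
    · rintro ⟨f, hf, hfa⟩
      refine ⟨f, hf, ?_⟩
      rw [← hfa]
      exact (hv f).symm

/-- The graded polynomial algebra. -/
noncomputable abbrev PX (X : SS) (h : PolyGen X) : PGA (ZMod 2) where
  R := HF X
  dg := dgF X
  poly := isPolyGr h

theorem map_HF {X Y : SS} (φ : SS.Hom X Y) {a : H Y} (ha : a ∈ HF Y) : H.map φ a ∈ HF X := by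
  have h : (⨆ n, Hn Y n) ≤ (⨆ n, Hn X n).comap (H.map φ).toLinearMap := by
    refine iSup_le fun n => fun b hb => ?_
    exact Submodule.mem_iSup_of_mem n (SHS.H.map_mem φ hb)
  exact h ha

/-- The map of algebras. -/
noncomputable def HFmap {X Y : SS} (φ : SS.Hom X Y) : HF Y →ₐ[ZMod 2] HF X :=
  ((H.map φ).comp (HF Y).val).codRestrict (HF X) fun a => map_HF φ a.2

theorem HFmap_coe {X Y : SS} (φ : SS.Hom X Y) (a : HF Y) : (HFmap φ a : H X) = H.map φ a := rfl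

/-- The map of graded algebras. -/
noncomputable def PXmap {X Y : SS} (hX : PolyGen X) (hY : PolyGen Y) (φ : SS.Hom X Y) :
    PX Y hY ⟶ PX X hX :=
  (⟨HFmap φ, fun _ _ ha => SHS.H.map_mem φ ha⟩ : PGA.Hom (PX Y hY) (PX X hX))

/-- The simplicial graded polynomial algebra of a cosimplicial simplicial set. -/
noncomputable def BO (C : CSS) (hP : ∀ s, PolyGen (C.Z s)) : SimplicialObject (PGA (ZMod 2)) where
  obj Δ := PX (C.Z Δ.unop.len) (hP _)
  map θ := PXmap (hP _) (hP _) (C.map θ.unop.toOrderHom)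
  map_id Δ := by
    apply PGA.Hom.ext
    apply AlgHom.ext
    intro a
    apply Subtype.ext
    have h : ∀ b : HF (C.Z Δ.unop.len), H.map (C.map (OrderHom.id : Mor Δ.unop.len Δ.unop.len))
        (b : H (C.Z Δ.unop.len)) = (b : H (C.Z Δ.unop.len)) := by
      intro b
      conv_rhs => rw [← SHS.H.map_id (b : H (C.Z Δ.unop.len))]
      exact Hmap_congr (fun n x => C.map_id n x) _
    exact h a
  map_comp {Δ Δ' Δ''} θ θ' := by
    apply PGA.Hom.ext
    apply AlgHom.ext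
    intro a
    apply Subtype.ext
    have h : ∀ b : HF (C.Z Δ.unop.len),
        H.map (C.map (θ.unop.toOrderHom.comp θ'.unop.toOrderHom)) (b : H (C.Z Δ.unop.len)) =
        H.map (C.map θ'.unop.toOrderHom) (H.map (C.map θ.unop.toOrderHom)
          (b : H (C.Z Δ.unop.len))) := by
      intro b
      rw [← SHS.H.map_comp]
      exact Hmap_congr (fun n x => C.map_comp _ _ n x) _
    exact h a

/-! ### Decomposable elements -/

theorem map_Aug (X : SS) :
    (Aug (dgF X)).map (HF X).val.toLinearMap = ⨆ i : ℕ, Hn X (i + 1) := by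
  unfold Aug
  rw [Submodule.map_iSup]
  refine iSup_congr fun i => ?_
  ext a
  constructor
  · rintro ⟨b, hb, rfl⟩
    exact hb
  · intro ha
    exact ⟨⟨a, Hn_le_HF ha⟩, ha, rfl⟩

theorem mul_eq_Dec (X : SS) : (⨆ i : ℕ, Hn X (i + 1)) * (⨆ i : ℕ, Hn X (i + 1)) = Dec X := by
  apply le_antisymm
  · rw [Submodule.iSup_mul]
    refine iSup_le fun i => ?_
    rw [Submodule.mul_iSup]
    refine iSup_le fun j => ?_
    exact Submodule.mul_le.2 fun a ha b hb => Submodule.subset_span ⟨i, j, a, b, ha, hb, rfl⟩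
  · refine Submodule.span_le.2 ?_
    rintro _ ⟨m, n, a, b, ha, hb, rfl⟩
    exact Submodule.mul_mem_mul (Submodule.mem_iSup_of_mem m ha) (Submodule.mem_iSup_of_mem n hb)

theorem mem_Aug2 {X : SS} (a : HF X) : a ∈ Aug (dgF X) ^ 2 ↔ (a : H X) ∈ Dec X := by
  have h : (Aug (dgF X) ^ 2).map (HF X).val.toLinearMap = Dec X := by
    rw [Submodule.map_pow, map_Aug, pow_two, mul_eq_Dec]
  rw [← h]
  constructor
  · intro ha
    exact ⟨a, ha, rfl⟩
  · rintro ⟨b, hb, hab⟩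
    have e : b = a := Subtype.ext hab
    rwa [← e]

theorem mem_Psub1 {X : SS} {j : ℕ} (hj : 1 ≤ j) (a : HF X) :
    a ∈ Psub (dgF X) 1 j ↔ (a : H X) ∈ Hn X j := by
  constructor
  · exact fun h => h.2
  · intro h
    refine ⟨?_, h⟩
    rw [pow_one]
    obtain ⟨i, rfl⟩ : ∃ i, j = i + 1 := ⟨j - 1, by omega⟩
    exact Submodule.mem_iSup_of_mem (p := fun i : ℕ => dgF X (i + 1)) i h

theorem mem_Psub2 {X : SS} {j : ℕ} (a : HF X) :
    a ∈ Psub (dgF X) 2 j ↔ (a : H X) ∈ Dec X ∧ (a : H X) ∈ Hn X j := by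
  show a ∈ Aug (dgF X) ^ 2 ∧ a ∈ dgF X j ↔ _
  rw [mem_Aug2]
  exact Iff.rfl

/-! ### Signs and sums -/

theorem sign_smul {V : Type} [AddCommGroup V] [Module (ZMod 2) V] (n : ℕ) (z : V) :
    ((-1 : ℤ) ^ n) • z = z := by
  rcases neg_one_pow_eq_or ℤ n with h | h
  · rw [h, one_smul]
  · rw [h, neg_one_smul, ZModModule.neg_eq_self]

/-- The inclusion. -/
noncomputable def inc (X : SS) (p j : ℕ) : Psub (dgF X) p j →ₗ[ZMod 2] H X :=
  (HF X).val.toLinearMap ∘ₗ (Psub (dgF X) p j).subtype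

theorem inc_inj (X : SS) (p j : ℕ) : Function.Injective (inc X p j) := by
  intro a b h
  exact Subtype.ext (Subtype.ext h)

theorem inc_mem {X : SS} {p j : ℕ} (a : Psub (dgF X) p j) : inc X p j a ∈ Hn X j := a.2.2

/-- An element of the first part. -/
noncomputable def el {X : SS} {j : ℕ} (hj : 1 ≤ j) (a : H X) (ha : a ∈ Hn X j) :
    Psub (dgF X) 1 j := ⟨⟨a, Hn_le_HF ha⟩, (mem_Psub1 hj _).2 ha⟩

theorem inc_el {X : SS} {j : ℕ} (hj : 1 ≤ j) (a : H X) (ha : a ∈ Hn X j) :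
    inc X 1 j (el hj a ha) = a := rfl

section sums

variable (C : CSS) (hP : ∀ s, PolyGen (C.Z s)) (p j : ℕ)

/-- The faces on the submodules. -/
noncomputable def fP (s : ℕ) (i : Fin (s + 2)) :
    Psub (dgF (C.Z (s + 1))) p j →ₗ[ZMod 2] Psub (dgF (C.Z s)) p j :=
  (HFmap (C.map (cof i))).toLinearMap.restrict
    (PGA.map_Psub (PXmap (hP s) (hP (s + 1)) (C.map (cof i))) p j)

/-- The faces on the quotients. -/
noncomputable def fG (s : ℕ) (i : Fin (s + 2)) :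
    (Psub (dgF (C.Z (s + 1))) p j ⧸ Gker (PX (C.Z (s + 1)) (hP (s + 1))) p j) →ₗ[ZMod 2]
      (Psub (dgF (C.Z s)) p j ⧸ Gker (PX (C.Z s) (hP s)) p j) :=
  Submodule.mapQ _ _ (fP C hP p j s i)
    (map_Gker (PXmap (hP s) (hP (s + 1)) (C.map (cof i))) p j)

theorem fG_mk (s : ℕ) (i : Fin (s + 2)) (a : Psub (dgF (C.Z (s + 1))) p j) :
    fG C hP p j s i ((Gker (PX (C.Z (s + 1)) (hP (s + 1))) p j).mkQ a) =
      (Gker (PX (C.Z s) (hP s)) p j).mkQ (fP C hP p j s i a) := rfl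

/-- The sum of the faces on the submodules. -/
noncomputable def dP (s : ℕ) : Psub (dgF (C.Z (s + 1))) p j →ₗ[ZMod 2] Psub (dgF (C.Z s)) p j :=
  ∑ i : Fin (s + 2), fP C hP p j s i

theorem inc_dP (s : ℕ) (a : Psub (dgF (C.Z (s + 1))) p j) :
    inc (C.Z s) p j (dP C hP p j s a) = del C s (inc (C.Z (s + 1)) p j a) := by
  rw [dP, LinearMap.sum_apply, map_sum, del_apply]
  rfl

theorem sum_fP (s : ℕ) (a : Psub (dgF (C.Z (s + 1))) p j) :
    ∑ i : Fin (s + 2), ((-1 : ℤ) ^ (i : ℕ)) • fP C hP p j s i a = dP C hP p j s a := by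
  rw [dP, LinearMap.sum_apply]
  exact Finset.sum_congr rfl fun i _ => sign_smul _ _

theorem sum_fG (s : ℕ) (a : Psub (dgF (C.Z (s + 1))) p j) :
    ∑ i : Fin (s + 2), ((-1 : ℤ) ^ (i : ℕ)) •
      fG C hP p j s i ((Gker (PX (C.Z (s + 1)) (hP (s + 1))) p j).mkQ a) =
      (Gker (PX (C.Z s) (hP s)) p j).mkQ (dP C hP p j s a) := by
  rw [← sum_fP, map_sum]
  refine Finset.sum_congr rfl fun i _ => ?_
  rw [fG_mk, map_zsmul]

theorem sub_fP (a : Psub (dgF (C.Z 1)) p j) :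
    fP C hP p j 0 0 a - fP C hP p j 0 1 a = dP C hP p j 0 a := by
  rw [← sum_fP, Fin.sum_univ_two, sign_smul, sign_smul, ZModModule.sub_eq_add]

theorem sub_fG (a : Psub (dgF (C.Z 1)) p j) :
    fG C hP p j 0 0 ((Gker (PX (C.Z 1) (hP 1)) p j).mkQ a) -
      fG C hP p j 0 1 ((Gker (PX (C.Z 1) (hP 1)) p j).mkQ a) =
      (Gker (PX (C.Z 0) (hP 0)) p j).mkQ (dP C hP p j 0 a) := by
  rw [← sub_fP, map_sub, fG_mk, fG_mk]

end sums

theorem mk_eq_zero {X : SS} (h : PolyGen X) {j : ℕ} (a : Psub (dgF X) 1 j) :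
    (Gker (PX X h) 1 j).mkQ a = 0 ↔ inc X 1 j a ∈ Dec X := by
  rw [Submodule.mkQ_apply, Submodule.Quotient.mk_eq_zero]
  show a.1 ∈ Psub (dgF X) 2 j ↔ _
  rw [mem_Psub2]
  exact ⟨fun h => h.1, fun h => ⟨h, a.2.2⟩⟩

end Br

open Br

/-- Exactness in positive cosimplicial degrees. -/
def ExPos (C : CSS) : Prop := ∀ j : ℕ, 1 ≤ j → ∀ (s : ℕ), ∀ a ∈ Hn (C.Z (s + 1)) j,
  del C s a = 0 → ∃ b ∈ Hn (C.Z (s + 2)) j, del C (s + 1) b = a

theorem Br.pf_exact (C : CSS) (hP : ∀ s, PolyGen (C.Z s)) (hE : ExPos C) (j : ℕ) (hj : 1 ≤ j)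
    (s : ℕ) : ((alternatingFaceMapComplex _).obj ((wh (Pf 1 j)).obj (BO C hP))).ExactAt (s + 1) := by
  rw [Elem.exact_succ]
  intro a ha
  have ha' : dP C hP 1 j s a = 0 := (sum_fP C hP 1 j s a).symm.trans ha
  obtain ⟨b, hb, hab⟩ := hE j hj s (inc (C.Z (s + 1)) 1 j a) (inc_mem (X := C.Z (s + 1)) a) (by
    rw [← inc_dP C hP 1 j s a, ha', map_zero])
  have h : dP C hP 1 j (s + 1) (el hj b hb) = a := by
    apply inc_inj
    rw [inc_dP, inc_el]
    exact hab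
  exact ⟨el hj b hb, (sum_fP C hP 1 j (s + 1) _).trans h⟩

theorem Br.pf_exact0 (C : CSS) (hP : ∀ s, PolyGen (C.Z s)) (j : ℕ) (hj : 1 ≤ j)
    (h0 : ∀ a ∈ Hn (C.Z 0) j, ∃ b ∈ Hn (C.Z 1) j, del C 0 b = a) :
    ((alternatingFaceMapComplex _).obj ((wh (Pf 1 j)).obj (BO C hP))).ExactAt 0 := by
  rw [Elem.exact_zero]
  intro a
  obtain ⟨b, hb, hab⟩ := h0 (inc (C.Z 0) 1 j a) (inc_mem (X := C.Z 0) a)
  have h : dP C hP 1 j 0 (el hj b hb) = a := by
    apply inc_inj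
    rw [inc_dP, inc_el]
    exact hab
  exact ⟨el hj b hb, (sub_fP C hP 1 j _).trans h⟩

theorem Br.toAlg_δ (C : CSS) (hP : ∀ s, PolyGen (C.Z s)) (e : HF (C.Z 1)) :
    (show HF (C.Z 0) from (PGA.Hom.toAlg ((BO C hP).δ 0) e - PGA.Hom.toAlg ((BO C hP).δ 1) e :
      ((BO C hP).obj (op ⦋0⦌)).R)).1 = del C 0 (e : H (C.Z 1)) := by
  rw [del_apply, Fin.sum_univ_two, ← ZModModule.sub_eq_add]
  rfl

/-- Boundedness of the derived indecomposables. -/
theorem q_bnd (hfin : FIN_Stmt (ZMod 2)) (C : CSS) (hP : ∀ s, PolyGen (C.Z s)) (m : ℕ) (hm : 1 ≤ m)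
    (x : H (C.Z 0)) (hx : x ∈ Hn (C.Z 0) m) (hE : ExPos C)
    (hA : ∀ j, 1 ≤ j → j ≠ m → ∀ a ∈ Hn (C.Z 0) j, ∃ b ∈ Hn (C.Z 1) j, del C 0 b = a)
    (hB : ∀ a ∈ Hn (C.Z 0) m, ∃ (c : ZMod 2), ∃ b ∈ Hn (C.Z 1) m, a - c • x = del C 0 b)
    (hB' : ∀ b ∈ Hn (C.Z 1) m, del C 0 b ≠ x) (j : ℕ) (hj : 1 ≤ j) (hjm : j ≠ m)
    (hj2 : j ≠ 2 * m) :
    (∀ a ∈ Hn (C.Z 0) j, ∃ b ∈ Hn (C.Z 1) j, a - del C 0 b ∈ Dec (C.Z 0)) ∧
    ∀ (s : ℕ), ∀ a ∈ Hn (C.Z (s + 1)) j, del C s a ∈ Dec (C.Z s) →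
      ∃ b ∈ Hn (C.Z (s + 2)) j, a - del C (s + 1) b ∈ Dec (C.Z (s + 1)) := by
  have hz : ∀ c : ZMod 2, c ≠ 0 → c = 1 := by decide
  have hG : GenBy (ZMod 2) (BO C hP) m (⟨x, Hn_le_HF hx⟩ : HF (C.Z 0)) := by
    refine ⟨hx, ?_, ?_, ?_⟩
    · intro b hb
      obtain ⟨c, e, he, hce⟩ := hB (show HF (C.Z 0) from b).1 hb
      refine ⟨c, (⟨e, Hn_le_HF he⟩ : HF (C.Z 1)), he, ?_⟩
      apply Subtype.ext
      exact hce.trans (Br.toAlg_δ C hP ⟨e, Hn_le_HF he⟩).symm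
    · rintro c ⟨e, he, hce⟩
      by_contra hc
      have hc1 : c = 1 := hz c hc
      subst hc1
      apply hB' (show HF (C.Z 1) from e).1 he
      rw [← Br.toAlg_δ C hP e]
      have h2 := congrArg (fun z : HF (C.Z 0) => (z : H (C.Z 0))) hce
      refine h2.symm.trans ?_
      exact one_smul _ x
    · intro s hs
      obtain ⟨t, rfl⟩ : ∃ t, s = t + 1 := ⟨s - 1, by omega⟩
      exact Br.pf_exact C hP hE m hm t
  have hAc : ∀ j, 1 ≤ j → j ≠ m → Acyc ((wh (Pf 1 j)).obj (BO C hP)) := by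
    intro j hj hjm s
    rcases Nat.eq_zero_or_pos s with h | h
    · subst h
      exact Br.pf_exact0 C hP j hj (hA j hj hjm)
    · obtain ⟨t, rfl⟩ : ∃ t, s = t + 1 := ⟨s - 1, by omega⟩
      exact Br.pf_exact C hP hE j hj t
  have hF := hfin (BO C hP) m (⟨x, Hn_le_HF hx⟩ : HF (C.Z 0)) hm hG hAc j hj hjm hj2
  constructor
  · intro a ha
    obtain ⟨y, hy⟩ := (Elem.exact_zero _).1 (hF 0)
      ((Gker (PX (C.Z 0) (hP 0)) 1 j).mkQ (el hj a ha))
    obtain ⟨b, hb⟩ : ∃ b : Psub (dgF (C.Z 1)) 1 j, (Gker (PX (C.Z 1) (hP 1)) 1 j).mkQ b = y :=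
      Submodule.mkQ_surjective _ y
    refine ⟨inc (C.Z 1) 1 j b, inc_mem b, ?_⟩
    have hy' : (Gker (PX (C.Z 0) (hP 0)) 1 j).mkQ (dP C hP 1 j 0 b) =
        (Gker (PX (C.Z 0) (hP 0)) 1 j).mkQ (el hj a ha) := by
      rw [← sub_fG, hb]
      exact hy
    have h1 : (Gker (PX (C.Z 0) (hP 0)) 1 j).mkQ (el hj a ha - dP C hP 1 j 0 b) = 0 := by
      rw [map_sub, hy', sub_self]
    have h2 := (mk_eq_zero (hP 0) _).1 h1
    rw [map_sub, inc_el, inc_dP] at h2
    exact h2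
  · intro s a ha hda
    obtain ⟨y, hy⟩ := (Elem.exact_succ _ s).1 (hF (s + 1))
      ((Gker (PX (C.Z (s + 1)) (hP (s + 1))) 1 j).mkQ (el hj a ha)) (by
      refine (sum_fG C hP 1 j s (el hj a ha)).trans ?_
      refine (mk_eq_zero (hP s) _).2 ?_
      rw [inc_dP, inc_el]
      exact hda)
    obtain ⟨b, hb⟩ : ∃ b : Psub (dgF (C.Z (s + 2))) 1 j,
        (Gker (PX (C.Z (s + 2)) (hP (s + 2))) 1 j).mkQ b = y := Submodule.mkQ_surjective _ y
    refine ⟨inc (C.Z (s + 2)) 1 j b, inc_mem b, ?_⟩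
    have hy' : (Gker (PX (C.Z (s + 1)) (hP (s + 1))) 1 j).mkQ (dP C hP 1 j (s + 1) b) =
        (Gker (PX (C.Z (s + 1)) (hP (s + 1))) 1 j).mkQ (el hj a ha) := by
      rw [← sum_fG, hb]
      exact hy
    have h1 : (Gker (PX (C.Z (s + 1)) (hP (s + 1))) 1 j).mkQ
        (el hj a ha - dP C hP 1 j (s + 1) b) = 0 := by
      rw [map_sub, hy', sub_self]
    have h2 := (mk_eq_zero (hP (s + 1)) _).1 h1
    rw [map_sub, inc_el, inc_dP] at h2
    exact h2

end Pool.Agent.SHQ
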