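import Pool.Agent.SH.Q.CmpDefs

/-!
# Block III-Q (MP_2d0b73_an): acyclicity of the comparison object (CMA)
-/

open CategoryTheory CategoryTheory.Limits AlgebraicTopology Opposite Simplicial

namespace Pool.Agent.SHQ

namespace CMA

open scoped ZeroObject in
/-- An extra degeneracy over the augmentation to the zero object gives a contraction. -/
theorem ctr_of_extra {C : Type*} [Category C] [Preadditive C] [HasZeroObject C]
    (X : SimplicialObject C) (s : ∀ n : ℕ, X _⦋n⦌ ⟶ X _⦋n + 1⦌)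
    (h0 : s 0 ≫ X.δ 1 = 0) (h1 : ∀ n, s n ≫ X.δ 0 = 𝟙 _)
    (h2 : ∀ (n : ℕ) (i : Fin (n + 2)), s (n + 1) ≫ X.δ i.succ = X.δ i ≫ s n)
    (h3 : ∀ (n : ℕ) (i : Fin (n + 1)), s n ≫ X.σ i.succ = X.σ i ≫ s (n + 1)) : Ctr X := by
  let Y : SimplicialObject.Augmented C :=
    { left := X
      right := (0 : C)
      hom := 0 }
  let ed : SimplicialObject.Augmented.ExtraDegeneracy Y :=
    { s' := 0
      s := s
      s'_comp_ε := (isZero_zero C).eq_of_src _ _
      s₀_comp_δ₁ := by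
        rw [comp_zero]
        exact h0
      s_comp_δ₀ := h1
      s_comp_δ := h2
      s_comp_σ := h3 }
  have h4 : Y.hom ≫ ed.section_ = 0 := zero_comp
  have h5 : SimplicialObject.Homotopy (Y.hom ≫ ed.section_) (𝟙 X) := ed.homotopy
  rw [h4] at h5
  exact ⟨h5⟩

/-- extension of a map to `⦋1⦌` by `0` at the first vertex. -/
abbrev sh {n : ℕ} (φ : ⦋n⦌ ⟶ ⦋1⦌) : ⦋n + 1⦌ ⟶ ⦋1⦌ := SSet.Augmented.StandardSimplex.shift φ

theorem sh_zero {n : ℕ} (φ : ⦋n⦌ ⟶ ⦋1⦌) : (sh φ).toOrderHom 0 = 0 := rfl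

theorem sh_succ {n : ℕ} (φ : ⦋n⦌ ⟶ ⦋1⦌) (i : Fin (n + 1)) :
    (sh φ).toOrderHom i.succ = φ.toOrderHom i := rfl

theorem sh_comp {n n' : ℕ} (θ : ⦋n⦌ ⟶ ⦋n'⦌) (θ' : ⦋n + 1⦌ ⟶ ⦋n' + 1⦌)
    (h0 : θ'.toOrderHom 0 = 0) (h1 : ∀ i : Fin (n + 1), θ'.toOrderHom i.succ =
      (θ.toOrderHom i).succ) (φ : ⦋n'⦌ ⟶ ⦋1⦌) : sh (θ ≫ φ) = θ' ≫ sh φ := by
  apply SimplexCategory.Hom.ext
  ext i : 2
  change (sh (θ ≫ φ)).toOrderHom i = (sh φ).toOrderHom (θ'.toOrderHom i)
  cases i using Fin.cases with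
  | zero => rw [h0]; rfl
  | succ i => rw [h1]; rfl

theorem δ0_sh {n : ℕ} (φ : ⦋n⦌ ⟶ ⦋1⦌) : SimplexCategory.δ 0 ≫ sh φ = φ := by
  apply SimplexCategory.Hom.ext
  ext i : 2
  rfl

theorem δ1_sh (φ : ⦋0⦌ ⟶ ⦋1⦌) : CstE 0 (SimplexCategory.δ 1 ≫ sh φ) := by
  intro i
  fin_cases i
  rfl

section
variable (k : Type) [Field k]

/-- the map `u_φ ↦ u_φ` of the polynomial algebra on the `u_φ`. -/
noncomputable def emb (Δ : SimplexCategory) : CR k Δ →ₐ[k] CR k Δ :=
  MvPolynomial.aeval fun t => t.elim (MvPolynomial.X none ^ 2) fun φ => MvPolynomial.X (some φ)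

/-- the constant map with value one. -/
abbrev one (n : ℕ) : ⦋n⦌ ⟶ ⦋1⦌ := SimplexCategory.const ⦋n⦌ ⦋1⦌ 1

/-- images of the generators under the extra degeneracy. -/
noncomputable def sgen (n : ℕ) (t : Option (NC ⦋n⦌)) : CR k ⦋n + 1⦌ :=
  t.elim (uu k (sh (one n))) fun φ => uu k (sh φ.1)

/-- extra degeneracy on the polynomial algebra of the `u_φ`. -/
noncomputable def sig (n : ℕ) : CR k ⦋n⦌ →ₐ[k] CR k ⦋n + 1⦌ := MvPolynomial.aeval (sgen k n)

open Classical in
/-- `u_φ` in the polynomial algebra of the `u_φ`. -/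
noncomputable def vv {Δ : SimplexCategory} (φ : Δ ⟶ ⦋1⦌) : CR k Δ :=
  if h0 : CstE 0 φ then 0
  else if h1 : CstE 1 φ then MvPolynomial.X none
  else MvPolynomial.X (some ⟨φ, h0, h1⟩)

theorem emb_none (Δ : SimplexCategory) :
    emb k Δ (MvPolynomial.X none) = MvPolynomial.X none ^ 2 := by
  rw [emb, MvPolynomial.aeval_X]; rfl

theorem emb_some (Δ : SimplexCategory) (φ : NC Δ) :
    emb k Δ (MvPolynomial.X (some φ)) = MvPolynomial.X (some φ) := by
  rw [emb, MvPolynomial.aeval_X]; rfl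

theorem emb_vv {Δ : SimplexCategory} (φ : Δ ⟶ ⦋1⦌) : emb k Δ (vv k φ) = uu k φ := by
  unfold vv uu
  split_ifs with h0 h1
  · exact map_zero _
  · exact emb_none k Δ
  · exact emb_some k Δ _

theorem eq_one {n : ℕ} (φ : ⦋n⦌ ⟶ ⦋1⦌) (h : CstE 1 φ) : φ = one n := by
  apply SimplexCategory.Hom.ext
  ext i : 2
  exact h i

theorem sh_cst0 {n : ℕ} (φ : ⦋n⦌ ⟶ ⦋1⦌) (h : CstE 0 φ) : CstE 0 (sh φ) := by
  intro i
  change Fin (n + 2) at i
  cases i using Fin.cases with
  | zero => rfl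
  | succ i => exact h i

theorem sig_vv {n : ℕ} (φ : ⦋n⦌ ⟶ ⦋1⦌) : sig k n (vv k φ) = uu k (sh φ) := by
  unfold vv
  split_ifs with h0 h1
  · rw [uu_zero k (sh_cst0 φ h0), map_zero]
  · rw [sig, MvPolynomial.aeval_X, eq_one φ h1]
    rfl
  · rw [sig, MvPolynomial.aeval_X]
    rfl

/-- functoriality of the polynomial algebra of the `u_φ`. -/
noncomputable def Dmap {Δ Δ' : SimplexCategory} (θ : Δ ⟶ Δ') : CR k Δ' →ₐ[k] CR k Δ :=
  MvPolynomial.aeval fun t => t.elim (MvPolynomial.X none) fun φ => vv k (θ ≫ φ.1)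

theorem emb_D {Δ Δ' : SimplexCategory} (θ : Δ ⟶ Δ') :
    (emb k Δ).comp (Dmap k θ) = (CRmap k θ).comp (emb k Δ') := by
  refine MvPolynomial.algHom_ext fun t => ?_
  rw [AlgHom.comp_apply, AlgHom.comp_apply, Dmap, MvPolynomial.aeval_X]
  cases t with
  | none =>
    change emb k Δ (MvPolynomial.X none) = _
    rw [emb_none, emb_none, map_pow, CRmap_none]
  | some φ =>
    change emb k Δ (vv k (θ ≫ φ.1)) = _
    rw [emb_vv, emb_some, ← uu_some k φ, CRmap_uu]

theorem sig_D {n n' : ℕ} (θ : ⦋n⦌ ⟶ ⦋n'⦌) (θ' : ⦋n + 1⦌ ⟶ ⦋n' + 1⦌)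
    (h0 : θ'.toOrderHom 0 = 0) (h1 : ∀ i : Fin (n + 1), θ'.toOrderHom i.succ =
      (θ.toOrderHom i).succ) :
    (sig k n).comp (Dmap k θ) = (CRmap k θ').comp (sig k n') := by
  refine MvPolynomial.algHom_ext fun t => ?_
  rw [AlgHom.comp_apply, AlgHom.comp_apply, Dmap, MvPolynomial.aeval_X]
  cases t with
  | none =>
    change sig k n (MvPolynomial.X none) = _
    rw [sig, MvPolynomial.aeval_X, sig, MvPolynomial.aeval_X]
    change uu k (sh (one n)) = CRmap k θ' (uu k (sh (one n')))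
    rw [CRmap_uu, ← sh_comp θ θ' h0 h1]
    rfl
  | some φ =>
    change sig k n (vv k (θ ≫ φ.1)) = _
    rw [sig_vv, sig, MvPolynomial.aeval_X]
    change _ = CRmap k θ' (uu k (sh φ.1))
    rw [CRmap_uu, ← sh_comp θ θ' h0 h1]

theorem sig_δ0 (n : ℕ) : (CRmap k (SimplexCategory.δ 0)).comp (sig k n) = emb k ⦋n⦌ := by
  refine MvPolynomial.algHom_ext fun t => ?_
  rw [AlgHom.comp_apply, sig, MvPolynomial.aeval_X]
  cases t with
  | none =>
    rw [emb_none]
    change CRmap k (SimplexCategory.δ 0) (uu k (sh (one n))) = _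
    rw [CRmap_uu, δ0_sh, uu_one]
    intro i
    rfl
  | some φ =>
    rw [emb_some]
    change CRmap k (SimplexCategory.δ 0) (uu k (sh φ.1)) = _
    rw [CRmap_uu, δ0_sh, uu_some]

theorem sig_δ1 (t : Option (NC ⦋0⦌)) :
    CRmap k (SimplexCategory.δ 1) (sig k 0 (MvPolynomial.X t)) = 0 := by
  rw [sig, MvPolynomial.aeval_X]
  cases t with
  | none =>
    change CRmap k (SimplexCategory.δ 1) (uu k (sh (one 0))) = _
    rw [CRmap_uu, uu_zero k (δ1_sh _)]
  | some φ =>
    change CRmap k (SimplexCategory.δ 1) (uu k (sh φ.1)) = _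
    rw [CRmap_uu, uu_zero k (δ1_sh _)]

/-- Replace the exponent of the first variable. -/
noncomputable def mk {S : Type} (r : ℕ) (e : Option S →₀ ℕ) : Option S →₀ ℕ :=
  Finsupp.single none r + e.erase none

theorem mk_none {S : Type} (r : ℕ) (e : Option S →₀ ℕ) : mk r e none = r := by
  simp [mk]

theorem erase_mk {S : Type} (r : ℕ) (e : Option S →₀ ℕ) : (mk r e).erase none = e.erase none := by
  ext t
  cases t with
  | none => simp
  | some t => simp [mk]

theorem mk_mk {S : Type} (r r' : ℕ) (e : Option S →₀ ℕ) : mk r (mk r' e) = mk r e := by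
  rw [mk, erase_mk]
  rfl

theorem mk_self {S : Type} (e : Option S →₀ ℕ) : mk (e none) e = e :=
  Finsupp.single_add_erase none e

theorem mon_mk {S : Type} (r : ℕ) (e : Option S →₀ ℕ) :
    (MvPolynomial.monomial (mk r e) (1 : k)) =
      MvPolynomial.X none ^ r * MvPolynomial.monomial (e.erase none) 1 := by
  rw [mk, MvPolynomial.X_pow_eq_monomial, MvPolynomial.monomial_mul, one_mul]

theorem emb_erase {Δ : SimplexCategory} (e : Option (NC Δ) →₀ ℕ) (h : e none = 0) :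
    emb k Δ (MvPolynomial.monomial e 1) = MvPolynomial.monomial e 1 := by
  rw [emb, MvPolynomial.aeval_monomial, map_one, one_mul, MvPolynomial.monomial_eq, map_one,
    one_mul]
  refine Finset.prod_congr rfl fun t ht => ?_
  cases t with
  | none => exact absurd h (Finsupp.mem_support_iff.1 ht)
  | some φ => rfl

theorem emb_mon {Δ : SimplexCategory} (e : Option (NC Δ) →₀ ℕ) :
    emb k Δ (MvPolynomial.monomial e 1) = MvPolynomial.monomial (mk (2 * e none) e) 1 := by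
  conv_lhs => rw [← mk_self e]
  rw [mon_mk, mon_mk, map_mul, map_pow, emb_none, ← pow_mul, emb_erase]
  simp

/-- The extra degeneracy. -/
noncomputable def ss (n : ℕ) : CR k ⦋n⦌ →ₗ[k] CR k ⦋n + 1⦌ :=
  (MvPolynomial.basisMonomials (Option (NC ⦋n⦌)) k).constr k fun e =>
    MvPolynomial.X none ^ (e none % 2) * sig k n (MvPolynomial.monomial (mk (e none / 2) e) 1)

theorem ss_mon (n : ℕ) (e : Option (NC ⦋n⦌) →₀ ℕ) : ss k n (MvPolynomial.monomial e 1) =
    MvPolynomial.X none ^ (e none % 2) *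
      sig k n (MvPolynomial.monomial (mk (e none / 2) e) 1) := by
  have h := (MvPolynomial.basisMonomials (Option (NC ⦋n⦌)) k).constr_basis k (fun e =>
    MvPolynomial.X none ^ (e none % 2) * sig k n (MvPolynomial.monomial (mk (e none / 2) e) 1)) e
  rw [MvPolynomial.coe_basisMonomials] at h
  exact h

theorem mon_dec {Δ : SimplexCategory} (e : Option (NC Δ) →₀ ℕ) :
    (MvPolynomial.monomial e 1 : CR k Δ) =
      MvPolynomial.X none ^ (e none % 2) * emb k Δ (MvPolynomial.monomial (mk (e none / 2) e) 1) := by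
  rw [emb_mon, mk_none, mk_mk, mon_mk, ← mul_assoc, ← pow_add, Nat.mod_add_div, ← mon_mk, mk_self]

theorem lin_ext_mon {S M : Type} [AddCommGroup M] [Module k M]
    (f g : MvPolynomial S k →ₗ[k] M)
    (h : ∀ e, f (MvPolynomial.monomial e 1) = g (MvPolynomial.monomial e 1)) : f = g := by
  refine (MvPolynomial.basisMonomials S k).ext fun e => ?_
  rw [MvPolynomial.coe_basisMonomials]
  exact h e

theorem ss_mul_mon (n r : ℕ) (hr : r < 2) (e : Option (NC ⦋n⦌) →₀ ℕ) :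
    ss k n (MvPolynomial.X none ^ r * emb k ⦋n⦌ (MvPolynomial.monomial e 1)) =
      MvPolynomial.X none ^ r * sig k n (MvPolynomial.monomial e 1) := by
  rw [emb_mon, mon_mk, ← mul_assoc, ← pow_add, ← mon_mk, ss_mon, mk_none, mk_mk]
  have h1 : (r + 2 * e none) % 2 = r := by omega
  have h2 : (r + 2 * e none) / 2 = e none := by omega
  rw [h1, h2, mk_self]

theorem ss_mul (n r : ℕ) (hr : r < 2) (d : CR k ⦋n⦌) :
    ss k n (MvPolynomial.X none ^ r * emb k ⦋n⦌ d) = MvPolynomial.X none ^ r * sig k n d := by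
  have h : (ss k n).comp ((LinearMap.mulLeft k (MvPolynomial.X none ^ r)).comp
      (emb k ⦋n⦌).toLinearMap) =
      (LinearMap.mulLeft k (MvPolynomial.X none ^ r)).comp (sig k n).toLinearMap := by
    refine lin_ext_mon k _ _ fun e => ?_
    rw [LinearMap.comp_apply, LinearMap.comp_apply, LinearMap.comp_apply,
      LinearMap.mulLeft_apply, LinearMap.mulLeft_apply, AlgHom.toLinearMap_apply,
      AlgHom.toLinearMap_apply]
    exact ss_mul_mon k n r hr e
  have h2 := congr($h d)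
  rw [LinearMap.comp_apply, LinearMap.comp_apply, LinearMap.comp_apply,
      LinearMap.mulLeft_apply, LinearMap.mulLeft_apply, AlgHom.toLinearMap_apply,
      AlgHom.toLinearMap_apply] at h2
  exact h2

/-- Equality of linear maps on the elements of the form `x ^ r * emb d`. -/
theorem lin_ext {Δ : SimplexCategory} {M : Type} [AddCommGroup M] [Module k M]
    (f g : CR k Δ →ₗ[k] M)
    (h : ∀ (r : ℕ) (_ : r < 2) (d : CR k Δ),
      f (MvPolynomial.X none ^ r * emb k Δ d) = g (MvPolynomial.X none ^ r * emb k Δ d)) :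
    f = g := by
  refine lin_ext_mon k _ _ fun e => ?_
  rw [mon_dec]
  exact h _ (Nat.mod_lt _ (by norm_num)) _

theorem CRmap_xr {Δ Δ' : SimplexCategory} (θ : Δ ⟶ Δ') (r : ℕ) (d : CR k Δ') :
    CRmap k θ (MvPolynomial.X none ^ r * d) = MvPolynomial.X none ^ r * CRmap k θ d := by
  rw [map_mul (CRmap k θ), map_pow (CRmap k θ), CRmap_none]

theorem ss_nat {n n' : ℕ} (θ : ⦋n⦌ ⟶ ⦋n'⦌) (θ' : ⦋n + 1⦌ ⟶ ⦋n' + 1⦌)
    (h0 : θ'.toOrderHom 0 = 0) (h1 : ∀ i : Fin (n + 1), θ'.toOrderHom i.succ =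
      (θ.toOrderHom i).succ) (c : CR k ⦋n'⦌) :
    ss k n (CRmap k θ c) = CRmap k θ' (ss k n' c) := by
  have h : (ss k n).comp (CRmap k θ).toLinearMap = (CRmap k θ').toLinearMap.comp (ss k n') := by
    refine lin_ext k _ _ fun r hr d => ?_
    rw [LinearMap.comp_apply, LinearMap.comp_apply, AlgHom.toLinearMap_apply,
      AlgHom.toLinearMap_apply, ss_mul k n' r hr, CRmap_xr, CRmap_xr]
    have h2 : CRmap k θ (emb k _ d) = emb k _ (Dmap k θ d) := (congr($(emb_D k θ) d)).symm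
    have h3 : sig k n (Dmap k θ d) = CRmap k θ' (sig k n' d) := congr($(sig_D k θ θ' h0 h1) d)
    rw [h2, ss_mul k n r hr, h3]
  have h4 := congr($h c)
  rw [LinearMap.comp_apply, LinearMap.comp_apply, AlgHom.toLinearMap_apply,
      AlgHom.toLinearMap_apply] at h4
  exact h4

theorem ss_δ0 (n : ℕ) (c : CR k ⦋n⦌) : CRmap k (SimplexCategory.δ 0) (ss k n c) = c := by
  have h : (CRmap k (SimplexCategory.δ 0)).toLinearMap.comp (ss k n) = LinearMap.id := by
    refine lin_ext k _ _ fun r hr d => ?_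
    rw [LinearMap.comp_apply, AlgHom.toLinearMap_apply, LinearMap.id_apply,
      ss_mul k n r hr, CRmap_xr]
    have h2 : CRmap k (SimplexCategory.δ 0) (sig k n d) = emb k _ d := congr($(sig_δ0 k n) d)
    rw [h2]
  have h4 := congr($h c)
  rw [LinearMap.comp_apply, AlgHom.toLinearMap_apply, LinearMap.id_apply] at h4
  exact h4

/-- Degrees. -/
theorem aeval_mem {S : Type} {Δ : SimplexCategory} (m : ℕ) (g : S → CR k Δ) (w : S → ℕ)
    (hg : ∀ t, MvPolynomial.IsWeightedHomogeneous (wt m Δ) (g t) (w t)) (e : S →₀ ℕ) :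
    MvPolynomial.IsWeightedHomogeneous (wt m Δ) (MvPolynomial.aeval g
      (MvPolynomial.monomial e (1 : k))) (Finsupp.weight w e) := by
  rw [MvPolynomial.aeval_monomial, map_one, one_mul]
  have h2 : MvPolynomial.IsWeightedHomogeneous (wt m Δ)
      (∏ i ∈ e.support, g i ^ e i) (∑ i ∈ e.support, e i • w i) := by
    refine MvPolynomial.IsWeightedHomogeneous.prod _ _ _ fun i _ => ?_
    exact MvPolynomial.IsWeightedHomogeneous.pow (hg i) _
  exact h2

theorem wt_erase (m : ℕ) (Δ : SimplexCategory) (e : Option (NC Δ) →₀ ℕ) (h : e none = 0) :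
    Finsupp.weight (wt m Δ) e = Finsupp.weight (fun _ => 2 * m) e := by
  rw [Finsupp.weight_apply, Finsupp.weight_apply]
  refine Finset.sum_congr rfl fun t ht => ?_
  cases t with
  | none => exact absurd h (Finsupp.mem_support_iff.1 ht)
  | some φ => rfl

theorem wt_mk (m : ℕ) (Δ : SimplexCategory) (r : ℕ) (e : Option (NC Δ) →₀ ℕ) :
    Finsupp.weight (wt m Δ) (mk r e) = r * m +
      Finsupp.weight (fun _ => 2 * m) (e.erase none) := by
  rw [mk, map_add, Finsupp.weight_single, wt_erase m Δ (e.erase none) (by simp)]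
  rfl

theorem wt2_mk (m : ℕ) {S : Type} (r : ℕ) (e : Option S →₀ ℕ) :
    Finsupp.weight (fun _ => 2 * m) (mk r e) = r * (2 * m) +
      Finsupp.weight (fun _ => 2 * m) (e.erase none) := by
  rw [mk, map_add, Finsupp.weight_single]
  rfl

theorem ss_mon_mem (m n : ℕ) (e : Option (NC ⦋n⦌) →₀ ℕ) :
    MvPolynomial.IsWeightedHomogeneous (wt m ⦋n + 1⦌)
      (ss k n (MvPolynomial.monomial e 1)) (Finsupp.weight (wt m ⦋n⦌) e) := by
  rw [ss_mon]
  have h1 := (MvPolynomial.isWeightedHomogeneous_X k (wt m ⦋n + 1⦌) none).pow (e none % 2)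
  have h2 : MvPolynomial.IsWeightedHomogeneous (wt m ⦋n + 1⦌)
      (sig k n (MvPolynomial.monomial (mk (e none / 2) e) 1))
      (Finsupp.weight (fun _ => 2 * m) (mk (e none / 2) e)) := by
    refine aeval_mem k m (sgen k n) (fun _ => 2 * m) (fun t => ?_) _
    cases t with
    | none => exact uu_mem k m _
    | some φ => exact uu_mem k m _
  have h3 := h1.mul h2
  have h4 : (e none % 2) • wt m ⦋n + 1⦌ none +
      Finsupp.weight (fun _ => 2 * m) (mk (e none / 2) e) = Finsupp.weight (wt m ⦋n⦌) e := by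
    conv_rhs => rw [← mk_self e]
    rw [wt_mk, wt2_mk, ← add_assoc]
    congr 1
    change (e none % 2) * m + _ = _
    have h5 := Nat.mod_add_div (e none) 2
    calc (e none % 2) * m + (e none / 2) * (2 * m) = (e none % 2 + 2 * (e none / 2)) * m := by ring
      _ = e none * m := by rw [h5]
  rw [h4] at h3
  exact h3

theorem ss_mem (m n j : ℕ) (c : CR k ⦋n⦌)
    (hc : c ∈ MvPolynomial.weightedHomogeneousSubmodule k (wt m ⦋n⦌) j) :
    ss k n c ∈ MvPolynomial.weightedHomogeneousSubmodule k (wt m ⦋n + 1⦌) j := by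
  rw [MvPolynomial.as_sum c, map_sum]
  refine Submodule.sum_mem _ fun e he => ?_
  have hw : Finsupp.weight (wt m ⦋n⦌) e = j := hc (MvPolynomial.mem_support_iff.1 he)
  have h1 : MvPolynomial.monomial e (MvPolynomial.coeff e c) =
      MvPolynomial.coeff e c • (MvPolynomial.monomial e 1 : CR k ⦋n⦌) := by
    rw [MvPolynomial.smul_monomial, smul_eq_mul, mul_one]
  rw [h1, map_smul]
  refine Submodule.smul_mem _ _ ?_
  rw [← hw]
  exact ss_mon_mem k m n e

theorem ss_δ1 (m j : ℕ) (hj : 1 ≤ j) (hjm : j ≠ m) (c : CR k ⦋0⦌)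
    (hc : c ∈ MvPolynomial.weightedHomogeneousSubmodule k (wt m ⦋0⦌) j) :
    CRmap k (SimplexCategory.δ 1) (ss k 0 c) = 0 := by
  rw [MvPolynomial.as_sum c, map_sum, map_sum]
  refine Finset.sum_eq_zero fun e he => ?_
  have hw : Finsupp.weight (wt m ⦋0⦌) e = j := hc (MvPolynomial.mem_support_iff.1 he)
  have h1 : MvPolynomial.monomial e (MvPolynomial.coeff e c) =
      MvPolynomial.coeff e c • (MvPolynomial.monomial e 1 : CR k ⦋0⦌) := by
    rw [MvPolynomial.smul_monomial, smul_eq_mul, mul_one]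
  rw [h1, map_smul, map_smul, ss_mon, CRmap_xr]
  have h2 : CRmap k (SimplexCategory.δ 1)
      (sig k 0 (MvPolynomial.monomial (mk (e none / 2) e) 1)) = 0 := by
    have h3 : mk (e none / 2) e ≠ 0 := by
      intro h3
      have h4 : e none / 2 = 0 := by
        have := congr($h3 none)
        rw [mk_none] at this
        exact this
      have h5 : e.erase none = 0 := by
        rw [← erase_mk (e none / 2) e, h3]
        simp
      rw [← mk_self e, wt_mk, h5, map_zero, add_zero] at hw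
      have h6 : e none = 0 ∨ e none = 1 := by omega
      rcases h6 with h6 | h6
      · rw [h6] at hw
        omega
      · rw [h6] at hw
        omega
    obtain ⟨t, ht⟩ := Finsupp.support_nonempty_iff.2 h3
    have h4 : MvPolynomial.monomial (mk (e none / 2) e) (1 : k) =
        MvPolynomial.X t * MvPolynomial.monomial (mk (e none / 2) e - Finsupp.single t 1) 1 := by
      rw [← pow_one (MvPolynomial.X t), MvPolynomial.X_pow_eq_monomial, MvPolynomial.monomial_mul,
        one_mul, add_tsub_cancel_of_le]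
      rw [Finsupp.single_le_iff]
      exact Nat.one_le_iff_ne_zero.2 (Finsupp.mem_support_iff.1 ht)
    rw [h4, map_mul (sig k 0), map_mul (CRmap k (SimplexCategory.δ 1)), sig_δ1, zero_mul]
  rw [h2, mul_zero, smul_zero]

theorem ss_psub (hP : PSB_Stmt k) (m : ℕ) (hm : 1 ≤ m) (j : ℕ) (hj : 1 ≤ j) (n : ℕ) :
    ∀ c ∈ Psub (CO1 k m hm ⦋n⦌).dg 1 j, ss k n c ∈ Psub (CO1 k m hm ⦋n + 1⦌).dg 1 j := by
  intro c hc
  rw [(hP (CO1 k m hm ⦋n⦌)).2.2.1 j hj] at hc
  rw [(hP (CO1 k m hm ⦋n + 1⦌)).2.2.1 j hj]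
  exact ss_mem k m n j c hc

/-- The extra degeneracy in degree `j`. -/
noncomputable def sM (hP : PSB_Stmt k) (m : ℕ) (hm : 1 ≤ m) (j : ℕ) (hj : 1 ≤ j) (n : ℕ) :
    ((wh (Pf 1 j)).obj (CO k m hm)) _⦋n⦌ ⟶ ((wh (Pf 1 j)).obj (CO k m hm)) _⦋n + 1⦌ :=
  ModuleCat.ofHom ((ss k n).restrict (ss_psub k hP m hm j hj n))

end

end CMA

theorem cma (k : Type) [Field k] : SHEQ_Stmt → CTRA_Stmt → PSB_Stmt k → CMA_Stmt k := by
  intro _ hC hP m hm j hj hjm
  refine (hC (ModuleCat.{0} k) ((wh (Pf 1 j)).obj (CO k m hm))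
    ((wh (Pf 1 j)).obj (CO k m hm))).2
    (CMA.ctr_of_extra _ (CMA.sM k hP m hm j hj) ?_ ?_ ?_ ?_)
  · ext x
    apply Subtype.ext
    have hx : x.1 ∈ Psub (CO1 k m hm ⦋0⦌).dg 1 j := x.2
    rw [(hP (CO1 k m hm ⦋0⦌)).2.2.1 j hj] at hx
    exact CMA.ss_δ1 k m j hj hjm x.1 hx
  · intro n
    ext x
    apply Subtype.ext
    exact CMA.ss_δ0 k n x.1
  · intro n i
    ext x
    apply Subtype.ext
    refine (CMA.ss_nat k (SimplexCategory.δ i) (SimplexCategory.δ i.succ) ?_ ?_ x.1).symm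
    · exact Fin.succ_succAbove_zero i
    · intro l
      exact Fin.succ_succAbove_succ i l
  · intro n i
    ext x
    apply Subtype.ext
    refine (CMA.ss_nat k (SimplexCategory.σ i) (SimplexCategory.σ i.succ) ?_ ?_ x.1).symm
    · rfl
    · intro l
      exact Fin.succ_predAbove_succ i l

end Pool.Agent.SHQ
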