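import Pool.Agent.SH.Q.CmpDefs

/-!
# Block III-Q (MP_2d0b73_an): degree `m` of the comparison object (module SHQ_CMG)
-/

open CategoryTheory CategoryTheory.Limits AlgebraicTopology Opposite Simplicial

namespace Pool.Agent.SHQ

namespace CMG

variable (k : Type) [Field k]

/-- Elements of degree `m` are multiples of `x`. -/
theorem eq_smul {m : ℕ} (hm : 1 ≤ m) {Δ : SimplexCategory} {a : CR k Δ}
    (ha : a ∈ MvPolynomial.weightedHomogeneousSubmodule k (wt m Δ) m) :
    ∃ c : k, a = c • (MvPolynomial.X none : CR k Δ) := by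
  classical
  refine ⟨MvPolynomial.coeff (Finsupp.single none 1) a, ?_⟩
  ext d
  rw [MvPolynomial.coeff_smul, MvPolynomial.coeff_X']
  by_cases h : Finsupp.single none 1 = d
  · rw [if_pos h, ← h, smul_eq_mul, mul_one]
  · rw [if_neg h, smul_zero]
    by_contra hne
    have hw : Finsupp.weight (wt m Δ) d = m := ha hne
    apply h
    have h2 : ∀ φ : NC Δ, d (some φ) = 0 := by
      intro φ
      by_contra hφ
      have h3 : wt m Δ (some φ) ≤ Finsupp.weight (wt m Δ) d :=
        Finsupp.le_weight_of_ne_zero' (wt m Δ) hφ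
      rw [hw] at h3
      change 2 * m ≤ m at h3
      omega
    have h4 : d = Finsupp.single none (d none) := by
      ext t
      cases t with
      | none => rw [Finsupp.single_eq_same]
      | some φ => rw [h2, Finsupp.single_eq_of_ne (by simp)]
    have h5 : d none * m = m := by
      rw [h4, Finsupp.weight_single] at hw
      exact hw
    have h6 : d none = 1 := by
      have : d none * m = 1 * m := by rw [h5, one_mul]
      exact Nat.eq_of_mul_eq_mul_right (by omega) this
    rw [h4, h6]

theorem X_ne {Δ : SimplexCategory} : (MvPolynomial.X none : CR k Δ) ≠ 0 := MvPolynomial.X_ne_zero _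

theorem map_smul_X {Δ Δ' : SimplexCategory} (θ : Δ ⟶ Δ') (c : k) :
    CRmap k θ (c • (MvPolynomial.X none : CR k Δ')) = c • (MvPolynomial.X none : CR k Δ) := by
  rw [map_smul, CRmap_none]

theorem X_mem (m : ℕ) (Δ : SimplexCategory) (c : k) : c • (MvPolynomial.X none : CR k Δ) ∈
    MvPolynomial.weightedHomogeneousSubmodule k (wt m Δ) m :=
  Submodule.smul_mem _ _ (MvPolynomial.isWeightedHomogeneous_X k (wt m Δ) none)

variable (hP : PSB_Stmt k) {m : ℕ} (hm : 1 ≤ m)

/-- The simplicial vector space of the elements of degree `m`. -/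
noncomputable abbrev FF {m : ℕ} (hm : 1 ≤ m) : SimplicialObject (ModuleCat.{0} k) :=
  (wh (Pf 1 m)).obj (CO k m hm)

include hP in
theorem psub_iff (Δ : SimplexCategoryᵒᵖ) (a : ((CO k m hm).obj Δ).R) :
    a ∈ Psub ((CO k m hm).obj Δ).dg 1 m ↔ a ∈ ((CO k m hm).obj Δ).dg m := by
  rw [(hP ((CO k m hm).obj Δ)).2.2.1 m hm]

/-- The comparison with the constant object. -/
noncomputable def al : (Functor.const SimplexCategoryᵒᵖ).obj ((FF k hm).obj (op ⦋0⦌)) ⟶ FF k hm where
  app Δ := (FF k hm).map (SimplexCategory.const Δ.unop ⦋0⦌ 0).op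
  naturality Δ Δ' θ := by
    exact (Category.id_comp ((FF k hm).map (SimplexCategory.const Δ'.unop ⦋0⦌ 0).op)).trans
      (Functor.map_comp (FF k hm) (SimplexCategory.const Δ.unop ⦋0⦌ 0).op θ)

include hP in
theorem al_bij (Δ : SimplexCategoryᵒᵖ) : Function.Bijective ((al k hm).app Δ).hom := by
  constructor
  · rw [← LinearMap.coe_coe, injective_iff_map_eq_zero]
    intro a ha
    have h1 := (psub_iff k hP hm _ _).1 a.2
    obtain ⟨c, hc⟩ := eq_smul k hm h1
    have h2 : CRmap k (SimplexCategory.const Δ.unop ⦋0⦌ 0) a.1 = 0 := congrArg Subtype.val ha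
    rw [hc, map_smul_X] at h2
    have h3 : c = 0 := by
      rcases smul_eq_zero.1 h2 with h | h
      · exact h
      · exact absurd h (X_ne k)
    apply Subtype.ext
    rw [hc, h3, zero_smul]
    rfl
  · intro b
    have h1 := (psub_iff k hP hm _ _).1 b.2
    obtain ⟨c, hc⟩ := eq_smul k hm h1
    refine ⟨⟨c • (MvPolynomial.X none : CR k ⦋0⦌), (psub_iff k hP hm _ _).2 (X_mem k m _ c)⟩, ?_⟩
    apply Subtype.ext
    exact (map_smul_X k _ c).trans hc.symm

end CMG

open CMG in
theorem cmg (k : Type) [Field k] : PSB_Stmt k → CMG_Stmt k := by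
  intro hP m hm
  refine ⟨?_, ?_, ?_, ?_⟩
  · have h := X_mem k m ⦋0⦌ 1
    rw [one_smul] at h
    exact h
  · intro b hb
    obtain ⟨c, hc⟩ := eq_smul k hm hb
    refine ⟨c, 0, Submodule.zero_mem _, ?_⟩
    rw [map_zero, map_zero, sub_zero]
    exact sub_eq_zero.2 hc
  · rintro c ⟨e, he, hce⟩
    obtain ⟨c', hc'⟩ := eq_smul k hm he
    have h1 : c • (MvPolynomial.X none : CR k ⦋0⦌) =
        CRmap k (SimplexCategory.δ 0) e - CRmap k (SimplexCategory.δ 1) e := hce
    rw [hc', map_smul_X, map_smul_X, sub_self] at h1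
    rcases smul_eq_zero.1 h1 with h | h
    · exact h
    · exact absurd h (X_ne k)
  · intro s hs
    have hiso : IsIso (al k hm) := by
      rw [NatTrans.isIso_iff_isIso_app]
      intro Δ
      exact (ConcreteCategory.isIso_iff_bijective _).2 (al_bij k hP hm Δ)
    have h1 := ChainComplex.alternatingConst_exactAt ((FF k hm).obj (op ⦋0⦌)) s (by omega)
    refine h1.of_iso ?_
    exact (alternatingFaceMapComplexConst.app ((FF k hm).obj (op ⦋0⦌))).symm ≪≫
      (alternatingFaceMapComplex _).mapIso (asIso (al k hm))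

end Pool.Agent.SHQ
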