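import Pool.Agent.SH.Q.Stmts

/-!
# Block III-Q (MP_2d0b73_an): the comparison object

`CO k m hm` : in level `Δ` the polynomial algebra on `x` (degree `m`) and on `y_φ` (degree `2 m`) for the
nonconstant maps `φ : Δ ⟶ ⦋1⦌`; with `uu φ = y_φ`, `uu 1 = x ^ 2`, `uu 0 = 0` a map `θ` sends `x` to `x` and
`uu φ` to `uu (θ ≫ φ)`.
-/

open CategoryTheory CategoryTheory.Limits AlgebraicTopology Opposite Simplicial

namespace Pool.Agent.SHQ

/-- `φ` is constant with value `c`. -/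
def CstE (c : Fin 2) {Δ : SimplexCategory} (φ : Δ ⟶ ⦋1⦌) : Prop := ∀ i, φ.toOrderHom i = c

lemma not_both {Δ : SimplexCategory} (φ : Δ ⟶ ⦋1⦌) (h0 : CstE 0 φ) (h1 : CstE 1 φ) : False := by
  have a := h0 0
  have b := h1 0
  rw [a] at b
  exact absurd b (by decide)

lemma CstE.comp {c : Fin 2} {Δ Δ' : SimplexCategory} {φ : Δ' ⟶ ⦋1⦌} (h : CstE c φ)
    (θ : Δ ⟶ Δ') : CstE c (θ ≫ φ) := fun i => h (θ.toOrderHom i)

/-- Nonconstant maps to `⦋1⦌`. -/
abbrev NC (Δ : SimplexCategory) : Type := {φ : Δ ⟶ ⦋1⦌ // ¬ CstE 0 φ ∧ ¬ CstE 1 φ}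

/-- The polynomial algebra. -/
abbrev CR (k : Type) [Field k] (Δ : SimplexCategory) : Type := MvPolynomial (Option (NC Δ)) k

/-- The degrees of the generators. -/
def wt (m : ℕ) (Δ : SimplexCategory) (t : Option (NC Δ)) : ℕ := t.elim m fun _ => 2 * m

section
variable (k : Type) [Field k]

open Classical in
/-- The elements `u_φ`. -/
noncomputable def uu {Δ : SimplexCategory} (φ : Δ ⟶ ⦋1⦌) : CR k Δ :=
  if h0 : CstE 0 φ then 0
  else if h1 : CstE 1 φ then (MvPolynomial.X none) ^ 2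
  else MvPolynomial.X (some ⟨φ, h0, h1⟩)

lemma uu_zero {Δ : SimplexCategory} {φ : Δ ⟶ ⦋1⦌} (h : CstE 0 φ) : uu k φ = 0 := by
  rw [uu, dif_pos h]

lemma uu_one {Δ : SimplexCategory} {φ : Δ ⟶ ⦋1⦌} (h : CstE 1 φ) :
    uu k φ = (MvPolynomial.X none) ^ 2 := by
  rw [uu, dif_neg (fun h0 => not_both φ h0 h), dif_pos h]

lemma uu_some {Δ : SimplexCategory} (φ : NC Δ) : uu k φ.1 = MvPolynomial.X (some φ) := by
  rw [uu, dif_neg φ.2.1, dif_neg φ.2.2]

/-- The images of the generators. -/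
noncomputable def CRgen {Δ Δ' : SimplexCategory} (θ : Δ ⟶ Δ') (t : Option (NC Δ')) : CR k Δ :=
  t.elim (MvPolynomial.X none) fun φ => uu k (θ ≫ φ.1)

/-- The algebra maps. -/
noncomputable def CRmap {Δ Δ' : SimplexCategory} (θ : Δ ⟶ Δ') : CR k Δ' →ₐ[k] CR k Δ :=
  MvPolynomial.aeval (CRgen k θ)

@[simp] lemma CRmap_none {Δ Δ' : SimplexCategory} (θ : Δ ⟶ Δ') :
    CRmap k θ (MvPolynomial.X none) = MvPolynomial.X none := by
  rw [CRmap, MvPolynomial.aeval_X]; rfl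

lemma CRmap_uu {Δ Δ' : SimplexCategory} (θ : Δ ⟶ Δ') (φ : Δ' ⟶ ⦋1⦌) :
    CRmap k θ (uu k φ) = uu k (θ ≫ φ) := by
  by_cases h0 : CstE 0 φ
  · rw [uu_zero k h0, uu_zero k (h0.comp θ), map_zero]
  by_cases h1 : CstE 1 φ
  · rw [uu_one k h1, uu_one k (h1.comp θ), map_pow, CRmap_none]
  · rw [uu_some k ⟨φ, h0, h1⟩, CRmap, MvPolynomial.aeval_X]; rfl

lemma CRmap_id (Δ : SimplexCategory) : CRmap k (𝟙 Δ) = AlgHom.id k (CR k Δ) := by
  refine MvPolynomial.algHom_ext fun t => ?_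
  cases t with
  | none => rw [CRmap_none]; rfl
  | some φ =>
    rw [← uu_some k φ, CRmap_uu, Category.id_comp]; rfl

lemma CRmap_comp {Δ Δ' Δ'' : SimplexCategory} (θ : Δ ⟶ Δ') (θ' : Δ' ⟶ Δ'') :
    CRmap k (θ ≫ θ') = (CRmap k θ).comp (CRmap k θ') := by
  refine MvPolynomial.algHom_ext fun t => ?_
  cases t with
  | none => rw [CRmap_none, AlgHom.comp_apply, CRmap_none, CRmap_none]
  | some φ =>
    rw [← uu_some k φ, CRmap_uu, AlgHom.comp_apply, CRmap_uu, CRmap_uu, Category.assoc]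

variable (m : ℕ)

lemma uu_mem {Δ : SimplexCategory} (φ : Δ ⟶ ⦋1⦌) :
    uu k φ ∈ MvPolynomial.weightedHomogeneousSubmodule k (wt m Δ) (2 * m) := by
  by_cases h0 : CstE 0 φ
  · rw [uu_zero k h0]; exact Submodule.zero_mem _
  by_cases h1 : CstE 1 φ
  · rw [uu_one k h1]
    have := (MvPolynomial.isWeightedHomogeneous_X k (wt m Δ) none).pow 2
    simpa [wt, two_mul] using this
  · rw [uu_some k ⟨φ, h0, h1⟩]
    exact MvPolynomial.isWeightedHomogeneous_X k (wt m Δ) _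

lemma CRmap_mem {Δ Δ' : SimplexCategory} (θ : Δ ⟶ Δ') (j : ℕ) :
    ∀ a ∈ MvPolynomial.weightedHomogeneousSubmodule k (wt m Δ') j,
      CRmap k θ a ∈ MvPolynomial.weightedHomogeneousSubmodule k (wt m Δ) j := by
  intro a ha
  rw [CRmap, MvPolynomial.aeval_def, MvPolynomial.eval₂_eq]
  refine Submodule.sum_mem _ fun d hd => ?_
  have hw : Finsupp.weight (wt m Δ') d = j := ha (MvPolynomial.mem_support_iff.1 hd)
  have h1 : (∏ i ∈ d.support, CRgen k θ i ^ d i) ∈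
      MvPolynomial.weightedHomogeneousSubmodule k (wt m Δ) j := by
    have h2 : MvPolynomial.IsWeightedHomogeneous (wt m Δ)
        (∏ i ∈ d.support, CRgen k θ i ^ d i) (∑ i ∈ d.support, d i • wt m Δ' i) := by
      refine MvPolynomial.IsWeightedHomogeneous.prod _ _ _ fun i _ => ?_
      refine MvPolynomial.IsWeightedHomogeneous.pow ?_ _
      cases i with
      | none => exact MvPolynomial.isWeightedHomogeneous_X k (wt m Δ) none
      | some φ => exact uu_mem k m _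
    have h3 : ∑ i ∈ d.support, d i • wt m Δ' i = j := by
      rw [← hw, Finsupp.weight_apply]; rfl
    rw [h3] at h2
    exact h2
  have h4 := (MvPolynomial.weightedHomogeneousSubmodule k (wt m Δ) j).smul_mem
    (MvPolynomial.coeff d a) h1
  rw [Algebra.smul_def] at h4
  exact h4

/-- The level `Δ` of the comparison object. -/
noncomputable def CO1 (hm : 1 ≤ m) (Δ : SimplexCategory) : PGA k where
  R := CR k Δ
  dg := MvPolynomial.weightedHomogeneousSubmodule k (wt m Δ)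
  poly := by
    have hX : MvPolynomial.aeval (R := k) (MvPolynomial.X : Option (NC Δ) → CR k Δ) =
        AlgHom.id k _ := MvPolynomial.aeval_X_left
    refine ⟨Option (NC Δ), MvPolynomial.X, wt m Δ, ?_, ?_, ?_⟩
    · intro s
      cases s with
      | none => show 0 < m; omega
      | some φ => show 0 < 2 * m; omega
    · rw [hX]; exact Function.bijective_id
    · intro j
      rw [hX]
      exact (Submodule.map_id _).symm

/-- The comparison object. -/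
noncomputable def CO (hm : 1 ≤ m) : SimplicialObject (PGA k) where
  obj Δ := CO1 k m hm Δ.unop
  map {Δ Δ'} θ := (⟨CRmap k θ.unop, CRmap_mem k m θ.unop⟩ :
    PGA.Hom (CO1 k m hm Δ.unop) (CO1 k m hm Δ'.unop))
  map_id Δ := PGA.Hom.ext (CRmap_id k Δ.unop)
  map_comp θ θ' := PGA.Hom.ext (CRmap_comp k θ'.unop θ.unop)

/-- The vertex `x`. -/
noncomputable def CO0 (hm : 1 ≤ m) : ((CO k m hm).obj (op ⦋0⦌)).R :=
  (MvPolynomial.X none : CR k ⦋0⦌)

/-- (CMA) acyclicity of the comparison object. -/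
def CMA_Stmt : Prop := ∀ (m : ℕ) (hm : 1 ≤ m) (j : ℕ), 1 ≤ j → j ≠ m →
  Acyc ((wh (Pf 1 j)).obj (CO k m hm))

/-- (CMG) degree `m` of the comparison object. -/
def CMG_Stmt : Prop := ∀ (m : ℕ) (hm : 1 ≤ m), GenBy k (CO k m hm) m (CO0 k m hm)

/-- (CMI) indecomposables of the comparison object. -/
def CMI_Stmt : Prop := ∀ (m : ℕ) (hm : 1 ≤ m) (Δ : SimplexCategoryᵒᵖ) (j : ℕ), 1 ≤ j → j ≠ m →
  j ≠ 2 * m → IsZero ((Gf 1 j).obj ((CO k m hm).obj Δ))

/-- (CMU) maps from the comparison object. -/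
def CMU_Stmt : Prop := ∀ (m : ℕ) (hm : 1 ≤ m) (B : SimplicialObject (PGA k)),
  ∀ x ∈ (B.obj (op ⦋0⦌)).dg m, ∀ y ∈ (B.obj (op ⦋1⦌)).dg (2 * m),
    PGA.Hom.toAlg (B.δ 0) y = x ^ 2 → PGA.Hom.toAlg (B.δ 1) y = 0 →
    ∃ f : CO k m hm ⟶ B, PGA.Hom.toAlg (f.app (op ⦋0⦌)) (CO0 k m hm) = x

theorem cmp (k : Type) [Field k] : CMA_Stmt k → CMG_Stmt k → CMI_Stmt k → CMU_Stmt k →
    CMP_Stmt k := by
  intro ha hg hi hu m hm
  exact ⟨CO k m hm, CO0 k m hm, hg m hm, fun n j h1 h2 h3 => hi m hm n j h1 h2 h3,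
    fun j h1 h2 => ha m hm j h1 h2, fun B x hx y hy h1 h2 => hu m hm B x hx y hy h1 h2⟩

end

end Pool.Agent.SHQ
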