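import Mathlib
import Pool.Agent.SH.Q.CmpDefs

/-!
# Block III-Q (MP_2d0b73_an): maps from the comparison object
-/

open CategoryTheory CategoryTheory.Limits AlgebraicTopology Opposite Simplicial

namespace Pool.Agent.SHQ

namespace CMU

section graded
variable {k : Type} [Field k]

theorem one_mem (A : PGA k) : (1 : A.R) ∈ A.dg 0 := by
  obtain ⟨σ, x, w, -, -, h⟩ := A.poly
  rw [h 0]
  exact ⟨1, MvPolynomial.isWeightedHomogeneous_one k w, map_one (MvPolynomial.aeval x)⟩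

theorem mul_mem (A : PGA k) {i j : ℕ} {a b : A.R} (ha : a ∈ A.dg i) (hb : b ∈ A.dg j) :
    a * b ∈ A.dg (i + j) := by
  obtain ⟨σ, x, w, -, -, h⟩ := A.poly
  rw [h i] at ha
  rw [h j] at hb
  rw [h (i + j)]
  obtain ⟨p, hp, rfl⟩ := ha
  obtain ⟨q, hq, rfl⟩ := hb
  exact ⟨p * q, MvPolynomial.IsWeightedHomogeneous.mul hp hq, map_mul (MvPolynomial.aeval x) p q⟩

theorem pow_mem (A : PGA k) {i : ℕ} {a : A.R} (ha : a ∈ A.dg i) (d : ℕ) :
    a ^ d ∈ A.dg (d • i) := by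
  induction d with
  | zero => rw [pow_zero, zero_smul]; exact one_mem A
  | succ d ih => rw [pow_succ, succ_nsmul]; exact mul_mem A ih ha

theorem prod_mem (A : PGA k) {σ : Type} (s : Finset σ) (g : σ → A.R) (n : σ → ℕ)
    (h : ∀ i ∈ s, g i ∈ A.dg (n i)) : ∏ i ∈ s, g i ∈ A.dg (∑ i ∈ s, n i) := by
  classical
  induction s using Finset.induction_on with
  | empty => rw [Finset.prod_empty, Finset.sum_empty]; exact one_mem A
  | insert a s ha ih =>
    rw [Finset.prod_insert ha, Finset.sum_insert ha]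
    exact mul_mem A (h a (Finset.mem_insert_self a s))
      (ih fun i hi => h i (Finset.mem_insert_of_mem hi))

/-- Algebra maps from polynomial algebras are graded if they are so on the generators. -/
theorem aeval_mem (A : PGA k) {σ : Type} (w : σ → ℕ) (g : σ → A.R) (hg : ∀ s, g s ∈ A.dg (w s))
    (j : ℕ) : ∀ a ∈ MvPolynomial.weightedHomogeneousSubmodule k w j,
      MvPolynomial.aeval (R := k) g a ∈ A.dg j := by
  intro a ha
  rw [MvPolynomial.aeval_def, MvPolynomial.eval₂_eq]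
  refine Submodule.sum_mem _ fun d hd => ?_
  have hw : Finsupp.weight w d = j := ha (MvPolynomial.mem_support_iff.1 hd)
  have h2 : (∏ i ∈ d.support, g i ^ d i) ∈ A.dg (∑ i ∈ d.support, d i • w i) :=
    prod_mem A _ _ _ fun i _ => pow_mem A (hg i) _
  have h3 : ∑ i ∈ d.support, d i • w i = j := by
    rw [← hw, Finsupp.weight_apply]; rfl
  rw [h3] at h2
  have h4 := (A.dg j).smul_mem (MvPolynomial.coeff d a) h2
  rw [Algebra.smul_def] at h4
  exact h4

end graded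

/-- The map to the point. -/
def pt (Δ : SimplexCategory) : Δ ⟶ ⦋0⦌ := SimplexCategory.isTerminalZero.from Δ

theorem pt_comp {Δ Δ' : SimplexCategory} (θ : Δ ⟶ Δ') : θ ≫ pt Δ' = pt Δ :=
  SimplexCategory.isTerminalZero.hom_ext _ _

theorem eq_of_cst {c : Fin 2} {Δ : SimplexCategory} {φ ψ : Δ ⟶ ⦋1⦌} (h : CstE c φ)
    (h' : CstE c ψ) : φ = ψ := by
  apply SimplexCategory.Hom.ext
  apply OrderHom.ext
  funext i
  exact (h i).trans (h' i).symm

theorem cst_zero {Δ : SimplexCategory} {φ : Δ ⟶ ⦋1⦌} (h : CstE 0 φ) :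
    φ = pt Δ ≫ SimplexCategory.δ 1 := by
  refine eq_of_cst h (CstE.comp ?_ _)
  intro i
  fin_cases i
  rfl

theorem cst_one {Δ : SimplexCategory} {φ : Δ ⟶ ⦋1⦌} (h : CstE 1 φ) :
    φ = pt Δ ≫ SimplexCategory.δ 0 := by
  refine eq_of_cst h (CstE.comp ?_ _)
  intro i
  fin_cases i
  rfl

section
variable {k : Type} [Field k] (B : SimplicialObject (PGA k))

/-- The action of an operator. -/
noncomputable def act {Δ Δ' : SimplexCategory} (θ : Δ ⟶ Δ') :
    (B.obj (op Δ')).R →ₐ[k] (B.obj (op Δ)).R := PGA.Hom.toAlg (B.map θ.op)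

theorem act_comp {Δ Δ' Δ'' : SimplexCategory} (θ : Δ ⟶ Δ') (θ' : Δ' ⟶ Δ'')
    (z : (B.obj (op Δ'')).R) : act B (θ ≫ θ') z = act B θ (act B θ' z) := by
  have h : B.map (θ ≫ θ').op = B.map θ'.op ≫ B.map θ.op := by
    rw [op_comp, B.map_comp]
  rw [act, h]
  rfl

theorem act_id (Δ : SimplexCategory) (z : (B.obj (op Δ)).R) : act B (𝟙 Δ) z = z := by
  have h : B.map (𝟙 Δ).op = 𝟙 _ := by
    rw [op_id, B.map_id]
  rw [act, h]
  rfl

theorem act_mem {Δ Δ' : SimplexCategory} (θ : Δ ⟶ Δ') (j : ℕ) (z : (B.obj (op Δ')).R)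
    (hz : z ∈ (B.obj (op Δ')).dg j) : act B θ z ∈ (B.obj (op Δ)).dg j :=
  PGA.Hom.map_dg (B.map θ.op) j z hz

variable (x : (B.obj (op ⦋0⦌)).R) (y : (B.obj (op ⦋1⦌)).R)

/-- Images of the generators. -/
noncomputable def gen (Δ : SimplexCategory) (t : Option (NC Δ)) : (B.obj (op Δ)).R :=
  t.elim (act B (pt Δ) x) fun φ => act B φ.1 y

/-- The algebra map in level `Δ`. -/
noncomputable def fm (Δ : SimplexCategory) : CR k Δ →ₐ[k] (B.obj (op Δ)).R :=
  MvPolynomial.aeval (gen B x y Δ)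

theorem fm_none (Δ : SimplexCategory) :
    fm B x y Δ (MvPolynomial.X none) = act B (pt Δ) x := by
  rw [fm, MvPolynomial.aeval_X]
  rfl

variable (h0 : act B (SimplexCategory.δ 0) y = x ^ 2)
  (h1 : act B (SimplexCategory.δ 1) y = 0)

include h0 h1 in
theorem fm_uu {Δ : SimplexCategory} (φ : Δ ⟶ ⦋1⦌) : fm B x y Δ (uu k φ) = act B φ y := by
  by_cases c0 : CstE 0 φ
  · rw [uu_zero k c0, map_zero, cst_zero c0, act_comp, h1, map_zero]
  by_cases c1 : CstE 1 φ
  · rw [uu_one k c1, map_pow, fm_none, cst_one c1, act_comp, h0, map_pow]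
  · rw [uu_some k ⟨φ, c0, c1⟩, fm, MvPolynomial.aeval_X]
    rfl

include h0 h1 in
theorem fm_nat {Δ Δ' : SimplexCategory} (θ : Δ ⟶ Δ') :
    (fm B x y Δ).comp (CRmap k θ) = (act B θ).comp (fm B x y Δ') := by
  refine MvPolynomial.algHom_ext fun t => ?_
  cases t with
  | none =>
    rw [AlgHom.comp_apply, AlgHom.comp_apply, CRmap_none, fm_none, fm_none, ← act_comp, pt_comp]
  | some φ =>
    rw [AlgHom.comp_apply, AlgHom.comp_apply, ← uu_some k φ, CRmap_uu, fm_uu B x y h0 h1,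
      fm_uu B x y h0 h1, act_comp]

theorem fm_mem (m : ℕ) (hx : x ∈ (B.obj (op ⦋0⦌)).dg m) (hy : y ∈ (B.obj (op ⦋1⦌)).dg (2 * m))
    (Δ : SimplexCategory) (j : ℕ) :
    ∀ a ∈ MvPolynomial.weightedHomogeneousSubmodule k (wt m Δ) j,
      fm B x y Δ a ∈ (B.obj (op Δ)).dg j := by
  refine aeval_mem (B.obj (op Δ)) (wt m Δ) (gen B x y Δ) (fun t => ?_) j
  cases t with
  | none => exact act_mem B _ _ _ hx
  | some φ => exact act_mem B _ _ _ hy

end

end CMU

theorem cmu (k : Type) [Field k] : CMU_Stmt k := by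
  intro m hm B x hx y hy h0 h1
  refine ⟨{ app := fun Δ => (⟨CMU.fm B x y Δ.unop, CMU.fm_mem B x y m hx hy Δ.unop⟩ :
              PGA.Hom (CO1 k m hm Δ.unop) (B.obj Δ))
            naturality := fun Δ Δ' θ => ?_ }, ?_⟩
  · exact PGA.Hom.ext (CMU.fm_nat B x y h0 h1 θ.unop)
  · have h2 := CMU.fm_none B x y ⦋0⦌
    have h3 : CMU.pt ⦋0⦌ = 𝟙 ⦋0⦌ := SimplexCategory.isTerminalZero.hom_ext _ _
    rw [h3, CMU.act_id] at h2
    exact h2

end Pool.Agent.SHQ
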