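import Pool.Agent.SH.Q.Stmts

/-!
# Block III-Q (MP_2d0b73_an), module CTR: acyclic simplicial vector spaces are contractible
-/

open CategoryTheory CategoryTheory.Limits AlgebraicTopology Opposite Simplicial

namespace Pool.Agent.SHQ

namespace CTR

variable {k : Type} [Field k]

/-- Exactness in degree zero. -/
theorem bdry (X : SimplicialObject (ModuleCat.{0} k)) (hX : Acyc X) (x : X.obj (op ⦋0⦌)) :
    ∃ e : X.obj (op ⦋1⦌), x = (X.δ 0).hom e - (X.δ 1).hom e := by
  have h0 := hX 0
  rw [HomologicalComplex.exactAt_iff' _ 1 0 0 (by simp) (by simp)] at h0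
  rw [ShortComplex.moduleCat_exact_iff] at h0
  have hz : ((alternatingFaceMapComplex (ModuleCat.{0} k)).obj X).d 0 0 = 0 :=
    ((alternatingFaceMapComplex (ModuleCat.{0} k)).obj X).shape 0 0 (by simp)
  obtain ⟨e, he⟩ := h0 x (by
    change (((alternatingFaceMapComplex (ModuleCat.{0} k)).obj X).d 0 0).hom x = 0
    rw [hz]
    rfl)
  refine ⟨e, ?_⟩
  have h1 : ((alternatingFaceMapComplex (ModuleCat.{0} k)).obj X).d 1 0 =
      ∑ i : Fin 2, (-1 : ℤ) ^ (i : ℕ) • X.δ i := AlternatingFaceMapComplex.obj_d_eq X 0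
  change (((alternatingFaceMapComplex (ModuleCat.{0} k)).obj X).d 1 0).hom e = x at he
  rw [h1, Fin.sum_univ_two] at he
  rw [← he]
  simp [sub_eq_add_neg]

end CTR

/-- (CTR) acyclic simplicial vector spaces are contractible. -/
theorem ctr (k : Type) [Field k] : CTRA_Stmt → DKP_Stmt k → DEC_Stmt k → CTR_Stmt k := by
  intro h1 h2 h3 X hX
  obtain ⟨P, p, hP, hp⟩ := h3 X
  have hproj : Projective X := (h2 X hX).1
  have hepi : Epi p := by
    have : ∀ c, Epi (p.app c) := by
      intro c
      rw [ModuleCat.epi_iff_surjective]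
      intro y
      exact hp c.unop.len y (CTR.bdry X hX _)
    exact NatTrans.epi_of_epi_app p
  exact (h1 _ P X).1 p (Projective.factorThru (𝟙 X) p) (Projective.factorThru_comp _ _) hP

end Pool.Agent.SHQ
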