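import Pool.Agent.SH.Q.Stmts

/-!
# Block III-Q (MP_2d0b73_an), module DEC: the path object
-/

open CategoryTheory CategoryTheory.Limits AlgebraicTopology Opposite Simplicial

namespace Pool.Agent.SHQ

namespace DEC

/-- `0 ↦ 0`, `succ i ↦ succ (f i)`. -/
def shF {m n : ℕ} (f : Fin (m + 1) →o Fin (n + 1)) : Fin (m + 1 + 1) →o Fin (n + 1 + 1) where
  toFun i := Fin.cases 0 (fun j => (f j).succ) i
  monotone' := by
    intro i j hij
    cases i using Fin.cases with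
    | zero => exact Fin.zero_le _
    | succ i =>
      cases j using Fin.cases with
      | zero => exact absurd hij (by simp)
      | succ j =>
        show (f i).succ ≤ (f j).succ
        rw [Fin.succ_le_succ_iff]
        exact f.monotone (Fin.succ_le_succ_iff.1 hij)

@[simp] lemma shF_zero {m n : ℕ} (f : Fin (m + 1) →o Fin (n + 1)) : shF f 0 = 0 := rfl

@[simp] lemma shF_succ {m n : ℕ} (f : Fin (m + 1) →o Fin (n + 1)) (i : Fin (m + 1)) :
    shF f i.succ = (f i).succ := rfl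

/-- The shift. -/
def sh {a b : SimplexCategory} (f : a ⟶ b) : ⦋a.len + 1⦌ ⟶ ⦋b.len + 1⦌ :=
  SimplexCategory.Hom.mk (shF f.toOrderHom)

lemma sh_id (a : SimplexCategory) : sh (𝟙 a) = 𝟙 _ := by
  ext i : 3
  cases i using Fin.cases with
  | zero => rfl
  | succ i => rfl

lemma sh_comp {a b e : SimplexCategory} (f : a ⟶ b) (g : b ⟶ e) : sh (f ≫ g) = sh f ≫ sh g := by
  ext i : 3
  cases i using Fin.cases with
  | zero => rfl
  | succ i => rfl

/-- The vertex `0` of `⦋n + 1⦌`. -/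
def c (a : SimplexCategory) : ⦋0⦌ ⟶ ⦋a.len + 1⦌ := SimplexCategory.const ⦋0⦌ ⦋a.len + 1⦌ 0

lemma c_sh {a b : SimplexCategory} (f : a ⟶ b) : c a ≫ sh f = c b := by
  ext i : 3
  rfl

/-- The face which omits the vertex `0`. -/
def d (a : SimplexCategory) : a ⟶ ⦋a.len + 1⦌ := SimplexCategory.δ (n := a.len) 0

lemma d_sh {a b : SimplexCategory} (f : a ⟶ b) : d a ≫ sh f = f ≫ d b := by
  ext i : 3
  rfl

lemma sh_δ {n : ℕ} (i : Fin (n + 2)) :
    sh (SimplexCategory.δ i) = SimplexCategory.δ i.succ := by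
  ext j : 3
  cases j using Fin.cases with
  | zero =>
    show (0 : Fin (n + 1 + 1 + 1)) = i.succ.succAbove 0
    simp
  | succ j =>
    show (i.succAbove j).succ = i.succ.succAbove j.succ
    simp

lemma sh_σ {n : ℕ} (i : Fin (n + 1)) :
    sh (SimplexCategory.σ i) = SimplexCategory.σ i.succ := by
  ext j : 3
  cases j using Fin.cases with
  | zero =>
    show (0 : Fin (n + 1 + 1)) = i.succ.predAbove 0
    simp
  | succ j =>
    show (i.predAbove j).succ = i.succ.predAbove j.succ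
    simp

variable {k : Type} [Field k] (Y : SimplicialObject (ModuleCat.{0} k))

lemma map_map {a b e : SimplexCategory} (f : a ⟶ b) (g : b ⟶ e) (y : Y.obj (op e)) :
    (Y.map f.op).hom ((Y.map g.op).hom y) = (Y.map (f ≫ g).op).hom y := by
  rw [op_comp, Y.map_comp]
  rfl

/-- Vertex `0`. -/
noncomputable def v (a : SimplexCategory) : Y.obj (op ⦋a.len + 1⦌) →ₗ[k] Y.obj (op ⦋0⦌) :=
  (Y.map (c a).op).hom

lemma v_map {a b : SimplexCategory} (f : a ⟶ b) :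
    ∀ y ∈ LinearMap.ker (v Y b), (Y.map (sh f).op).hom y ∈ LinearMap.ker (v Y a) := by
  intro y hy
  rw [LinearMap.mem_ker] at hy ⊢
  show (Y.map (c a).op).hom _ = 0
  rw [map_map, c_sh]
  exact hy

/-- The path object. -/
noncomputable def P : SimplicialObject (ModuleCat.{0} k) where
  obj A := ModuleCat.of k (LinearMap.ker (v Y A.unop))
  map {A B} g := ModuleCat.ofHom ((Y.map (sh g.unop).op).hom.restrict (v_map Y g.unop))
  map_id A := by
    ext x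
    show (Y.map (sh (𝟙 A.unop)).op).hom x.1 = x.1
    rw [sh_id]
    show (Y.map (𝟙 _)).hom x.1 = x.1
    rw [Y.map_id]
    rfl
  map_comp {A B C} f g := by
    ext x
    show (Y.map (sh (g.unop ≫ f.unop)).op).hom x.1 =
      (Y.map (sh g.unop).op).hom ((Y.map (sh f.unop).op).hom x.1)
    rw [map_map, sh_comp]

/-- The projection. -/
noncomputable def p : P Y ⟶ Y where
  app A := ModuleCat.ofHom ((Y.map (d A.unop).op).hom ∘ₗ Submodule.subtype _)
  naturality A B g := by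
    ext x
    show (Y.map (d B.unop).op).hom ((Y.map (sh g.unop).op).hom x.1) =
      (Y.map g).hom ((Y.map (d A.unop).op).hom x.1)
    have h : (Y.map g).hom ((Y.map (d A.unop).op).hom x.1) =
      (Y.map g.unop.op).hom ((Y.map (d A.unop).op).hom x.1) := rfl
    rw [h, map_map, map_map, d_sh]

lemma v_σ (n : ℕ) : ∀ y ∈ LinearMap.ker (v Y ⦋n⦌),
    (Y.σ (n := n + 1) 0).hom y ∈ LinearMap.ker (v Y ⦋n + 1⦌) := by
  intro y hy
  rw [LinearMap.mem_ker] at hy ⊢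
  show (Y.map (c ⦋n + 1⦌).op).hom ((Y.map (SimplexCategory.σ (n := n + 1) 0).op).hom y) = 0
  rw [map_map]
  have h : c ⦋n + 1⦌ ≫ SimplexCategory.σ (n := n + 1) 0 = c ⦋n⦌ := by
    ext i : 3
    rfl
  rw [h]
  exact hy

/-- The augmented object `P ⟶ 0`. -/
noncomputable def augP : SimplicialObject.Augmented (ModuleCat.{0} k) where
  left := P Y
  right := ModuleCat.of k PUnit
  hom := 0

/-- The extra degeneracy. -/
noncomputable def sP (n : ℕ) : (P Y).obj (op ⦋n⦌) ⟶ (P Y).obj (op ⦋n + 1⦌) :=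
  ModuleCat.ofHom ((Y.σ (n := n + 1) 0).hom.restrict (v_σ Y n))

lemma e1 (y : Y.obj (op ⦋1⦌)) (hy : (Y.map (c ⦋0⦌).op).hom y = 0) :
    (Y.map (sh (SimplexCategory.δ (n := 0) 1)).op).hom
      ((Y.map (SimplexCategory.σ (n := 1) 0).op).hom y) = 0 := by
  rw [map_map Y (sh (SimplexCategory.δ (n := 0) 1)) (SimplexCategory.σ (n := 1) 0)]
  have h : sh (SimplexCategory.δ (n := 0) 1) ≫ SimplexCategory.σ (n := 1) 0 =
      SimplexCategory.const ⦋1⦌ ⦋0⦌ 0 ≫ c ⦋0⦌ := by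
    ext i : 3
    fin_cases i <;> rfl
  rw [h, ← map_map Y (SimplexCategory.const ⦋1⦌ ⦋0⦌ 0) (c ⦋0⦌), hy, map_zero]

lemma e2 (n : ℕ) (y : Y.obj (op ⦋n + 1⦌)) :
    (Y.map (sh (SimplexCategory.δ (n := n) 0)).op).hom
      ((Y.map (SimplexCategory.σ (n := n + 1) 0).op).hom y) = y := by
  rw [map_map Y (sh (SimplexCategory.δ (n := n) 0)) (SimplexCategory.σ (n := n + 1) 0), sh_δ]
  have h : SimplexCategory.δ (n := n + 1) (Fin.succ 0) ≫ SimplexCategory.σ (n := n + 1) 0 =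
      𝟙 _ := SimplexCategory.δ_comp_σ_succ
  rw [h]
  show (Y.map (𝟙 _)).hom y = y
  rw [Y.map_id]
  rfl

lemma e3 (n : ℕ) (i : Fin (n + 2)) (y : Y.obj (op ⦋n + 1 + 1⦌)) :
    (Y.map (sh (SimplexCategory.δ (n := n + 1) i.succ)).op).hom
      ((Y.map (SimplexCategory.σ (n := n + 1 + 1) 0).op).hom y) =
      (Y.map (SimplexCategory.σ (n := n + 1) 0).op).hom
        ((Y.map (sh (SimplexCategory.δ (n := n) i)).op).hom y) := by
  rw [map_map Y (sh (SimplexCategory.δ (n := n + 1) i.succ))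
      (SimplexCategory.σ (n := n + 1 + 1) 0),
    map_map Y (SimplexCategory.σ (n := n + 1) 0) (sh (SimplexCategory.δ (n := n) i)),
    sh_δ, sh_δ]
  have h : SimplexCategory.δ (n := n + 1 + 1) i.succ.succ ≫
      SimplexCategory.σ (n := n + 1 + 1) (Fin.castSucc 0) =
      SimplexCategory.σ (n := n + 1) 0 ≫ SimplexCategory.δ (n := n + 1) i.succ :=
    SimplexCategory.δ_comp_σ_of_gt (by simp)
  have h' : (0 : Fin (n + 1 + 1 + 1)) = Fin.castSucc 0 := rfl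
  rw [h', h]

lemma e4 (n : ℕ) (i : Fin (n + 1)) (y : Y.obj (op ⦋n + 1⦌)) :
    (Y.map (sh (SimplexCategory.σ (n := n + 1) i.succ)).op).hom
      ((Y.map (SimplexCategory.σ (n := n + 1) 0).op).hom y) =
      (Y.map (SimplexCategory.σ (n := n + 1 + 1) 0).op).hom
        ((Y.map (sh (SimplexCategory.σ (n := n) i)).op).hom y) := by
  rw [map_map Y (sh (SimplexCategory.σ (n := n + 1) i.succ))
      (SimplexCategory.σ (n := n + 1) 0),
    map_map Y (SimplexCategory.σ (n := n + 1 + 1) 0) (sh (SimplexCategory.σ (n := n) i)),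
    sh_σ, sh_σ]
  have h : SimplexCategory.σ (n := n + 1 + 1) (Fin.castSucc 0) ≫
      SimplexCategory.σ (n := n + 1) i.succ =
      SimplexCategory.σ (n := n + 1 + 1) i.succ.succ ≫ SimplexCategory.σ (n := n + 1) 0 :=
    SimplexCategory.σ_comp_σ (by simp)
  have h' : (0 : Fin (n + 1 + 1 + 1)) = Fin.castSucc 0 := rfl
  rw [h', h]

lemma f1 : sP Y 0 ≫ (P Y).δ 1 = 0 := by
  ext x
  apply Subtype.ext
  exact e1 Y (Subtype.val (p := fun z => z ∈ LinearMap.ker (v Y ⦋0⦌)) x)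
    (Subtype.property (p := fun z => z ∈ LinearMap.ker (v Y ⦋0⦌)) x)

lemma f2 (n : ℕ) : sP Y n ≫ (P Y).δ 0 = 𝟙 _ := by
  ext x
  apply Subtype.ext
  exact e2 Y n (Subtype.val (p := fun z => z ∈ LinearMap.ker (v Y ⦋n⦌)) x)

lemma f3 (n : ℕ) (i : Fin (n + 2)) : sP Y (n + 1) ≫ (P Y).δ i.succ = (P Y).δ i ≫ sP Y n := by
  ext x
  apply Subtype.ext
  exact e3 Y n i (Subtype.val (p := fun z => z ∈ LinearMap.ker (v Y ⦋n + 1⦌)) x)

lemma f4 (n : ℕ) (i : Fin (n + 1)) : sP Y n ≫ (P Y).σ i.succ = (P Y).σ i ≫ sP Y (n + 1) := by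
  ext x
  apply Subtype.ext
  exact e4 Y n i (Subtype.val (p := fun z => z ∈ LinearMap.ker (v Y ⦋n⦌)) x)

/-- The extra degeneracy of `P ⟶ 0`. -/
noncomputable def ed : (augP Y).ExtraDegeneracy where
  s' := 0
  s n := sP Y n
  s'_comp_ε := by
    ext x
    rfl
  s₀_comp_δ₁ := by
    refine (f1 Y).trans ?_
    exact comp_zero.symm
  s_comp_δ₀ n := f2 Y n
  s_comp_δ n i := f3 Y n i
  s_comp_σ n i := f4 Y n i

theorem ctr_P : Ctr (P Y) := by
  have h := (ed Y).homotopy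
  have h0 : (augP Y).hom ≫ (ed Y).section_ = 0 := by
    show (0 : P Y ⟶ _) ≫ _ = 0
    rw [zero_comp]
  rw [h0] at h
  exact ⟨h⟩

theorem surj (n : ℕ) (y : Y.obj (op ⦋n⦌)) (e : Y.obj (op ⦋1⦌))
    (he : (Y.map (SimplexCategory.const ⦋0⦌ ⦋n⦌ 0).op).hom y =
        (Y.δ 0).hom e - (Y.δ 1).hom e) :
    ∃ a : (P Y).obj (op ⦋n⦌), ((p Y).app (op ⦋n⦌)).hom a = y := by
  set e' : Y.obj (op ⦋1⦌) := (Y.σ 0).hom ((Y.δ 0).hom e) - e with he'
  have h0 : (Y.δ 0).hom e' = 0 := by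
    have h : (Y.δ 0).hom ((Y.σ (n := 0) 0).hom ((Y.δ 0).hom e)) = (Y.δ 0).hom e := by
      have h1 := Y.δ_comp_σ_self (n := 0) (i := 0)
      exact congrArg (fun f => f.hom ((Y.δ 0).hom e)) h1
    rw [he', map_sub, h, sub_self]
  have h1 : (Y.δ 1).hom e' = (Y.δ 0).hom e - (Y.δ 1).hom e := by
    have h : (Y.δ 1).hom ((Y.σ (n := 0) 0).hom ((Y.δ 0).hom e)) = (Y.δ 0).hom e := by
      have h1 := Y.δ_comp_σ_succ (n := 0) (i := 0)
      exact congrArg (fun f => f.hom ((Y.δ 0).hom e)) h1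
    rw [he', map_sub, h]
  set w : Y.obj (op ⦋n + 1⦌) :=
    (Y.map (sh (SimplexCategory.const ⦋n⦌ ⦋0⦌ 0)).op).hom e' with hw
  have w1 : (Y.map (c ⦋n⦌).op).hom w = (Y.δ 1).hom e' := by
    rw [hw, map_map Y (c ⦋n⦌) (sh (SimplexCategory.const ⦋n⦌ ⦋0⦌ 0)), c_sh]
    have h3 : c ⦋0⦌ = SimplexCategory.δ (n := 0) 1 := by
      ext i : 3
      fin_cases i
      rfl
    rw [h3]
    rfl
  have w2 : (Y.map (d ⦋n⦌).op).hom w = 0 := by
    rw [hw, map_map Y (d ⦋n⦌) (sh (SimplexCategory.const ⦋n⦌ ⦋0⦌ 0)), d_sh,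
      ← map_map Y (SimplexCategory.const ⦋n⦌ ⦋0⦌ 0) (d ⦋0⦌)]
    have h5 : (Y.map (d ⦋0⦌).op).hom e' = (Y.δ 0).hom e' := rfl
    rw [h5, h0, map_zero]
  set u : Y.obj (op ⦋n + 1⦌) := (Y.map (SimplexCategory.σ (n := n) 0).op).hom y with hu
  have u1 : (Y.map (c ⦋n⦌).op).hom u =
      (Y.map (SimplexCategory.const ⦋0⦌ ⦋n⦌ 0).op).hom y := by
    rw [hu, map_map Y (c ⦋n⦌) (SimplexCategory.σ (n := n) 0)]
    have h2 : c ⦋n⦌ ≫ SimplexCategory.σ (n := n) 0 = SimplexCategory.const ⦋0⦌ ⦋n⦌ 0 := by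
      ext i : 3
      rfl
    rw [h2]
  have u2 : (Y.map (d ⦋n⦌).op).hom u = y := by
    rw [hu, map_map Y (d ⦋n⦌) (SimplexCategory.σ (n := n) 0)]
    have h6 : d ⦋n⦌ ≫ SimplexCategory.σ (n := n) 0 = 𝟙 _ :=
      SimplexCategory.δ_comp_σ_self (n := n) (i := 0)
    rw [h6]
    show (Y.map (𝟙 _)).hom y = y
    rw [Y.map_id]
    rfl
  have hv : u - w ∈ LinearMap.ker (v Y ⦋n⦌) := by
    rw [LinearMap.mem_ker]
    have h7 : v Y ⦋n⦌ u = v Y ⦋n⦌ w := by
      show (Y.map (c ⦋n⦌).op).hom u = (Y.map (c ⦋n⦌).op).hom w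
      rw [u1, w1, he, h1]
    have h8 : v Y ⦋n⦌ (u - w) = v Y ⦋n⦌ u - v Y ⦋n⦌ w := map_sub (v Y ⦋n⦌) u w
    rw [h8, h7, sub_self]
  refine ⟨⟨u - w, hv⟩, ?_⟩
  have h9 : (Y.map (d ⦋n⦌).op).hom (u - w) =
    (Y.map (d ⦋n⦌).op).hom u - (Y.map (d ⦋n⦌).op).hom w := map_sub (Y.map (d ⦋n⦌).op).hom u w
  show (Y.map (d ⦋n⦌).op).hom (u - w) = y
  rw [h9, u2, w2, sub_zero]

end DEC

/-- (DEC) the path object. -/
theorem dec (k : Type) [Field k] : DEC_Stmt k := fun Y =>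
  ⟨DEC.P Y, DEC.p Y, DEC.ctr_P Y, fun n y ⟨e, he⟩ => DEC.surj Y n y e he⟩

end Pool.Agent.SHQ
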