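import Pool.Agent.SH.Q.Stmts

/-!
# Block III-Q (MP_2d0b73_an): acyclic simplicial vector spaces are projective and injective
-/

open CategoryTheory CategoryTheory.Limits AlgebraicTopology Opposite Simplicial

namespace Pool.Agent.SHQ

namespace DKP

/-- The normalized Moore complex of an acyclic object is acyclic. -/
theorem acyclic_moore {C : Type*} [Category C] [Abelian C] (X : SimplicialObject C)
    (hX : Acyc X) : ((normalizedMooreComplex C).obj X).Acyclic := by
  intro i
  have h1 : ((alternatingFaceMapComplex C).obj X).ExactAt i := hX i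
  rw [HomologicalComplex.exactAt_iff_isZero_homology] at h1 ⊢
  have e := (DoldKan.homotopyEquivNormalizedMooreComplexAlternatingFaceMapComplex
    (A := C) (Y := X)).toHomologyIso i
  exact h1.of_iso e

end DKP

theorem dkp (k : Type) [Field k] : PRJ_Stmt k → DKP_Stmt k := by
  intro h X hX
  obtain ⟨hp, hi⟩ := h _ (DKP.acyclic_moore X hX)
  exact ⟨((Abelian.DoldKan.equivalence (A := ModuleCat.{0} k)).map_projective_iff X).1 hp,
    ((Abelian.DoldKan.equivalence (A := ModuleCat.{0} k)).map_injective_iff X).1 hi⟩

end Pool.Agent.SHQ
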