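import Pool.Agent.SH.Q.Stmts

/-!
# Block III-Q (MP_2d0b73_an): the theorem of Dold (module SHQ_DOL)
-/

open CategoryTheory CategoryTheory.Limits AlgebraicTopology Opposite Simplicial

namespace Pool.Agent.SHQ

namespace DOL

theorem htpy_of_ctr {C : Type 1} [Category.{0} C] [Preadditive C] {K E E' : SimplicialObject C}
    (h : Ctr K) (r : E ⟶ K) (i : K ⟶ E') :
    Nonempty (SimplicialObject.Homotopy (0 : E ⟶ E') (r ≫ i)) := by
  obtain ⟨H⟩ := h
  have h1 := (H.precomp r).postcomp i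
  have e1 : (r ≫ (0 : K ⟶ K)) ≫ i = 0 := by rw [comp_zero, zero_comp]
  have e2 : (r ≫ 𝟙 K) ≫ i = r ≫ i := by rw [Category.comp_id]
  rw [e1, e2] at h1
  exact ⟨h1⟩

theorem htpy_add (hHAD : HAD_Stmt) {C : Type 1} [Category.{0} C] [Preadditive C]
    {K E E' : SimplicialObject C} (h : Ctr K) (a : E ⟶ E') (r : E ⟶ K) (i : K ⟶ E')
    (b : E ⟶ E') (hb : a + r ≫ i = b) : Nonempty (SimplicialObject.Homotopy a b) := by
  have h1 := hHAD C E E' a a 0 (r ≫ i) ⟨SimplicialObject.Homotopy.refl a⟩ (htpy_of_ctr h r i)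
  rw [add_zero, hb] at h1
  exact h1

end DOL

open DOL in
theorem dol (k : Type) [Field k] : HAD_Stmt → SHEC_Stmt → SHEQ_Stmt → CTRA_Stmt → DKP_Stmt k →
    DEC_Stmt k → EPI_Stmt k → KER_Stmt k → CTR_Stmt k → DOL_Stmt k := by
  intro hHAD hSHEC hSHEQ _ hDKP hDEC hEPI hKER hCTR X Y f hf
  obtain ⟨P, p, hP, hp⟩ := hDEC Y
  have hepi : Epi (biprod.desc f p) := hEPI X Y P f p hf hp
  set q : X ⊞ P ⟶ Y := biprod.desc f p with hq
  have hiq : (biprod.inl : X ⟶ X ⊞ P) ≫ q = f := biprod.inl_desc f p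
  have hH1 : Nonempty (SimplicialObject.Homotopy
      ((biprod.fst : X ⊞ P ⟶ X) ≫ (biprod.inl : X ⟶ X ⊞ P)) (𝟙 (X ⊞ P))) :=
    htpy_add hHAD hP _ biprod.snd biprod.inr _ biprod.total
  have hi : SHE (biprod.inl : X ⟶ X ⊞ P) := by
    refine ⟨biprod.fst, ?_, hH1⟩
    rw [biprod.inl_fst]
    exact ⟨SimplicialObject.Homotopy.refl _⟩
  have hQi : QI (biprod.inl : X ⟶ X ⊞ P) := hSHEQ _ _ _ _ hi
  have hQq : QI q := by
    have h1 : QuasiIso ((alternatingFaceMapComplex (ModuleCat.{0} k)).map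
        (biprod.inl : X ⟶ X ⊞ P)) := hQi
    have h2 : QuasiIso ((alternatingFaceMapComplex (ModuleCat.{0} k)).map
        (biprod.inl : X ⟶ X ⊞ P) ≫ (alternatingFaceMapComplex (ModuleCat.{0} k)).map q) := by
      rw [← Functor.map_comp, hiq]
      exact hf
    exact quasiIso_of_comp_left ((alternatingFaceMapComplex (ModuleCat.{0} k)).map
        (biprod.inl : X ⟶ X ⊞ P)) _
  have hK : Acyc (kernel q) := hKER _ _ q hepi hQq
  have hKinj : Injective (kernel q) := (hDKP _ hK).2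
  have hKc : Ctr (kernel q) := hCTR _ hK
  let ρ : X ⊞ P ⟶ kernel q := Injective.factorThru (𝟙 (kernel q)) (kernel.ι q)
  have hρ : kernel.ι q ≫ ρ = 𝟙 (kernel q) := Injective.comp_factorThru _ _
  have h0 : kernel.ι q ≫ (𝟙 (X ⊞ P) - ρ ≫ kernel.ι q) = 0 := by
    rw [Preadditive.comp_sub, Category.comp_id, ← Category.assoc, hρ, Category.id_comp, sub_self]
  let s : Y ⟶ X ⊞ P := Abelian.epiDesc q _ h0
  have hqs : q ≫ s = 𝟙 (X ⊞ P) - ρ ≫ kernel.ι q := Abelian.comp_epiDesc q _ h0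
  have hsq : s ≫ q = 𝟙 Y := by
    rw [← cancel_epi q, ← Category.assoc, hqs, Preadditive.sub_comp, Category.assoc,
      kernel.condition, comp_zero, sub_zero, Category.id_comp, Category.comp_id]
  have hH2 : Nonempty (SimplicialObject.Homotopy (q ≫ s) (𝟙 (X ⊞ P))) := by
    refine htpy_add hHAD hKc _ ρ (kernel.ι q) _ ?_
    rw [hqs, sub_add_cancel]
  have h := hSHEC _ X (X ⊞ P) Y biprod.inl biprod.fst q s biprod.inl_fst hsq hH1 hH2
  rwa [hiq] at h

end Pool.Agent.SHQ
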