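import Pool.Agent.SH.Q.Defs

/-!
# Block III-Q (MP_2d0b73_an): statements
-/

open CategoryTheory CategoryTheory.Limits AlgebraicTopology Opposite Simplicial

namespace Pool.Agent.SHQ

/-! ## Simplicial homotopies -/

/-- (HAD) simplicial homotopies can be added. -/
def HAD_Stmt : Prop :=
  ∀ (C : Type 1) [Category.{0} C] [Preadditive C] (X Y : SimplicialObject C)
    (f g f' g' : X ⟶ Y), Nonempty (SimplicialObject.Homotopy f g) →
    Nonempty (SimplicialObject.Homotopy f' g') →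
    Nonempty (SimplicialObject.Homotopy (f + f') (g + g'))

/-- (SHEC) composition with an isomorphism on both sides, two maps homotopic to identities. -/
def SHEC_Stmt : Prop :=
  ∀ (C : Type 1) [Category.{0} C] (X E Y : SimplicialObject C)
    (i : X ⟶ E) (p : E ⟶ X) (q : E ⟶ Y) (s : Y ⟶ E), i ≫ p = 𝟙 X → s ≫ q = 𝟙 Y →
    Nonempty (SimplicialObject.Homotopy (p ≫ i) (𝟙 E)) →
    Nonempty (SimplicialObject.Homotopy (q ≫ s) (𝟙 E)) → SHE (i ≫ q)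

/-- (SHEW) levelwise application of a functor. -/
def SHEW_Stmt : Prop :=
  ∀ (C D : Type 1) [Category.{0} C] [Category.{0} D] (F : C ⥤ D) (X Y : SimplicialObject C)
    (f : X ⟶ Y), SHE f → SHE ((wh F).map f)

/-- (SHEQ) simplicial homotopy equivalences are quasi-isomorphisms. -/
def SHEQ_Stmt : Prop :=
  ∀ (C : Type 1) [Category.{0} C] [Abelian C] (X Y : SimplicialObject C) (f : X ⟶ Y),
    SHE f → QI f

/-- (CTRA) contractible objects: retracts, acyclicity. -/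
def CTRA_Stmt : Prop :=
  ∀ (C : Type 1) [Category.{0} C] [Abelian C] (X Y : SimplicialObject C),
    (∀ (r : X ⟶ Y) (i : Y ⟶ X), i ≫ r = 𝟙 Y → Ctr X → Ctr Y) ∧ (Ctr X → Acyc X)

/-! ## Dold -/

section
variable (k : Type) [Field k]

/-- (PRJ) acyclic complexes of vector spaces are projective and injective. -/
def PRJ_Stmt : Prop :=
  ∀ K : ChainComplex (ModuleCat.{0} k) ℕ, K.Acyclic → Projective K ∧ Injective K

/-- (DKP) acyclic simplicial vector spaces are projective and injective. -/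
def DKP_Stmt : Prop :=
  ∀ X : SimplicialObject (ModuleCat.{0} k), Acyc X → Projective X ∧ Injective X

/-- (DEC) the path object. -/
def DEC_Stmt : Prop :=
  ∀ Y : SimplicialObject (ModuleCat.{0} k), ∃ (P : SimplicialObject (ModuleCat.{0} k))
    (p : P ⟶ Y), Ctr P ∧ ∀ (n : ℕ) (y : Y.obj (op ⦋n⦌)),
      (∃ e : Y.obj (op ⦋1⦌), (Y.map (SimplexCategory.const ⦋0⦌ ⦋n⦌ 0).op).hom y =
        (Y.δ 0).hom e - (Y.δ 1).hom e) → ∃ a : P.obj (op ⦋n⦌), (p.app (op ⦋n⦌)).hom a = y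

/-- (EPI) for a quasi-isomorphism `f : X ⟶ Y` the map `X ⊞ P ⟶ Y` is an epimorphism. -/
def EPI_Stmt : Prop :=
  ∀ (X Y P : SimplicialObject (ModuleCat.{0} k)) (f : X ⟶ Y) (p : P ⟶ Y), QI f →
    (∀ (n : ℕ) (y : Y.obj (op ⦋n⦌)),
      (∃ e : Y.obj (op ⦋1⦌), (Y.map (SimplexCategory.const ⦋0⦌ ⦋n⦌ 0).op).hom y =
        (Y.δ 0).hom e - (Y.δ 1).hom e) → ∃ a : P.obj (op ⦋n⦌), (p.app (op ⦋n⦌)).hom a = y) →
    Epi (biprod.desc f p)

/-- (KER) the kernel of an epimorphism which is a quasi-isomorphism is acyclic. -/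
def KER_Stmt : Prop :=
  ∀ (E Y : SimplicialObject (ModuleCat.{0} k)) (q : E ⟶ Y), Epi q → QI q → Acyc (kernel q)

/-- (CTR) acyclic simplicial vector spaces are contractible. -/
def CTR_Stmt : Prop :=
  ∀ X : SimplicialObject (ModuleCat.{0} k), Acyc X → Ctr X

/-- (DOL) the theorem of Dold. -/
def DOL_Stmt : Prop :=
  ∀ (X Y : SimplicialObject (ModuleCat.{0} k)) (f : X ⟶ Y), QI f → SHE f

/-- (DPI) the theorem of Dold for families. -/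
def DPI_Stmt : Prop :=
  ∀ (ι : Type) (X Y : SimplicialObject (ι → ModuleCat.{0} k)) (f : X ⟶ Y),
    (∀ i, QI ((wh (Pi.eval (fun _ : ι => ModuleCat.{0} k) i)).map f)) → SHE f

/-! ## Polynomial graded algebras -/

/-- (PSB) the powers of the augmentation ideal. -/
def PSB_Stmt : Prop :=
  ∀ A : PGA k, (∀ p j, 1 ≤ p → Psub A.dg (p + 1) j ≤ Psub A.dg p j) ∧
    (∀ p j, j < p → Psub A.dg p j = ⊥) ∧ (∀ j, 1 ≤ j → Psub A.dg 1 j = A.dg j) ∧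
    A.dg 0 = Submodule.span k {1} ∧ (∀ i j, A.dg i * A.dg j ≤ A.dg (i + j))

/-- (TOT) two out of three. -/
def TOT_Stmt : Prop :=
  ∀ (X Y : SimplicialObject (PGA k)) (f : X ⟶ Y) (p j : ℕ), 1 ≤ p →
    (QI ((wh (Pf (p + 1) j)).map f) → QI ((wh (Gf p j)).map f) → QI ((wh (Pf p j)).map f)) ∧
    (QI ((wh (Pf (p + 1) j)).map f) → QI ((wh (Pf p j)).map f) → QI ((wh (Gf p j)).map f))

/-- (PHI) the associated graded algebra is the symmetric algebra of the indecomposables. -/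
def PHI_Stmt : Prop :=
  ∀ p j : ℕ, 2 ≤ p → Nonempty ((Gf p j : PGA k ⥤ ModuleCat.{0} k) ≅ Qf j ⋙ Phi p j)

/-- (LMQ) Lemma Q. -/
def LMQ_Stmt : Prop :=
  ∀ (X Y : SimplicialObject (PGA k)) (f : X ⟶ Y),
    (∀ j, 1 ≤ j → QI ((wh (Pf 1 j)).map f)) → ∀ j, 1 ≤ j → QI ((wh (Gf 1 j)).map f)

/-- The degree `m` part of `B` has the homology of a point, generated by the class of `x`. -/
def GenBy (B : SimplicialObject (PGA k)) (m : ℕ) (x : (B.obj (op ⦋0⦌)).R) : Prop :=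
  x ∈ (B.obj (op ⦋0⦌)).dg m ∧
  (∀ b ∈ (B.obj (op ⦋0⦌)).dg m, ∃ (c : k), ∃ e ∈ (B.obj (op ⦋1⦌)).dg m,
    b - c • x = PGA.Hom.toAlg (B.δ 0) e - PGA.Hom.toAlg (B.δ 1) e) ∧
  (∀ c : k, (∃ e ∈ (B.obj (op ⦋1⦌)).dg m,
    c • x = PGA.Hom.toAlg (B.δ 0) e - PGA.Hom.toAlg (B.δ 1) e) → c = 0) ∧
  ∀ s, 1 ≤ s → ((alternatingFaceMapComplex _).obj ((wh (Pf 1 m)).obj B)).ExactAt s

/-- (CMP) the comparison object `k[x, y_1, .., y_n]`. -/
def CMP_Stmt : Prop :=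
  ∀ m : ℕ, 1 ≤ m → ∃ (C : SimplicialObject (PGA k)) (x0 : (C.obj (op ⦋0⦌)).R),
    GenBy k C m x0 ∧
    (∀ n j, 1 ≤ j → j ≠ m → j ≠ 2 * m → IsZero ((Gf 1 j).obj (C.obj n))) ∧
    (∀ j, 1 ≤ j → j ≠ m → Acyc ((wh (Pf 1 j)).obj C)) ∧
    ∀ (B : SimplicialObject (PGA k)), ∀ x ∈ (B.obj (op ⦋0⦌)).dg m,
      ∀ y ∈ (B.obj (op ⦋1⦌)).dg (2 * m), PGA.Hom.toAlg (B.δ 0) y = x ^ 2 →
      PGA.Hom.toAlg (B.δ 1) y = 0 → ∃ f : C ⟶ B, PGA.Hom.toAlg (f.app (op ⦋0⦌)) x0 = x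

/-- (GEN) comparison in degree `m`. -/
def GEN_Stmt : Prop :=
  ∀ (C B : SimplicialObject (PGA k)) (f : C ⟶ B) (m : ℕ) (x : (C.obj (op ⦋0⦌)).R), 1 ≤ m →
    GenBy k C m x → GenBy k B m (PGA.Hom.toAlg (f.app (op ⦋0⦌)) x) →
    QI ((wh (Pf 1 m)).map f)

/-- (FIN) boundedness of the derived indecomposables. -/
def FIN_Stmt : Prop :=
  ∀ (B : SimplicialObject (PGA k)) (m : ℕ) (x : (B.obj (op ⦋0⦌)).R), 1 ≤ m → GenBy k B m x →
    (∀ j, 1 ≤ j → j ≠ m → Acyc ((wh (Pf 1 j)).obj B)) →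
    ∀ j, 1 ≤ j → j ≠ m → j ≠ 2 * m → Acyc ((wh (Gf 1 j)).obj B)

end

end Pool.Agent.SHQ
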