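import Mathlib
import Pool.Agent.SH.Q.Stmts

/-!
# Block III-Q (MP_2d0b73_an): the theorem of Dold for families
-/

open CategoryTheory CategoryTheory.Limits AlgebraicTopology Opposite Simplicial

namespace Pool.Agent.SHQ

namespace DPI

variable {k : Type} [Field k] {ι : Type}

/-- Evaluation at `i`. -/
abbrev ev (k : Type) [Field k] {ι : Type} (i : ι) :
    (ι → ModuleCat.{0} k) ⥤ ModuleCat.{0} k := Pi.eval (fun _ : ι => ModuleCat.{0} k) i

/-- A family of morphisms of the components is a morphism. -/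
def mkHom {X Y : SimplicialObject (ι → ModuleCat.{0} k)}
    (g : ∀ i, (wh (ev k i)).obj X ⟶ (wh (ev k i)).obj Y) : X ⟶ Y where
  app n := fun i => (g i).app n
  naturality m n a := by
    funext i
    exact (g i).naturality a

/-- A family of homotopies of the components is a homotopy. -/
def mkHty {X Y : SimplicialObject (ι → ModuleCat.{0} k)} {f g : X ⟶ Y}
    (H : ∀ i, SimplicialObject.Homotopy ((wh (ev k i)).map f) ((wh (ev k i)).map g)) :
    SimplicialObject.Homotopy f g where
  h j := fun i => (H i).h j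
  h_zero_comp_δ_zero n := by
    funext i
    exact (H i).h_zero_comp_δ_zero n
  h_last_comp_δ_last n := by
    funext i
    exact (H i).h_last_comp_δ_last n
  h_succ_comp_δ_castSucc_of_lt a b hab := by
    funext i
    exact (H i).h_succ_comp_δ_castSucc_of_lt a b hab
  h_succ_comp_δ_castSucc_succ j := by
    funext i
    exact (H i).h_succ_comp_δ_castSucc_succ j
  h_castSucc_comp_δ_succ_of_lt a b hab := by
    funext i
    exact (H i).h_castSucc_comp_δ_succ_of_lt a b hab
  h_comp_σ_castSucc_of_le a b hab := by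
    funext i
    exact (H i).h_comp_σ_castSucc_of_le a b hab
  h_comp_σ_succ_of_lt a b hab := by
    funext i
    exact (H i).h_comp_σ_succ_of_lt a b hab

end DPI

theorem dpi (k : Type) [Field k] : DOL_Stmt k → DPI_Stmt k := by
  intro hD ι X Y f hf
  choose g hg1 hg2 using fun i => hD _ _ _ (hf i)
  refine ⟨DPI.mkHom g, ⟨DPI.mkHty fun i => ?_⟩, ⟨DPI.mkHty fun i => ?_⟩⟩
  · have e1 : (wh (DPI.ev k i)).map (f ≫ DPI.mkHom g) = (wh (DPI.ev k i)).map f ≫ g i := rfl
    have e2 : (wh (DPI.ev k i)).map (𝟙 X) = 𝟙 _ := rfl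
    rw [e1, e2]
    exact (hg1 i).some
  · have e1 : (wh (DPI.ev k i)).map (DPI.mkHom g ≫ f) = g i ≫ (wh (DPI.ev k i)).map f := rfl
    have e2 : (wh (DPI.ev k i)).map (𝟙 Y) = 𝟙 _ := rfl
    rw [e1, e2]
    exact (hg2 i).some

end Pool.Agent.SHQ
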