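import Pool.Agent.SH.Q.Stmts

/-! # Block III-Q: the map from the sum with the path object is an epimorphism -/

open CategoryTheory CategoryTheory.Limits AlgebraicTopology Opposite Simplicial

namespace Pool.Agent.SHQ

namespace EPI

variable {k : Type} [Field k]

/-- Surjectivity on `H_0`, elementwise. -/
theorem surj_zero {K L : ChainComplex (ModuleCat.{0} k) ℕ} (φ : K ⟶ L) [QuasiIso φ] (y : L.X 0) :
    ∃ (x : K.X 0) (e : L.X 1), y = (φ.f 0).hom x + (L.d 1 0).hom e := by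
  have h1 : HomologicalComplex.opcyclesMap φ 0 =
      K.isoHomologyι₀.inv ≫ HomologicalComplex.homologyMap φ 0 ≫ L.isoHomologyι₀.hom := by
    rw [← Category.assoc, ChainComplex.isoHomologyι₀_inv_naturality, Category.assoc,
      Iso.inv_hom_id, Category.comp_id]
  have h2 : IsIso (HomologicalComplex.opcyclesMap φ 0) := by
    rw [h1]
    infer_instance
  have h3 : Function.Surjective (HomologicalComplex.opcyclesMap φ 0).hom :=
    (ModuleCat.epi_iff_surjective _).1 inferInstance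
  have h4 : Function.Surjective (K.pOpcycles 0).hom :=
    (ModuleCat.epi_iff_surjective _).1 inferInstance
  obtain ⟨z, hz⟩ := h3 ((L.pOpcycles 0).hom y)
  obtain ⟨x, rfl⟩ := h4 z
  have h5 : (HomologicalComplex.opcyclesMap φ 0).hom ((K.pOpcycles 0).hom x) =
      (L.pOpcycles 0).hom ((φ.f 0).hom x) := by
    have h6 := HomologicalComplex.p_opcyclesMap φ 0
    exact ConcreteCategory.congr_hom h6 x
  have hS : (ShortComplex.mk (L.d 1 0) (L.pOpcycles 0) (L.d_pOpcycles 1 0)).Exact :=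
    ShortComplex.exact_of_g_is_cokernel _ (L.opcyclesIsCokernel 1 0 (by simp))
  rw [ShortComplex.moduleCat_exact_iff] at hS
  obtain ⟨e, he⟩ := hS (y - (φ.f 0).hom x) (by
    show (L.pOpcycles 0).hom (y - (φ.f 0).hom x) = 0
    rw [map_sub, ← h5, hz, sub_self])
  refine ⟨x, e, ?_⟩
  have he' : (L.d 1 0).hom e = y - (φ.f 0).hom x := he
  rw [he', add_sub_cancel]

end EPI

/-- For a quasi-isomorphism `f : X ⟶ Y` the map `X ⊞ P ⟶ Y` is an epimorphism. -/
theorem epi (k : Type) [Field k] : EPI_Stmt k := by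
  intro X Y P f p hf hp
  have h0 : ∀ y : Y.obj (op ⦋0⦌), ∃ (x : X.obj (op ⦋0⦌)) (e : Y.obj (op ⦋1⦌)),
      y = (f.app (op ⦋0⦌)).hom x + ((Y.δ 0).hom e - (Y.δ 1).hom e) := by
    intro y
    have hq : QuasiIso ((alternatingFaceMapComplex (ModuleCat.{0} k)).map f) := hf
    obtain ⟨x, e, h⟩ := EPI.surj_zero ((alternatingFaceMapComplex (ModuleCat.{0} k)).map f) y
    refine ⟨x, e, ?_⟩
    have hd : ((alternatingFaceMapComplex (ModuleCat.{0} k)).obj Y).d 1 0 =
        Y.δ 0 - Y.δ 1 := by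
      rw [alternatingFaceMapComplex_obj_d]
      simp [AlternatingFaceMapComplex.objD, Fin.sum_univ_two, sub_eq_add_neg]
    rw [hd] at h
    exact h
  have happ : ∀ Δ, Epi ((biprod.desc f p).app Δ) := by
    rintro ⟨Δ⟩
    rw [ModuleCat.epi_iff_surjective]
    intro y
    induction Δ using SimplexCategory.rec with
    | _ n =>
    obtain ⟨x, e, h⟩ := h0 ((Y.map (SimplexCategory.const ⦋0⦌ ⦋n⦌ 0).op).hom y)
    have h1 : (Y.map (SimplexCategory.const ⦋0⦌ ⦋n⦌ 0).op).hom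
        (y - (f.app (op ⦋n⦌)).hom ((X.map (SimplexCategory.const ⦋n⦌ ⦋0⦌ 0).op).hom x)) =
        (Y.δ 0).hom e - (Y.δ 1).hom e := by
      have h2 : (Y.map (SimplexCategory.const ⦋0⦌ ⦋n⦌ 0).op).hom
          ((f.app (op ⦋n⦌)).hom ((X.map (SimplexCategory.const ⦋n⦌ ⦋0⦌ 0).op).hom x)) =
          (f.app (op ⦋0⦌)).hom x := by
        have h3 : X.map (SimplexCategory.const ⦋n⦌ ⦋0⦌ 0).op ≫ f.app (op ⦋n⦌) ≫
            Y.map (SimplexCategory.const ⦋0⦌ ⦋n⦌ 0).op = f.app (op ⦋0⦌) := by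
          rw [← f.naturality, ← Category.assoc, ← X.map_comp, ← op_comp]
          have h4 : SimplexCategory.const ⦋0⦌ ⦋n⦌ 0 ≫ SimplexCategory.const ⦋n⦌ ⦋0⦌ 0 =
              𝟙 ⦋0⦌ := Subsingleton.elim _ _
          rw [h4, op_id, X.map_id, Category.id_comp]
        exact ConcreteCategory.congr_hom h3 x
      rw [map_sub, h2, h, add_sub_cancel_left]
    obtain ⟨a, ha⟩ := hp n _ ⟨e, h1⟩
    refine ⟨((biprod.inl : X ⟶ X ⊞ P).app (op ⦋n⦌)).hom
        ((X.map (SimplexCategory.const ⦋n⦌ ⦋0⦌ 0).op).hom x) +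
      ((biprod.inr : P ⟶ X ⊞ P).app (op ⦋n⦌)).hom a, ?_⟩
    rw [map_add]
    have e1 : (biprod.inl : X ⟶ X ⊞ P).app (op ⦋n⦌) ≫ (biprod.desc f p).app (op ⦋n⦌) =
        f.app (op ⦋n⦌) := by
      rw [← NatTrans.comp_app, biprod.inl_desc]
    have e2 : (biprod.inr : P ⟶ X ⊞ P).app (op ⦋n⦌) ≫ (biprod.desc f p).app (op ⦋n⦌) =
        p.app (op ⦋n⦌) := by
      rw [← NatTrans.comp_app, biprod.inr_desc]
    have e1' := ConcreteCategory.congr_hom e1 ((X.map (SimplexCategory.const ⦋n⦌ ⦋0⦌ 0).op).hom x)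
    have e2' := ConcreteCategory.congr_hom e2 a
    refine (congrArg₂ (· + ·) e1' e2').trans ?_
    have ha' : (p.app (op ⦋n⦌)) a = y - (f.app (op ⦋n⦌)).hom
        ((X.map (SimplexCategory.const ⦋n⦌ ⦋0⦌ 0).op).hom x) := ha
    show (f.app (op ⦋n⦌)) _ + (p.app (op ⦋n⦌)) a = y
    rw [ha']
    exact add_sub_cancel _ _
  exact NatTrans.epi_of_epi_app _

end Pool.Agent.SHQ
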