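import Pool.Agent.SH.Q.Stmts

/-!
# Boundedness of the derived indecomposables (module SHQ_FIN)
-/

open CategoryTheory CategoryTheory.Limits AlgebraicTopology Opposite Simplicial

namespace Pool.Agent.SHQ.FIN

variable {k : Type} [Field k]

/-- Exactness in degree `0` of the alternating complex, elementwise. -/
theorem acyc_zero (X : SimplicialObject (ModuleCat.{0} k)) (h : Acyc X)
    (a : X.obj (op ⦋0⦌)) :
    ∃ e : X.obj (op ⦋1⦌), a = (X.δ 0).hom e - (X.δ 1).hom e := by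
  have h0 : (AlternatingFaceMapComplex.obj X).ExactAt 0 := h 0
  rw [HomologicalComplex.exactAt_iff' _ 1 0 0 (by simp) (by simp),
    ShortComplex.moduleCat_exact_iff] at h0
  have hd : (AlternatingFaceMapComplex.obj X).d 0 0 = 0 :=
    HomologicalComplex.shape _ _ _ (by simp)
  obtain ⟨e, he⟩ := h0 a (by
    show ((AlternatingFaceMapComplex.obj X).d 0 0).hom a = 0
    rw [hd]
    rfl)
  refine ⟨e, ?_⟩
  have h1 : (AlternatingFaceMapComplex.obj X).d 1 0 = X.δ 0 - X.δ 1 := by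
    rw [AlternatingFaceMapComplex.obj_d_eq]
    simp [Fin.sum_univ_two, sub_eq_add_neg]
  have he' : ((AlternatingFaceMapComplex.obj X).d 1 0).hom e = a := he
  rw [h1] at he'
  rw [← he']
  rfl

/-- A map between acyclic objects is a quasi-isomorphism. -/
theorem qi_of_acyc {X Y : SimplicialObject (ModuleCat.{0} k)} (f : X ⟶ Y) (hX : Acyc X)
    (hY : Acyc Y) : QI f := by
  refine ⟨fun i => ?_⟩
  rw [quasiIsoAt_iff_exactAt _ _ (hX i)]
  exact hY i

/-- The target of a quasi-isomorphism with acyclic source is acyclic. -/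
theorem acyc_of_qi {X Y : SimplicialObject (ModuleCat.{0} k)} (f : X ⟶ Y) (hX : Acyc X)
    (h : QI f) : Acyc Y := by
  intro i
  have h1 : QuasiIsoAt ((alternatingFaceMapComplex (ModuleCat.{0} k)).map f) i :=
    h.quasiIsoAt i
  rwa [quasiIsoAt_iff_exactAt _ _ (hX i)] at h1

/-- A levelwise zero simplicial object is acyclic. -/
theorem acyc_of_zero {X : SimplicialObject (ModuleCat.{0} k)} (h : ∀ n, IsZero (X.obj n)) :
    Acyc X := by
  intro i
  exact ShortComplex.exact_of_isZero_X₂ _ (h _)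

end Pool.Agent.SHQ.FIN

namespace Pool.Agent.SHQ

theorem fin (k : Type) [Field k] :
    PSB_Stmt k → LMQ_Stmt k → CMP_Stmt k → GEN_Stmt k → FIN_Stmt k := by
  intro hPSB hLMQ hCMP hGEN B m x hm hx hac j hj hjm hj2
  have hx2 : x ^ 2 ∈ (B.obj (op ⦋0⦌)).dg (2 * m) := by
    have h1 := (hPSB (B.obj (op ⦋0⦌))).2.2.2.2 m m
    rw [pow_two, two_mul]
    exact h1 (Submodule.mul_mem_mul hx.1 hx.1)
  have h2m : 1 ≤ 2 * m := by omega
  have hP : ∀ n, Psub (B.obj n).dg 1 (2 * m) = (B.obj n).dg (2 * m) := fun n =>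
    (hPSB (B.obj n)).2.2.1 _ h2m
  have hx2' : x ^ 2 ∈ Psub (B.obj (op ⦋0⦌)).dg 1 (2 * m) := by
    rw [hP]
    exact hx2
  obtain ⟨e, he⟩ := FIN.acyc_zero ((wh (Pf 1 (2 * m))).obj B)
    (hac (2 * m) h2m (by omega)) (⟨x ^ 2, hx2'⟩ : Psub (B.obj (op ⦋0⦌)).dg 1 (2 * m))
  obtain ⟨e0, he0⟩ : ∃ e0 ∈ (B.obj (op ⦋1⦌)).dg (2 * m),
      x ^ 2 = PGA.Hom.toAlg (B.δ 0) e0 - PGA.Hom.toAlg (B.δ 1) e0 := by
    let e' : Psub (B.obj (op ⦋1⦌)).dg 1 (2 * m) := e
    refine ⟨e'.1, ?_, ?_⟩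
    · rw [← hP]
      exact e'.2
    · exact congrArg Subtype.val he
  obtain ⟨he0m, he0e⟩ := he0
  set y := e0 - PGA.Hom.toAlg (B.σ 0) (PGA.Hom.toAlg (B.δ 1) e0) with hy
  have hs0 : ∀ a, PGA.Hom.toAlg (B.δ 0) (PGA.Hom.toAlg (B.σ (0 : Fin 1)) a) = a := by
    intro a
    have h1 := B.δ_comp_σ_self (i := (0 : Fin 1))
    have h2 := congrArg (fun g => PGA.Hom.toAlg g a) h1
    exact h2
  have hs1 : ∀ a, PGA.Hom.toAlg (B.δ 1) (PGA.Hom.toAlg (B.σ (0 : Fin 1)) a) = a := by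
    intro a
    have h1 := B.δ_comp_σ_succ (i := (0 : Fin 1))
    have h2 := congrArg (fun g => PGA.Hom.toAlg g a) h1
    exact h2
  have hy0 : PGA.Hom.toAlg (B.δ 0) y = x ^ 2 := by
    rw [hy, map_sub, hs0, ← he0e]
  have hy1 : PGA.Hom.toAlg (B.δ 1) y = 0 := by
    rw [hy, map_sub, hs1, sub_self]
  have hym : y ∈ (B.obj (op ⦋1⦌)).dg (2 * m) := by
    refine Submodule.sub_mem _ he0m ?_
    exact (B.σ 0).map_dg _ _ ((B.δ 1).map_dg _ _ he0m)
  obtain ⟨C, x0, hC1, hC2, hC3, hC4⟩ := hCMP m hm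
  obtain ⟨f, hf⟩ := hC4 B x hx.1 y hym hy0 hy1
  have hQ : ∀ i, 1 ≤ i → QI ((wh (Pf 1 i)).map f) := by
    intro i hi
    by_cases him : i = m
    · subst him
      refine hGEN C B f i x0 hi hC1 ?_
      rw [hf]
      exact hx
    · exact FIN.qi_of_acyc _ (hC3 i hi him) (hac i hi him)
  refine FIN.acyc_of_qi _ (FIN.acyc_of_zero fun n => ?_) (hLMQ C B f hQ j hj)
  exact hC2 n j hj hjm hj2

end Pool.Agent.SHQ
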