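import Pool.Agent.SH.Q.Stmts

/-!
# Block III-Q: comparison in degree `m`
-/

open CategoryTheory CategoryTheory.Limits AlgebraicTopology Opposite Simplicial

namespace Pool.Agent.SHQ

namespace GEN

variable {k : Type} [Field k]

/-- The complex. -/
noncomputable abbrev Kc (B : SimplicialObject (PGA k)) (m : ℕ) :
    ChainComplex (ModuleCat.{0} k) ℕ :=
  (alternatingFaceMapComplex _).obj ((wh (Pf 1 m)).obj B)

lemma d10 (B : SimplicialObject (PGA k)) (m : ℕ) (e : Psub (B.obj (op ⦋1⦌)).dg 1 m) :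
    (((Kc B m).d 1 0).hom e : Psub (B.obj (op ⦋0⦌)).dg 1 m).1 =
      PGA.Hom.toAlg (B.δ 0) e.1 - PGA.Hom.toAlg (B.δ 1) e.1 := by
  have h : (Kc B m).d 1 0 = ((wh (Pf 1 m)).obj B).δ 0 - ((wh (Pf 1 m)).obj B).δ 1 := by
    show (AlternatingFaceMapComplex.obj ((wh (Pf 1 m)).obj B)).d (0 + 1) 0 = _
    rw [AlternatingFaceMapComplex.obj_d_eq, Fin.sum_univ_two]
    simp [sub_eq_add_neg]
  rw [h]
  rfl

/-- Elements of degree `m` give classes. -/
lemma exact0 (B : SimplicialObject (PGA k)) (m : ℕ) (b : Psub (B.obj (op ⦋0⦌)).dg 1 m)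
    (hb : ((Kc B m).pOpcycles 0).hom b = 0) : ∃ e : Psub (B.obj (op ⦋1⦌)).dg 1 m,
      ((Kc B m).d 1 0).hom e = b := by
  have h1 := (Kc B m).opcyclesIsCokernel 1 0 (by simp)
  have h2 := ShortComplex.exact_of_g_is_cokernel
    (ShortComplex.mk ((Kc B m).d 1 0) ((Kc B m).pOpcycles 0)
      (HomologicalComplex.d_pOpcycles _ _ _)) h1
  exact (ShortComplex.moduleCat_exact_iff _).1 h2 b hb

lemma p_d (B : SimplicialObject (PGA k)) (m : ℕ) (e : Psub (B.obj (op ⦋1⦌)).dg 1 m) :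
    ((Kc B m).pOpcycles 0).hom (((Kc B m).d 1 0).hom e) = 0 := by
  have h : (Kc B m).d 1 0 ≫ (Kc B m).pOpcycles 0 = 0 := HomologicalComplex.d_pOpcycles _ _ _
  have h2 := congrArg (fun w => w.hom e) h
  exact h2

lemma p_surj (B : SimplicialObject (PGA k)) (m : ℕ) :
    Function.Surjective ((Kc B m).pOpcycles 0).hom := by
  have h : Epi ((Kc B m).pOpcycles 0) := inferInstance
  exact (ModuleCat.epi_iff_surjective _).1 h

/-- The map of complexes. -/
noncomputable abbrev mc {C B : SimplicialObject (PGA k)} (f : C ⟶ B) (m : ℕ) : Kc C m ⟶ Kc B m :=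
  (alternatingFaceMapComplex _).map ((wh (Pf 1 m)).map f)

lemma mc0 {C B : SimplicialObject (PGA k)} (f : C ⟶ B) (m : ℕ)
    (b : Psub (C.obj (op ⦋0⦌)).dg 1 m) :
    (((mc f m).f 0).hom b : Psub (B.obj (op ⦋0⦌)).dg 1 m).1 =
      PGA.Hom.toAlg (f.app (op ⦋0⦌)) b.1 := by
  rw [alternatingFaceMapComplex_map_f]
  rfl

lemma nat {C B : SimplicialObject (PGA k)} (f : C ⟶ B) (m : ℕ)
    (b : Psub (C.obj (op ⦋0⦌)).dg 1 m) :
    (HomologicalComplex.opcyclesMap (mc f m) 0).hom (((Kc C m).pOpcycles 0).hom b) =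
      ((Kc B m).pOpcycles 0).hom (((mc f m).f 0).hom b) := by
  have h := HomologicalComplex.p_opcyclesMap (mc f m) 0
  have h2 := congrArg (fun w => w.hom b) h
  exact h2

/-- Every class is a multiple of the class of the generator. -/
lemma cls (hP : PSB_Stmt k) (B : SimplicialObject (PGA k)) (m : ℕ) (hm : 1 ≤ m)
    (x : Psub (B.obj (op ⦋0⦌)).dg 1 m) (hx : GenBy k B m x.1) (ξ : (Kc B m).opcycles 0) :
    ∃ c : k, ξ = c • ((Kc B m).pOpcycles 0).hom x := by
  obtain ⟨b, rfl⟩ := p_surj B m ξ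
  have e0 := (hP (B.obj (op ⦋0⦌))).2.2.1 m hm
  have e1 := (hP (B.obj (op ⦋1⦌))).2.2.1 m hm
  obtain ⟨c, e, he, hb⟩ := hx.2.1 b.1 (by rw [← e0]; exact b.2)
  refine ⟨c, ?_⟩
  have he' : e ∈ Psub (B.obj (op ⦋1⦌)).dg 1 m := by rw [e1]; exact he
  let d : Psub (B.obj (op ⦋0⦌)).dg 1 m :=
    ((Kc B m).d 1 0).hom (⟨e, he'⟩ : Psub (B.obj (op ⦋1⦌)).dg 1 m)
  have h2 : d.1 = PGA.Hom.toAlg (B.δ 0) e - PGA.Hom.toAlg (B.δ 1) e := d10 B m ⟨e, he'⟩
  have h1 : b = c • x + d := by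
    apply Subtype.ext
    show b.1 = c • x.1 + d.1
    rw [h2, ← hb]
    abel
  rw [h1]
  have h3 : ((Kc B m).pOpcycles 0).hom d = 0 :=
    p_d B m (⟨e, he'⟩ : Psub (B.obj (op ⦋1⦌)).dg 1 m)
  have h4 : ((Kc B m).pOpcycles 0).hom (c • x + d) = c • ((Kc B m).pOpcycles 0).hom x +
      ((Kc B m).pOpcycles 0).hom d := by
    refine (map_add _ _ _).trans ?_
    exact congrArg (fun w => w + ((Kc B m).pOpcycles 0).hom d) (map_smul _ _ _)
  exact h4.trans (by rw [h3, add_zero])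

/-- The class of the generator is not zero. -/
lemma gen_ne (hP : PSB_Stmt k) (B : SimplicialObject (PGA k)) (m : ℕ) (hm : 1 ≤ m)
    (x : Psub (B.obj (op ⦋0⦌)).dg 1 m) (hx : GenBy k B m x.1) (c : k)
    (hc : c • ((Kc B m).pOpcycles 0).hom x = 0) : c = 0 := by
  have e1 := (hP (B.obj (op ⦋1⦌))).2.2.1 m hm
  have h1 : ((Kc B m).pOpcycles 0).hom (c • x) = 0 := by
    have h2 : ((Kc B m).pOpcycles 0).hom (c • x) = c • ((Kc B m).pOpcycles 0).hom x :=
      map_smul _ _ _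
    rw [h2, hc]
  obtain ⟨e, he⟩ := exact0 B m (c • x) h1
  refine hx.2.2.1 c ⟨e.1, by rw [← e1]; exact e.2, ?_⟩
  rw [← d10 B m e, he]
  rfl

end GEN

theorem gen (k : Type) [Field k] : PSB_Stmt k → GEN_Stmt k := by
  intro hP C B f m x hm hC hB
  have e0 := (hP (C.obj (op ⦋0⦌))).2.2.1 m hm
  have hxm : x ∈ Psub (C.obj (op ⦋0⦌)).dg 1 m := by rw [e0]; exact hC.1
  let x' : Psub (C.obj (op ⦋0⦌)).dg 1 m := ⟨x, hxm⟩
  let y' : Psub (B.obj (op ⦋0⦌)).dg 1 m := ((GEN.mc f m).f 0).hom x'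
  have hy' : y'.1 = PGA.Hom.toAlg (f.app (op ⦋0⦌)) x := GEN.mc0 f m x'
  have hB' : GenBy k B m y'.1 := by rw [hy']; exact hB
  show QuasiIso (GEN.mc f m)
  rw [quasiIso_iff]
  intro s
  rcases Nat.eq_zero_or_pos s with rfl | hs
  · rw [quasiIsoAt_iff_isIso_homologyMap]
    have hiso : IsIso (HomologicalComplex.opcyclesMap (GEN.mc f m) 0) := by
      rw [ConcreteCategory.isIso_iff_bijective]
      constructor
      · show Function.Injective (HomologicalComplex.opcyclesMap (GEN.mc f m) 0).hom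
        rw [injective_iff_map_eq_zero]
        intro ξ hξ
        obtain ⟨c, rfl⟩ := GEN.cls hP C m hm x' hC ξ
        have h1 : (HomologicalComplex.opcyclesMap (GEN.mc f m) 0).hom
            (c • ((GEN.Kc C m).pOpcycles 0).hom x') =
            c • (HomologicalComplex.opcyclesMap (GEN.mc f m) 0).hom
              (((GEN.Kc C m).pOpcycles 0).hom x') := map_smul _ _ _
        rw [h1, GEN.nat] at hξ
        rw [GEN.gen_ne hP B m hm y' hB' c hξ, zero_smul]
      · intro η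
        obtain ⟨c, rfl⟩ := GEN.cls hP B m hm y' hB' η
        refine ⟨c • ((GEN.Kc C m).pOpcycles 0).hom x', ?_⟩
        have h1 : (HomologicalComplex.opcyclesMap (GEN.mc f m) 0).hom
            (c • ((GEN.Kc C m).pOpcycles 0).hom x') =
            c • (HomologicalComplex.opcyclesMap (GEN.mc f m) 0).hom
              (((GEN.Kc C m).pOpcycles 0).hom x') := map_smul _ _ _
        refine h1.trans ?_
        rw [GEN.nat]
    have h2 := ChainComplex.isoHomologyι₀_inv_naturality (GEN.mc f m)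
    have h3 : HomologicalComplex.homologyMap (GEN.mc f m) 0 =
        (GEN.Kc C m).isoHomologyι₀.hom ≫ HomologicalComplex.opcyclesMap (GEN.mc f m) 0 ≫
          (GEN.Kc B m).isoHomologyι₀.inv := by
      rw [← h2, Iso.hom_inv_id_assoc]
    rw [h3]
    infer_instance
  · rw [quasiIsoAt_iff_exactAt _ _ (hC.2.2.2 s hs)]
    exact hB.2.2.2 s hs

end Pool.Agent.SHQ
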