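import Pool.Agent.SH.Q.Stmts

/-!
# Block III-Q (MP_2d0b73_an): the kernel of an epimorphism which is a quasi-isomorphism is acyclic
-/

open CategoryTheory CategoryTheory.Limits AlgebraicTopology Opposite Simplicial

namespace Pool.Agent.SHQ

theorem ker (k : Type) [Field k] : KER_Stmt k := by
  intro E Y q hq hqi
  let S : ShortComplex (SimplicialObject (ModuleCat.{0} k)) :=
    ShortComplex.mk (kernel.ι q) q (kernel.condition q)
  have hS : S.ShortExact :=
    { exact := ShortComplex.exact_of_f_is_kernel S (kernelIsKernel q)
      mono_f := inferInstanceAs (Mono (kernel.ι q))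
      epi_g := hq }
  have hSF : (S.map (alternatingFaceMapComplex (ModuleCat.{0} k))).ShortExact := by
    apply HomologicalComplex.shortExact_of_degreewise_shortExact
    intro i
    exact hS.map_of_exact ((evaluation _ _).obj (op ⦋i⦌))
  have hq' : QuasiIso (S.map (alternatingFaceMapComplex (ModuleCat.{0} k))).g := hqi
  intro i
  exact hSF.exactAt_X₁ i

end Pool.Agent.SHQ
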