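import Pool.Agent.SH.Q.Stmts

/-!
# Block III-Q (MP_2d0b73_an): Lemma Q

If `f` is a quasi-isomorphism in every positive degree, then it is one on the indecomposables.
-/

open CategoryTheory CategoryTheory.Limits AlgebraicTopology Opposite Simplicial

namespace Pool.Agent.SHQ

namespace LMQ

/-- `QI` is invariant under natural isomorphisms of the functor applied levelwise. -/
theorem qi_iso {C D : Type 1} [Category.{0} C] [Category.{0} D] [Abelian D] {F G : C ⥤ D}
    (e : F ≅ G) {X Y : SimplicialObject C} (f : X ⟶ Y) (h : QI ((wh F).map f)) :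
    QI ((wh G).map f) := by
  unfold QI at h ⊢
  have a : Arrow.mk ((wh F).map f) ≅ Arrow.mk ((wh G).map f) :=
    Arrow.isoMk (((SimplicialObject.whiskering C D).mapIso e).app X)
      (((SimplicialObject.whiskering C D).mapIso e).app Y)
      ((((SimplicialObject.whiskering C D).mapIso e).hom.naturality f).symm)
  have b : Arrow.mk ((alternatingFaceMapComplex D).map ((wh F).map f)) ≅
      Arrow.mk ((alternatingFaceMapComplex D).map ((wh G).map f)) :=
    (alternatingFaceMapComplex D).mapArrow.mapIso a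
  exact quasiIso_of_arrow_mk_iso _ _ b

/-- Levelwise application of a composition of functors. -/
theorem qi_comp {C D E : Type 1} [Category.{0} C] [Category.{0} D] [Category.{0} E] [Abelian E]
    (F : C ⥤ D) (G : D ⥤ E) {X Y : SimplicialObject C} (f : X ⟶ Y)
    (h : QI ((wh G).map ((wh F).map f))) : QI ((wh (F ⋙ G)).map f) := h

/-- Levelwise application of a composition of functors, for a simplicial homotopy equivalence. -/
theorem qi_she (hW : SHEW_Stmt) (hQ : SHEQ_Stmt) {C D E : Type 1} [Category.{0} C]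
    [Category.{0} D] [Category.{0} E] [Abelian E] (F : C ⥤ D) (G : D ⥤ E)
    {X Y : SimplicialObject C} (f : X ⟶ Y) (h : SHE ((wh F).map f)) :
    QI ((wh (F ⋙ G)).map f) :=
  qi_comp F G f (hQ E _ _ _ (hW D E G _ _ _ h))

/-- A map between levelwise zero objects is a quasi-isomorphism. -/
theorem qi_zero {D : Type 1} [Category.{0} D] [Abelian D] {X Y : SimplicialObject D} (f : X ⟶ Y)
    (hX : ∀ n, IsZero (X.obj n)) (hY : ∀ n, IsZero (Y.obj n)) : QI f := by
  have h1 : ∀ n, IsIso (f.app n) := fun n =>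
    ⟨(hY n).to_ _, (hX n).eq_of_src _ _, (hY n).eq_of_src _ _⟩
  have h2 : IsIso f := NatIso.isIso_of_isIso_app f
  unfold QI
  infer_instance

section
variable {k : Type} [Field k]

theorem zero_Pf {A : PGA k} {p j : ℕ} (h : Psub A.dg p j = ⊥) : IsZero ((Pf p j).obj A) := by
  have : Subsingleton (Psub A.dg p j) := by
    rw [h]; infer_instance
  exact ModuleCat.isZero_of_subsingleton (ModuleCat.of k (Psub A.dg p j))

theorem zero_Gf {A : PGA k} {p j : ℕ} (h : Psub A.dg p j = ⊥) : IsZero ((Gf p j).obj A) := by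
  have : Subsingleton (Psub A.dg p j) := by
    rw [h]; infer_instance
  have : Subsingleton (Psub A.dg p j ⧸ Gker A p j) :=
    (Submodule.mkQ_surjective (Gker A p j)).subsingleton
  exact ModuleCat.isZero_of_subsingleton (ModuleCat.of k (Psub A.dg p j ⧸ Gker A p j))

end

end LMQ

/-- (LMQ) -/
theorem lmq (k : Type) [Field k] : SHEW_Stmt → SHEQ_Stmt → DPI_Stmt k → PSB_Stmt k → TOT_Stmt k →
    PHI_Stmt k → LMQ_Stmt k := by
  intro hW hQ hD hP hT hPhi X Y f hf j
  induction j using Nat.strong_induction_on with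
  | _ j ih =>
  intro hj
  have h0 : ∀ i : Fin j,
      QI ((wh (Pi.eval (fun _ : Fin j => ModuleCat.{0} k) i)).map ((wh (Qf j)).map f)) := by
    intro i
    by_cases hi : (i : ℕ) = 0
    · have h1 : ∀ A : PGA k, IsZero ((Gf 1 (i : ℕ)).obj A) := fun A => by
        rw [hi]
        exact LMQ.zero_Gf ((hP A).2.1 1 0 (by omega))
      exact LMQ.qi_zero _ (fun n => h1 (X.obj n)) (fun n => h1 (Y.obj n))
    · exact ih i i.2 (by omega)
  have h1 : SHE ((wh (Qf j)).map f) := hD (Fin j) _ _ _ h0
  have h2 : ∀ p, 2 ≤ p → QI ((wh (Gf p j)).map f) := by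
    intro p hp
    obtain ⟨e⟩ := hPhi p j hp
    exact LMQ.qi_iso e.symm f (LMQ.qi_she hW hQ (Qf j) (Phi p j) f h1)
  have h3 : ∀ d p, 2 ≤ p → j < p + d → QI ((wh (Pf p j)).map f) := by
    intro d
    induction d with
    | zero =>
      intro p _ hjp
      exact LMQ.qi_zero _ (fun n => LMQ.zero_Pf ((hP (X.obj n)).2.1 p j (by omega)))
        (fun n => LMQ.zero_Pf ((hP (Y.obj n)).2.1 p j (by omega)))
    | succ d ihd =>
      intro p hp hjp
      exact (hT X Y f p j (by omega)).1 (ihd (p + 1) (by omega) (by omega)) (h2 p hp)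
  exact (hT X Y f 1 j le_rfl).2 (h3 j 2 le_rfl (by omega)) (hf j hj)

end Pool.Agent.SHQ
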