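import Pool.Agent.SH.Q.Stmts

/-!
# SHQ_PRJ: acyclic complexes of vector spaces are projective and injective
-/

open CategoryTheory CategoryTheory.Limits AlgebraicTopology Opposite Simplicial

namespace Pool.Agent.SHQ

namespace PRJ

variable {k : Type} [Field k]

theorem sect_aux {V W : Type} [AddCommGroup V] [Module k V] [AddCommGroup W] [Module k W]
    (f : V →ₗ[k] W) (hf : LinearMap.range f = ⊤) : ∃ g : W →ₗ[k] V, f.comp g = LinearMap.id :=
  haveI : Module.Free k W := Module.Free.of_divisionRing k W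
  haveI : Module.Projective k W := Module.Projective.of_free
  f.exists_rightInverse_of_surjective hf

theorem exists_retr {X Y : ModuleCat.{0} k} (i : X ⟶ Y) [Mono i] :
    ∃ r : Y ⟶ X, i ≫ r = 𝟙 X := by
  have h : Function.Injective i.hom := (ModuleCat.mono_iff_injective i).1 inferInstance
  obtain ⟨r, hr⟩ := i.hom.exists_leftInverse_of_injective (LinearMap.ker_eq_bot.2 h)
  exact ⟨ModuleCat.ofHom r, ModuleCat.hom_ext hr⟩

theorem exists_sect {X Y : ModuleCat.{0} k} (e : X ⟶ Y) [Epi e] :
    ∃ s : Y ⟶ X, s ≫ e = 𝟙 Y := by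
  have h : Function.Surjective e.hom := (ModuleCat.epi_iff_surjective e).1 inferInstance
  obtain ⟨s, hs⟩ := sect_aux e.hom (LinearMap.range_eq_top.2 h)
  exact ⟨ModuleCat.ofHom s, ModuleCat.hom_ext hs⟩

theorem proj (X : ModuleCat.{0} k) : Projective X where
  factors {E Y} f e he := by
    obtain ⟨s, hs⟩ := exists_sect e
    exact ⟨f ≫ s, by rw [Category.assoc, hs, Category.comp_id]⟩

theorem contraction (K : ChainComplex (ModuleCat.{0} k) ℕ) (hK : K.Acyclic) :
    ∃ h : ∀ i j, K.X i ⟶ K.X j, Homotopy.nullHomotopicMap h = 𝟙 K := by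
  let Z : ModuleCat.{0} k := ModuleCat.of k PUnit
  have hZ : IsZero Z := ModuleCat.isZero_of_subsingleton _
  have hS : IsZero ((ChainComplex.single₀ (ModuleCat.{0} k)).obj Z) :=
    Functor.map_isZero _ hZ
  let π : K ⟶ (ChainComplex.single₀ (ModuleCat.{0} k)).obj Z := 0
  have hq : QuasiIso π := by
    rw [quasiIso_iff]
    intro i
    rw [quasiIsoAt_iff_exactAt π i (hK i)]
    rw [HomologicalComplex.exactAt_iff_isZero_homology]
    exact Functor.map_isZero (HomologicalComplex.homologyFunctor _ _ i) hS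
  let P : ProjectiveResolution Z :=
    { complex := K
      projective := fun n => proj _
      π := π
      quasiIso := hq }
  have H : Homotopy (𝟙 K) (0 : K ⟶ K) :=
    ProjectiveResolution.liftHomotopy (P := P) (Q := P) (0 : Z ⟶ Z) (𝟙 K) 0
      (hS.eq_of_tgt _ _) (hS.eq_of_tgt _ _)
  refine ⟨H.hom, ?_⟩
  ext1 i
  have := H.comm i
  simp only [HomologicalComplex.zero_f, add_zero] at this
  exact this.symm

end PRJ

theorem prj (k : Type) [Field k] : PRJ_Stmt k := by
  intro K hK
  obtain ⟨h, hh⟩ := PRJ.contraction K hK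
  constructor
  · refine ⟨?_⟩
    intro X Y f e he
    have h1 : ∀ n, Epi (e.f n) := fun n => inferInstance
    choose s hs using fun n => PRJ.exists_sect (e.f n)
    refine ⟨Homotopy.nullHomotopicMap fun i j => h i j ≫ f.f j ≫ s j, ?_⟩
    rw [Homotopy.nullHomotopicMap_comp]
    simp only [Category.assoc, hs, Category.comp_id]
    rw [← Homotopy.nullHomotopicMap_comp, hh, Category.id_comp]
  · refine ⟨?_⟩
    intro X Y f i hi
    have h1 : ∀ n, Mono (i.f n) := fun n => inferInstance
    choose r hr using fun n => PRJ.exists_retr (i.f n)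
    refine ⟨Homotopy.nullHomotopicMap fun a b => (r a ≫ f.f a) ≫ h a b, ?_⟩
    rw [Homotopy.comp_nullHomotopicMap]
    have h2 : (fun a b => i.f a ≫ (r a ≫ f.f a) ≫ h a b) = fun a b => f.f a ≫ h a b := by
      funext a b
      rw [← Category.assoc, ← Category.assoc, hr, Category.id_comp]
    rw [h2, ← Homotopy.comp_nullHomotopicMap, hh, Category.comp_id]

end Pool.Agent.SHQ
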