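import Pool.Agent.SH.Q.Stmts

/-!
# PSB: powers of the augmentation ideal of a polynomial graded algebra
-/

open CategoryTheory CategoryTheory.Limits AlgebraicTopology Opposite Simplicial

namespace Pool.Agent.SHQ

namespace PSB

variable {k : Type} [Field k] {R : Type} [CommRing R] [Algebra k R] {σ : Type} {x : σ → R}
  {w : σ → ℕ} {dg : ℕ → Submodule k R}

/-- Polynomials with all monomials of degree at least `p`. -/
def D (k : Type) [Field k] (σ : Type) (p : ℕ) : Submodule k (MvPolynomial σ k) where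
  carrier := {f | ∀ d, MvPolynomial.coeff d f ≠ 0 → p ≤ d.degree}
  zero_mem' := fun d hd => absurd (MvPolynomial.coeff_zero d) hd
  add_mem' := by
    intro f g hf hg d hd
    rw [MvPolynomial.coeff_add] at hd
    by_cases h : MvPolynomial.coeff d f = 0
    · rw [h, zero_add] at hd
      exact hg d hd
    · exact hf d h
  smul_mem' := by
    intro c f hf d hd
    rw [MvPolynomial.coeff_smul] at hd
    exact hf d (fun h => hd (by rw [h, smul_zero]))

theorem mem_D {p : ℕ} {f : MvPolynomial σ k} :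
    f ∈ D k σ p ↔ ∀ d, MvPolynomial.coeff d f ≠ 0 → p ≤ d.degree := Iff.rfl

theorem D_mul (p q : ℕ) : D k σ p * D k σ q ≤ D k σ (p + q) := by
  classical
  rw [Submodule.mul_le]
  intro f hf g hg d hd
  rw [MvPolynomial.coeff_mul] at hd
  obtain ⟨⟨a, b⟩, hab, h⟩ := Finset.exists_ne_zero_of_sum_ne_zero hd
  rw [Finset.HasAntidiagonal.mem_antidiagonal] at hab
  subst hab
  rw [map_add]
  exact add_le_add (hf a (left_ne_zero_of_mul h)) (hg b (right_ne_zero_of_mul h))

theorem degree_le_weight (hw : ∀ s, 0 < w s) (d : σ →₀ ℕ) : d.degree ≤ Finsupp.weight w d := by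
  rw [Finsupp.weight_apply, Finsupp.degree_apply]
  unfold Finsupp.sum
  refine Finset.sum_le_sum fun s _ => ?_
  show d s ≤ d s * w s
  exact Nat.le_mul_of_pos_right _ (hw s)

theorem whs_le_D (i : ℕ) :
    MvPolynomial.weightedHomogeneousSubmodule k w (i + 1) ≤ D k σ 1 := by
  intro f hf d hd
  have h1 : Finsupp.weight w d = i + 1 := hf hd
  rw [Nat.one_le_iff_ne_zero]
  intro h2
  rw [Finsupp.degree_eq_zero_iff] at h2
  rw [h2, map_zero] at h1
  omega

theorem aug_le_D (hd : ∀ j, dg j = (MvPolynomial.weightedHomogeneousSubmodule k w j).map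
      (MvPolynomial.aeval (R := k) x).toLinearMap) :
    Aug dg ≤ (D k σ 1).map (MvPolynomial.aeval (R := k) x).toLinearMap := by
  unfold Aug
  refine iSup_le fun i => ?_
  rw [hd]
  exact Submodule.map_mono (whs_le_D i)

theorem augpow_le_D (hb : Function.Surjective (MvPolynomial.aeval (R := k) x))
    (hd : ∀ j, dg j = (MvPolynomial.weightedHomogeneousSubmodule k w j).map
      (MvPolynomial.aeval (R := k) x).toLinearMap) (p : ℕ) :
    Aug dg ^ p ≤ (D k σ p).map (MvPolynomial.aeval (R := k) x).toLinearMap := by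
  induction p with
  | zero =>
    intro r _
    obtain ⟨f, rfl⟩ := hb r
    exact ⟨f, fun d _ => Nat.zero_le _, rfl⟩
  | succ p ih =>
    rw [pow_succ]
    refine (mul_le_mul' ih (aug_le_D hd)).trans ?_
    rw [← Submodule.map_mul]
    exact Submodule.map_mono (D_mul p 1)

/-- Elements of the `p`-th power of the augmentation ideal only have monomials of degree at
least `p`. -/
theorem deg_of_mem (hb : Function.Bijective (MvPolynomial.aeval (R := k) x))
    (hd : ∀ j, dg j = (MvPolynomial.weightedHomogeneousSubmodule k w j).map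
      (MvPolynomial.aeval (R := k) x).toLinearMap) (p : ℕ) (f : MvPolynomial σ k)
    (hf : MvPolynomial.aeval (R := k) x f ∈ Aug dg ^ p) :
    ∀ d, MvPolynomial.coeff d f ≠ 0 → p ≤ d.degree := by
  obtain ⟨g, hg, e⟩ := augpow_le_D hb.2 hd p hf
  have : g = f := hb.1 e
  subst this
  exact hg

theorem dg_mul (hd : ∀ j, dg j = (MvPolynomial.weightedHomogeneousSubmodule k w j).map
      (MvPolynomial.aeval (R := k) x).toLinearMap) (i j : ℕ) : dg i * dg j ≤ dg (i + j) := by
  rw [hd, hd, hd, ← Submodule.map_mul]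
  exact Submodule.map_mono (MvPolynomial.weightedHomogeneousSubmodule_mul w i j)

theorem aug_mul (hm : ∀ i j, dg i * dg j ≤ dg (i + j)) : Aug dg * Aug dg ≤ Aug dg := by
  unfold Aug
  rw [Submodule.iSup_mul]
  refine iSup_le fun i => ?_
  rw [Submodule.mul_iSup]
  refine iSup_le fun j => ?_
  exact (hm (i + 1) (j + 1)).trans (le_iSup (fun i => dg (i + 1)) (i + 1 + j))

theorem augpow_succ (hm : ∀ i j, dg i * dg j ≤ dg (i + j)) {p : ℕ} (hp : 1 ≤ p) :
    Aug dg ^ (p + 1) ≤ Aug dg ^ p := by
  obtain ⟨q, rfl⟩ : ∃ q, p = q + 1 := ⟨p - 1, by omega⟩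
  rw [pow_succ, pow_succ, mul_assoc]
  exact mul_le_mul' le_rfl (aug_mul hm)

theorem psub_bot (hw : ∀ s, 0 < w s) (hb : Function.Bijective (MvPolynomial.aeval (R := k) x))
    (hd : ∀ j, dg j = (MvPolynomial.weightedHomogeneousSubmodule k w j).map
      (MvPolynomial.aeval (R := k) x).toLinearMap) {p j : ℕ} (h : j < p) :
    Psub dg p j = ⊥ := by
  rw [eq_bot_iff]
  rintro r ⟨h1, h2⟩
  rw [SetLike.mem_coe, hd] at h2
  obtain ⟨f, hf, rfl⟩ := h2
  have h3 := deg_of_mem hb hd p f h1
  have h4 : f = 0 := by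
    apply MvPolynomial.ext
    intro d
    rw [MvPolynomial.coeff_zero]
    by_contra hne
    have h5 : Finsupp.weight w d = j := hf hne
    have h6 := degree_le_weight hw d
    have h7 := h3 d hne
    omega
  rw [h4, map_zero]
  exact Submodule.zero_mem _

theorem dg_zero (hw : ∀ s, 0 < w s)
    (hd : ∀ j, dg j = (MvPolynomial.weightedHomogeneousSubmodule k w j).map
      (MvPolynomial.aeval (R := k) x).toLinearMap) : dg 0 = Submodule.span k {1} := by
  classical
  rw [hd]
  apply le_antisymm
  · rintro _ ⟨f, hf, rfl⟩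
    have h1 : f = MvPolynomial.C (MvPolynomial.coeff 0 f) := by
      apply MvPolynomial.ext
      intro d
      rw [MvPolynomial.coeff_C]
      split_ifs with h
      · rw [h]
      · by_contra hne
        have h5 : Finsupp.weight w d = 0 := hf hne
        have h6 := degree_le_weight hw d
        rw [h5, Nat.le_zero, Finsupp.degree_eq_zero_iff] at h6
        exact h h6.symm
    rw [h1, Submodule.mem_span_singleton]
    refine ⟨MvPolynomial.coeff 0 f, ?_⟩
    show _ = MvPolynomial.aeval (R := k) x (MvPolynomial.C (MvPolynomial.coeff 0 f))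
    rw [MvPolynomial.aeval_C, Algebra.smul_def, mul_one]
  · rw [Submodule.span_singleton_le_iff_mem]
    refine ⟨1, MvPolynomial.isWeightedHomogeneous_one k w, ?_⟩
    show MvPolynomial.aeval (R := k) x 1 = 1
    rw [map_one]

end PSB

theorem psb (k : Type) [Field k] : PSB_Stmt k := by
  intro A
  obtain ⟨σ, x, w, hw, hb, hd⟩ := A.poly
  have hm := PSB.dg_mul hd
  refine ⟨?_, fun p j h => PSB.psub_bot hw hb hd h, ?_, PSB.dg_zero hw hd, hm⟩
  · intro p j hp
    exact inf_le_inf_right _ (PSB.augpow_succ hm hp)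
  · intro j hj
    unfold Psub
    rw [pow_one, inf_eq_right]
    obtain ⟨i, rfl⟩ : ∃ i, j = i + 1 := ⟨j - 1, by omega⟩
    exact le_iSup (fun i => A.dg (i + 1)) i

end Pool.Agent.SHQ
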