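import Pool.Agent.SH.Q.Stmts

/-!
# Block III-Q (MP_2d0b73_an): simplicial homotopy equivalences (SHEW, SHEQ, CTRA)
-/

open CategoryTheory CategoryTheory.Limits AlgebraicTopology Opposite Simplicial

namespace Pool.Agent.SHQ

namespace SHE

theorem cast_homotopy {C : Type*} [Category C] {X Y : SimplicialObject C} {f g f' g' : X ⟶ Y}
    (h : Nonempty (SimplicialObject.Homotopy f g)) (hf : f = f') (hg : g = g') :
    Nonempty (SimplicialObject.Homotopy f' g') := by
  subst hf hg
  exact h

end SHE

theorem shew : SHEW_Stmt := by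
  intro C D _ _ F X Y f ⟨g, ⟨H⟩, ⟨H'⟩⟩
  refine ⟨(wh F).map g, SHE.cast_homotopy ⟨H.whiskerRight F⟩ ?_ ?_,
    SHE.cast_homotopy ⟨H'.whiskerRight F⟩ ?_ ?_⟩
  · exact (wh F).map_comp f g
  · exact (wh F).map_id X
  · exact (wh F).map_comp g f
  · exact (wh F).map_id Y

theorem sheq : SHEQ_Stmt := by
  intro C _ _ X Y f ⟨g, ⟨H⟩, ⟨H'⟩⟩
  let e : HomotopyEquiv ((alternatingFaceMapComplex C).obj X)
      ((alternatingFaceMapComplex C).obj Y) :=
    { hom := (alternatingFaceMapComplex C).map f
      inv := (alternatingFaceMapComplex C).map g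
      homotopyHomInvId := (Homotopy.ofEq ((alternatingFaceMapComplex C).map_comp f g).symm).trans
        (H.toChainHomotopy.trans (Homotopy.ofEq ((alternatingFaceMapComplex C).map_id X)))
      homotopyInvHomId := (Homotopy.ofEq ((alternatingFaceMapComplex C).map_comp g f).symm).trans
        (H'.toChainHomotopy.trans (Homotopy.ofEq ((alternatingFaceMapComplex C).map_id Y))) }
  have h : QuasiIso e.hom := ⟨fun n => e.quasiIsoAt_hom n⟩
  exact h

theorem ctra : CTRA_Stmt := by
  intro C _ _ X Y
  refine ⟨?_, ?_⟩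
  · intro r i hir ⟨H⟩
    refine SHE.cast_homotopy ⟨(H.precomp i).postcomp r⟩ ?_ ?_
    · simp
    · simpa using hir
  · intro ⟨H⟩ n
    rw [HomologicalComplex.exactAt_iff_isZero_homology, IsZero.iff_id_eq_zero]
    have h1 := H.toChainHomotopy.homologyMap_eq n
    rw [CategoryTheory.Functor.map_id, HomologicalComplex.homologyMap_id] at h1
    rw [← h1]
    have h2 : (alternatingFaceMapComplex C).map (0 : X ⟶ X) = 0 := by
      ext m
      simp
    rw [h2]
    simp

end Pool.Agent.SHQ
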