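import Pool.Agent.SH.Q.Stmts

/-!
# Block III-Q (MP_2d0b73_an): two out of three for the filtration by powers
-/

open CategoryTheory CategoryTheory.Limits AlgebraicTopology Opposite Simplicial

namespace Pool.Agent.SHQ

namespace TOT

open HomologicalComplex HomologicalComplex.HomologySequence ComposableArrows Abelian in
/-- Two out of three, the middle term. -/
theorem quasiIso_two {C : Type*} [Category C] [Abelian C]
    {S₁ S₂ : ShortComplex (ChainComplex C ℕ)} (φ : S₁ ⟶ S₂) (hS₁ : S₁.ShortExact)
    (hS₂ : S₂.ShortExact) (h₁ : QuasiIso φ.τ₁) (h₃ : QuasiIso φ.τ₃) : QuasiIso φ.τ₂ := by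
  have i₁ : ∀ i, IsIso (homologyMap φ.τ₁ i) := by
    intro i
    infer_instance
  have i₃ : ∀ i, IsIso (homologyMap φ.τ₃ i) := by
    intro i
    infer_instance
  rw [quasiIso_iff]
  intro i
  rw [quasiIsoAt_iff_isIso_homologyMap]
  have hm : Mono (homologyMap φ.τ₂ i) := by
    have hij : (ComplexShape.down ℕ).Rel (i + 1) i := rfl
    apply mono_of_epi_of_mono_of_mono
      ((δ₀Functor ⋙ δ₀Functor).map (mapComposableArrows₅ φ hS₁ hS₂ (i + 1) i hij))
    · exact (composableArrows₅_exact hS₁ (i + 1) i hij).δ₀.δ₀
    · exact (composableArrows₅_exact hS₂ (i + 1) i hij).δ₀.δ₀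
    · have := i₃ (i + 1)
      show Epi (homologyMap φ.τ₃ (i + 1))
      infer_instance
    · have := i₁ i
      show Mono (homologyMap φ.τ₁ i)
      infer_instance
    · have := i₃ i
      show Mono (homologyMap φ.τ₃ i)
      infer_instance
  have he : Epi (homologyMap φ.τ₂ i) := by
    by_cases hi : ∃ j, (ComplexShape.down ℕ).Rel i j
    · obtain ⟨j, hij⟩ := hi
      apply epi_of_epi_of_epi_of_mono
        ((δlastFunctor ⋙ δlastFunctor).map (mapComposableArrows₅ φ hS₁ hS₂ i j hij))
      · exact (composableArrows₅_exact hS₁ i j hij).δlast.δlast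
      · exact (composableArrows₅_exact hS₂ i j hij).δlast.δlast
      · have := i₁ i
        show Epi (homologyMap φ.τ₁ i)
        infer_instance
      · have := i₃ i
        show Epi (homologyMap φ.τ₃ i)
        infer_instance
      · have := i₁ j
        show Mono (homologyMap φ.τ₁ j)
        infer_instance
    · refine epi_of_epi_of_epi_of_epi (mapComposableArrows₂ φ i)
        (composableArrows₂_exact hS₂ i) ?_ ?_ ?_
      · have := hS₁.epi_g
        apply epi_homologyMap_of_epi_of_not_rel
        intro j hj
        exact hi ⟨j, hj⟩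
      · have := i₁ i
        show Epi (homologyMap φ.τ₁ i)
        infer_instance
      · have := i₃ i
        show Epi (homologyMap φ.τ₃ i)
        infer_instance
  apply isIso_of_mono_of_epi

variable {k : Type} [Field k]

/-- The inclusion of the next power. -/
noncomputable def inc (h : PSB_Stmt k) (p j : ℕ) (hp : 1 ≤ p) :
    (Pf (p + 1) j : PGA k ⥤ ModuleCat.{0} k) ⟶ Pf p j where
  app A := ModuleCat.ofHom (Submodule.inclusion ((h A).1 p j hp))
  naturality A B f := by ext x; rfl

/-- The short complex of alternating complexes. -/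
noncomputable def S (h : PSB_Stmt k) (p j : ℕ) (hp : 1 ≤ p) (X : SimplicialObject (PGA k)) :
    ShortComplex (ChainComplex (ModuleCat.{0} k) ℕ) where
  X₁ := (alternatingFaceMapComplex _).obj ((wh (Pf (p + 1) j)).obj X)
  X₂ := (alternatingFaceMapComplex _).obj ((wh (Pf p j)).obj X)
  X₃ := (alternatingFaceMapComplex _).obj ((wh (Gf p j)).obj X)
  f := (alternatingFaceMapComplex _).map
    (((SimplicialObject.whiskering _ _).map (inc h p j hp)).app X)
  g := (alternatingFaceMapComplex _).map
    (((SimplicialObject.whiskering _ _).map (projG p j)).app X)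
  zero := by
    rw [← Functor.map_comp]
    have : ((SimplicialObject.whiskering _ _).map (inc h p j hp)).app X ≫
        ((SimplicialObject.whiskering _ _).map (projG p j)).app X = 0 := by
      ext n x
      show (Gker (X.obj n) p j).mkQ (Submodule.inclusion ((h (X.obj n)).1 p j hp) x) = 0
      rw [Submodule.mkQ_apply, Submodule.Quotient.mk_eq_zero]
      exact x.2
    rw [this, Functor.map_zero]

theorem shortExact (h : PSB_Stmt k) (p j : ℕ) (hp : 1 ≤ p) (X : SimplicialObject (PGA k)) :
    (S h p j hp X).ShortExact := by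
  apply HomologicalComplex.shortExact_of_degreewise_shortExact
  intro n
  refine { exact := ?_, mono_f := ?_, epi_g := ?_ }
  · rw [ShortComplex.moduleCat_exact_iff]
    intro x hx
    have hx' : (Gker (X.obj (op ⦋n⦌)) p j).mkQ x = 0 := hx
    rw [Submodule.mkQ_apply, Submodule.Quotient.mk_eq_zero] at hx'
    exact ⟨⟨x.1, hx'⟩, rfl⟩
  · rw [ModuleCat.mono_iff_injective]
    exact Submodule.inclusion_injective ((h (X.obj (op ⦋n⦌))).1 p j hp)
  · rw [ModuleCat.epi_iff_surjective]
    exact Submodule.mkQ_surjective (Gker (X.obj (op ⦋n⦌)) p j)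

/-- Functoriality. -/
noncomputable def SM (h : PSB_Stmt k) (p j : ℕ) (hp : 1 ≤ p) {X Y : SimplicialObject (PGA k)}
    (f : X ⟶ Y) : S h p j hp X ⟶ S h p j hp Y where
  τ₁ := (alternatingFaceMapComplex _).map ((wh (Pf (p + 1) j)).map f)
  τ₂ := (alternatingFaceMapComplex _).map ((wh (Pf p j)).map f)
  τ₃ := (alternatingFaceMapComplex _).map ((wh (Gf p j)).map f)
  comm₁₂ := by
    dsimp only [S]
    rw [← Functor.map_comp, ← Functor.map_comp]
    exact congrArg _ (((SimplicialObject.whiskering _ _).map (inc h p j hp)).naturality f)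
  comm₂₃ := by
    dsimp only [S]
    rw [← Functor.map_comp, ← Functor.map_comp]
    exact congrArg _ (((SimplicialObject.whiskering _ _).map (projG p j)).naturality f)

end TOT

open TOT in
theorem tot (k : Type) [Field k] : PSB_Stmt k → TOT_Stmt k := by
  intro h X Y f p j hp
  constructor
  · intro h1 h3
    exact quasiIso_two (SM h p j hp f) (shortExact h p j hp X) (shortExact h p j hp Y) h1 h3
  · intro h1 h2
    exact HomologicalComplex.HomologySequence.quasiIso_τ₃ (SM h p j hp f)
      (shortExact h p j hp X) (shortExact h p j hp Y) h1 h2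

end Pool.Agent.SHQ
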