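import Pool.Agent.SH.Q.HAD
import Pool.Agent.SH.Q.SHE
import Pool.Agent.SH.Q.PRJ
import Pool.Agent.SH.Q.DKP
import Pool.Agent.SH.Q.DEC
import Pool.Agent.SH.Q.EPI
import Pool.Agent.SH.Q.KER
import Pool.Agent.SH.Q.CTR
import Pool.Agent.SH.Q.DOL
import Pool.Agent.SH.Q.DPI
import Pool.Agent.SH.Q.PSB
import Pool.Agent.SH.Q.TOT
import Pool.Agent.SH.Q.PHI
import Pool.Agent.SH.Q.LMQ
import Pool.Agent.SH.Q.GEN
import Pool.Agent.SH.Q.FIN
import Pool.Agent.SH.Q.CMA
import Pool.Agent.SH.Q.CMG
import Pool.Agent.SH.Q.CMI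
import Pool.Agent.SH.Q.CMU

/-!
# Block III-Q (MP_2d0b73_an): the theorem of Dold over a field, Lemma Q, the bound (FIN)
-/

namespace Pool.Agent.SHQ

theorem dkp_all (k : Type) [Field k] : DKP_Stmt k := dkp k (prj k)

/-- Acyclic simplicial vector spaces are contractible. -/
theorem ctr_all (k : Type) [Field k] : CTR_Stmt k := ctr k ctra (dkp_all k) (dec k)

/-- The theorem of Dold. -/
theorem dol_all (k : Type) [Field k] : DOL_Stmt k :=
  dol k had shec sheq ctra (dkp_all k) (dec k) (epi k) (ker k) (ctr_all k)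

/-- The theorem of Dold for families. -/
theorem dpi_all (k : Type) [Field k] : DPI_Stmt k := dpi k (dol_all k)

/-- Lemma Q. -/
theorem lmq_all (k : Type) [Field k] : LMQ_Stmt k :=
  lmq k shew sheq (dpi_all k) (psb k) (tot k (psb k)) (phi k (psb k))

/-- The comparison object. -/
theorem cmp_all (k : Type) [Field k] : CMP_Stmt k :=
  cmp k (cma k sheq ctra (psb k)) (cmg k (psb k)) (cmi k (psb k)) (cmu k)

/-- Boundedness of the derived indecomposables. -/
theorem fin_all (k : Type) [Field k] : FIN_Stmt k :=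
  fin k (psb k) (lmq_all k) (cmp_all k) (gen k (psb k))

end Pool.Agent.SHQ
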