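import Pool.Agent.SH.Q.CmpDefs

/-!
# Block III-Q: indecomposables of the comparison object
-/

open CategoryTheory CategoryTheory.Limits AlgebraicTopology Opposite Simplicial

namespace Pool.Agent.SHQ

namespace CMI

lemma mem_Aug {k : Type} [Field k] {R : Type} [CommRing R] [Algebra k R] (dg : ℕ → Submodule k R)
    {n : ℕ} (hn : 1 ≤ n) {a : R} (ha : a ∈ dg n) : a ∈ Aug dg := by
  obtain ⟨i, rfl⟩ : ∃ i, n = i + 1 := ⟨n - 1, by omega⟩
  exact (le_iSup (fun i : ℕ => dg (i + 1)) i) ha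

lemma wt_pos {m : ℕ} (hm : 1 ≤ m) (Δ : SimplexCategory) (t : Option (NC Δ)) : 1 ≤ wt m Δ t := by
  cases t with
  | none => exact hm
  | some φ => show 1 ≤ 2 * m; omega

lemma wt_eq (m : ℕ) (Δ : SimplexCategory) (t : Option (NC Δ)) :
    wt m Δ t = m ∨ wt m Δ t = 2 * m := by
  cases t with
  | none => left; rfl
  | some φ => right; rfl

lemma monomial_mem (k : Type) [Field k] {m : ℕ} (hm : 1 ≤ m) (Δ : SimplexCategory) {j : ℕ}
    (hj : 1 ≤ j) (hjm : j ≠ m) (hj2 : j ≠ 2 * m) (d : Option (NC Δ) →₀ ℕ) (c : k)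
    (hd : Finsupp.weight (wt m Δ) d = j) :
    MvPolynomial.monomial d c ∈
      Aug (MvPolynomial.weightedHomogeneousSubmodule k (wt m Δ)) ^ 2 := by
  classical
  have hd0 : d ≠ 0 := by
    rintro rfl
    rw [map_zero] at hd
    omega
  obtain ⟨t, ht⟩ := Finsupp.support_nonempty_iff.2 hd0
  have ht1 : 1 ≤ d t := Nat.one_le_iff_ne_zero.2 (Finsupp.mem_support_iff.1 ht)
  have hdec : d = Finsupp.single t 1 + (d - Finsupp.single t 1) :=
    (add_tsub_cancel_of_le (Finsupp.single_le_iff.2 ht1)).symm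
  set d' := d - Finsupp.single t 1 with hd'
  have hw : wt m Δ t + Finsupp.weight (wt m Δ) d' = j := by
    rw [← hd]
    conv_rhs => rw [hdec]
    rw [map_add, Finsupp.weight_single]
    simp
  have hpos : 1 ≤ Finsupp.weight (wt m Δ) d' := by
    rcases wt_eq m Δ t with h | h <;> omega
  have hX : (MvPolynomial.X t : CR k Δ) ∈
      Aug (MvPolynomial.weightedHomogeneousSubmodule k (wt m Δ)) :=
    mem_Aug _ (wt_pos hm Δ t) (MvPolynomial.isWeightedHomogeneous_X k (wt m Δ) t)
  have hM : (MvPolynomial.monomial d' c : CR k Δ) ∈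
      Aug (MvPolynomial.weightedHomogeneousSubmodule k (wt m Δ)) :=
    mem_Aug _ hpos (MvPolynomial.isWeightedHomogeneous_monomial (wt m Δ) d' c rfl)
  have hprod : (MvPolynomial.monomial d c : CR k Δ) =
      MvPolynomial.X t * MvPolynomial.monomial d' c := by
    rw [MvPolynomial.X, MvPolynomial.monomial_mul, one_mul, ← hdec]
  rw [hprod, pow_two]
  exact Submodule.mul_mem_mul hX hM

end CMI

/-- (CMI) indecomposables of the comparison object. -/
theorem cmi (k : Type) [Field k] : PSB_Stmt k → CMI_Stmt k := by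
  intro _ m hm Δ j hj hjm hj2
  have htop : Gker ((CO k m hm).obj Δ) 1 j = ⊤ := by
    rw [eq_top_iff]
    rintro ⟨a, ha1, ha2⟩ -
    refine ⟨?_, ha2⟩
    have h : a ∈ MvPolynomial.weightedHomogeneousSubmodule k (wt m Δ.unop) j := ha2
    change (a : CR k Δ.unop) ∈
      Aug (MvPolynomial.weightedHomogeneousSubmodule k (wt m Δ.unop)) ^ (1 + 1)
    rw [MvPolynomial.as_sum a]
    refine Submodule.sum_mem _ fun d hd => ?_
    exact CMI.monomial_mem k hm Δ.unop hj hjm hj2 d _ (h (MvPolynomial.mem_support_iff.1 hd))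
  have hsub : Subsingleton (Psub ((CO k m hm).obj Δ).dg 1 j ⧸ Gker ((CO k m hm).obj Δ) 1 j) :=
    Submodule.Quotient.subsingleton_iff.2 htop
  have hsub' : Subsingleton ((Gf 1 j).obj ((CO k m hm).obj Δ)) := hsub
  exact ModuleCat.isZero_of_subsingleton _

end Pool.Agent.SHQ
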