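import Mathlib

/-!
# Block III-Q (MP_2d0b73_an): simplicial objects, the theorem of Dold, Lemma Q: definitions

`SHE f` : `f` is a simplicial homotopy equivalence (Mathlib's combinatorial homotopies).
`QI f`, `Acyc X` : quasi-isomorphism, acyclicity, for the alternating sum complex.
`PGA k` : the category of polynomial graded connected commutative algebras over the field `k`.
`Pf p j` : degree `j` part of the `p`-th power of the augmentation ideal, `Gf p j` : its quotient by the
degree `j` part of the `(p+1)`-st power; `Gf 1 j` = indecomposables in degree `j`.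
`Phi p j` : symmetric powers of graded vector spaces.
-/

open CategoryTheory CategoryTheory.Limits AlgebraicTopology Opposite

namespace Pool.Agent.SHQ

/-- `f` is a simplicial homotopy equivalence. -/
def SHE {C : Type*} [Category C] {X Y : SimplicialObject C} (f : X ⟶ Y) : Prop :=
  ∃ g : Y ⟶ X, Nonempty (SimplicialObject.Homotopy (f ≫ g) (𝟙 X)) ∧
    Nonempty (SimplicialObject.Homotopy (g ≫ f) (𝟙 Y))

/-- `X` is simplicially contractible (to the zero object). -/
def Ctr {C : Type*} [Category C] [Preadditive C] (X : SimplicialObject C) : Prop :=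
  Nonempty (SimplicialObject.Homotopy (0 : X ⟶ X) (𝟙 X))

/-- `f` induces isomorphisms on the homology of the alternating sum complexes. -/
def QI {C : Type*} [Category C] [Abelian C] {X Y : SimplicialObject C} (f : X ⟶ Y) : Prop :=
  QuasiIso ((alternatingFaceMapComplex C).map f)

/-- The alternating sum complex of `X` is acyclic. -/
def Acyc {C : Type*} [Category C] [Abelian C] (X : SimplicialObject C) : Prop :=
  ((alternatingFaceMapComplex C).obj X).Acyclic

/-- Levelwise application of a functor. -/
abbrev wh {C D : Type*} [Category C] [Category D] (F : C ⥤ D) :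
    SimplicialObject C ⥤ SimplicialObject D := (SimplicialObject.whiskering C D).obj F

/-! ### graded algebras -/

section Alg
variable {k : Type} [Field k] {R : Type} [CommRing R] [Algebra k R]

/-- The grading `dg` is the one of a polynomial algebra on homogeneous generators of positive
degrees. -/
def IsPolyGr (dg : ℕ → Submodule k R) : Prop :=
  ∃ (σ : Type) (x : σ → R) (w : σ → ℕ), (∀ s, 0 < w s) ∧
    Function.Bijective (MvPolynomial.aeval (R := k) x) ∧
    ∀ j, dg j = (MvPolynomial.weightedHomogeneousSubmodule k w j).map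
      (MvPolynomial.aeval (R := k) x).toLinearMap

/-- The augmentation ideal: span of the homogeneous elements of positive degree. -/
def Aug (dg : ℕ → Submodule k R) : Submodule k R := ⨆ i : ℕ, dg (i + 1)

/-- Degree `j` part of the `p`-th power of the augmentation ideal. -/
def Psub (dg : ℕ → Submodule k R) (p j : ℕ) : Submodule k R := Aug dg ^ p ⊓ dg j

end Alg

/-- Polynomial graded connected algebras. -/
structure PGA (k : Type) [Field k] where
  R : Type
  [cr : CommRing R]
  [al : Algebra k R]
  dg : ℕ → Submodule k R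
  poly : IsPolyGr dg

attribute [instance] PGA.cr PGA.al

namespace PGA

variable {k : Type} [Field k]

/-- Graded algebra homomorphisms. -/
@[ext]
structure Hom (A B : PGA k) where
  toAlg : A.R →ₐ[k] B.R
  map_dg : ∀ j, ∀ a ∈ A.dg j, toAlg a ∈ B.dg j

instance : Category (PGA k) where
  Hom A B := Hom A B
  id A := ⟨AlgHom.id k A.R, fun _ _ h => h⟩
  comp f g := ⟨g.toAlg.comp f.toAlg, fun j a h => g.map_dg j _ (f.map_dg j a h)⟩

@[simp] lemma id_toAlg (A : PGA k) : Hom.toAlg (𝟙 A) = AlgHom.id k A.R := rfl

@[simp] lemma comp_toAlg {A B C : PGA k} (f : A ⟶ B) (g : B ⟶ C) :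
    Hom.toAlg (f ≫ g) = (Hom.toAlg g).comp (Hom.toAlg f) := rfl

lemma map_Psub {A B : PGA k} (f : A ⟶ B) (p j : ℕ) :
    ∀ a ∈ Psub A.dg p j, (Hom.toAlg f).toLinearMap a ∈ Psub B.dg p j := by
  rintro a ⟨h1, h2⟩
  refine ⟨?_, f.map_dg j a h2⟩
  have h3 : (Aug A.dg).map (Hom.toAlg f).toLinearMap ≤ Aug B.dg := by
    unfold Aug
    rw [Submodule.map_iSup]
    refine iSup_mono fun i => ?_
    rintro _ ⟨b, hb, rfl⟩
    exact f.map_dg _ _ hb
  have h4 : (Aug A.dg ^ p).map (Hom.toAlg f).toLinearMap ≤ Aug B.dg ^ p := by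
    rw [Submodule.map_pow]
    exact pow_le_pow_left' h3 p
  exact h4 ⟨a, h1, rfl⟩

end PGA

section functors
variable {k : Type} [Field k]

/-- Degree `j` part of the `p`-th power of the augmentation ideal, as a functor. -/
noncomputable def Pf (p j : ℕ) : PGA k ⥤ ModuleCat.{0} k where
  obj A := ModuleCat.of k (Psub A.dg p j)
  map {A B} f := ModuleCat.ofHom ((PGA.Hom.toAlg f).toLinearMap.restrict (PGA.map_Psub f p j))
  map_id A := by ext x; rfl
  map_comp f g := by ext x; rfl

/-- The inclusion of the `(p+1)`-st power in the `p`-th power, on elements: the submodule. -/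
def Gker (A : PGA k) (p j : ℕ) : Submodule k (Psub A.dg p j) :=
  (Psub A.dg (p + 1) j).comap (Psub A.dg p j).subtype

lemma map_Gker {A B : PGA k} (f : A ⟶ B) (p j : ℕ) :
    Gker A p j ≤ (Gker B p j).comap
      ((PGA.Hom.toAlg f).toLinearMap.restrict (PGA.map_Psub f p j)) := by
  intro x hx
  exact PGA.map_Psub f (p + 1) j _ hx

/-- Degree `j` part of the `p`-th power modulo the `(p+1)`-st power of the augmentation ideal.
`Gf 1 j` is the functor of indecomposables in degree `j`. -/
noncomputable def Gf (p j : ℕ) : PGA k ⥤ ModuleCat.{0} k where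
  obj A := ModuleCat.of k (Psub A.dg p j ⧸ Gker A p j)
  map {A B} f := ModuleCat.ofHom (Submodule.mapQ (Gker A p j) (Gker B p j)
    ((PGA.Hom.toAlg f).toLinearMap.restrict (PGA.map_Psub f p j)) (map_Gker f p j))
  map_id A := by
    ext x
    rfl
  map_comp f g := by
    ext x
    rfl

/-- The projection `Pf p j ⟶ Gf p j`. -/
noncomputable def projG (p j : ℕ) : (Pf p j : PGA k ⥤ ModuleCat.{0} k) ⟶ Gf p j where
  app A := ModuleCat.ofHom (Gker A p j).mkQ
  naturality A B f := by ext x; rfl

/-- Indecomposables in degrees less than `j`. -/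
noncomputable def Qf (j : ℕ) : PGA k ⥤ (Fin j → ModuleCat.{0} k) :=
  Functor.pi' fun i => Gf 1 (i : ℕ)

/-- Symmetric powers of graded vector spaces: the part of weight `p` and degree `j` of the symmetric
algebra of `V`, where `V i` has degree `i` (only `1 ≤ i` is used). -/
noncomputable def PhiS (p j : ℕ) (V : Fin j → ModuleCat.{0} k) :
    Submodule k (SymmetricAlgebra k (∀ i, V i)) :=
  Submodule.span k {a | ∃ (i : Fin p → Fin j) (v : ∀ r, V (i r)), (∀ r, 1 ≤ (i r : ℕ)) ∧
    ∑ r, (i r : ℕ) = j ∧ a = ∏ r, SymmetricAlgebra.ι k (∀ i, V i) (Pi.single (i r) (v r))}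

/-- The linear map of products. -/
noncomputable def LF {j : ℕ} {V W : Fin j → ModuleCat.{0} k} (f : V ⟶ W) :
    (∀ i, V i) →ₗ[k] (∀ i, W i) := LinearMap.pi fun i => (f i).hom ∘ₗ LinearMap.proj i

/-- The algebra map of symmetric algebras. -/
noncomputable def SF {j : ℕ} {V W : Fin j → ModuleCat.{0} k} (f : V ⟶ W) :
    SymmetricAlgebra k (∀ i, V i) →ₐ[k] SymmetricAlgebra k (∀ i, W i) :=
  SymmetricAlgebra.lift (SymmetricAlgebra.ι k (∀ i, W i) ∘ₗ LF f)

lemma LF_single {j : ℕ} {V W : Fin j → ModuleCat.{0} k} (f : V ⟶ W) (i : Fin j) (v : V i) :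
    LF f (Pi.single i v) = Pi.single i ((f i).hom v) := by
  funext l
  show (f l).hom ((Pi.single i v : ∀ i, V i) l) = (Pi.single i ((f i).hom v) : ∀ i, W i) l
  by_cases h : l = i
  · subst h; simp
  · simp [h]

lemma SF_PhiS (p : ℕ) {j : ℕ} {V W : Fin j → ModuleCat.{0} k} (f : V ⟶ W) :
    ∀ a ∈ PhiS p j V, (SF f).toLinearMap a ∈ PhiS p j W := by
  intro a ha
  have : (PhiS p j V) ≤ (PhiS p j W).comap (SF f).toLinearMap := by
    refine Submodule.span_le.2 ?_
    rintro _ ⟨i, v, h1, h2, rfl⟩
    refine Submodule.subset_span ⟨i, fun r => (f (i r)).hom (v r), h1, h2, ?_⟩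
    show SF f _ = _
    rw [map_prod]
    refine Finset.prod_congr rfl fun r _ => ?_
    show SF f (SymmetricAlgebra.ι k _ _) = _
    rw [SF, SymmetricAlgebra.lift_ι_apply]
    show SymmetricAlgebra.ι k _ (LF f _) = _
    rw [LF_single]
  exact this ha

/-- Symmetric powers of graded vector spaces, as a functor. -/
noncomputable def Phi (p j : ℕ) : (Fin j → ModuleCat.{0} k) ⥤ ModuleCat.{0} k where
  obj V := ModuleCat.of k (PhiS p j V)
  map {V W} f := ModuleCat.ofHom ((SF f).toLinearMap.restrict (SF_PhiS p f))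
  map_id V := by
    ext x
    show SF (𝟙 V) x.1 = x.1
    have : SF (𝟙 V) = AlgHom.id k _ := by
      apply SymmetricAlgebra.algHom_ext
      ext v
      simp only [SF, LinearMap.comp_apply]
      show SymmetricAlgebra.lift _ (SymmetricAlgebra.ι k _ _) = SymmetricAlgebra.ι k _ _
      rw [SymmetricAlgebra.lift_ι_apply]
      rfl
    rw [this]; rfl
  map_comp {U V W} f g := by
    ext x
    show SF (f ≫ g) x.1 = SF g (SF f x.1)
    have : SF (f ≫ g) = (SF g).comp (SF f) := by
      apply SymmetricAlgebra.algHom_ext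
      apply LinearMap.ext
      intro v
      show SF (f ≫ g) (SymmetricAlgebra.ι k _ v) = SF g (SF f (SymmetricAlgebra.ι k _ v))
      simp only [SF]
      rw [SymmetricAlgebra.lift_ι_apply, SymmetricAlgebra.lift_ι_apply]
      show _ = SymmetricAlgebra.lift _ (SymmetricAlgebra.ι k _ (LF f v))
      rw [SymmetricAlgebra.lift_ι_apply]
      rfl
    rw [this]; rfl

end functors

end Pool.Agent.SHQ
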