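import Pool.Agent.SH.Q.Stmts

/-!
# Block III-Q: sums and compositions of simplicial homotopies
-/

open CategoryTheory CategoryTheory.Limits AlgebraicTopology Opposite Simplicial

namespace Pool.Agent.SHQ

namespace HAD

/-- The sum of two simplicial homotopies. -/
def add {C : Type*} [Category C] [Preadditive C] {X Y : SimplicialObject C}
    {f g f' g' : X ⟶ Y} (H : SimplicialObject.Homotopy f g)
    (H' : SimplicialObject.Homotopy f' g') : SimplicialObject.Homotopy (f + f') (g + g') where
  h i := H.h i + H'.h i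
  h_zero_comp_δ_zero n := by
    rw [Preadditive.add_comp, H.h_zero_comp_δ_zero, H'.h_zero_comp_δ_zero]
    rfl
  h_last_comp_δ_last n := by
    rw [Preadditive.add_comp, H.h_last_comp_δ_last, H'.h_last_comp_δ_last]
    rfl
  h_succ_comp_δ_castSucc_of_lt i j hij := by
    rw [Preadditive.add_comp, Preadditive.comp_add, H.h_succ_comp_δ_castSucc_of_lt i j hij,
      H'.h_succ_comp_δ_castSucc_of_lt i j hij]
  h_succ_comp_δ_castSucc_succ j := by
    rw [Preadditive.add_comp, Preadditive.add_comp, H.h_succ_comp_δ_castSucc_succ j,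
      H'.h_succ_comp_δ_castSucc_succ j]
  h_castSucc_comp_δ_succ_of_lt i j hji := by
    rw [Preadditive.add_comp, Preadditive.comp_add, H.h_castSucc_comp_δ_succ_of_lt i j hji,
      H'.h_castSucc_comp_δ_succ_of_lt i j hji]
  h_comp_σ_castSucc_of_le i j hij := by
    rw [Preadditive.add_comp, Preadditive.comp_add, H.h_comp_σ_castSucc_of_le i j hij,
      H'.h_comp_σ_castSucc_of_le i j hij]
  h_comp_σ_succ_of_lt i j hji := by
    rw [Preadditive.add_comp, Preadditive.comp_add, H.h_comp_σ_succ_of_lt i j hji,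
      H'.h_comp_σ_succ_of_lt i j hji]

/-- Transport of homotopies along equalities. -/
theorem cast {C : Type*} [Category C] {X Y : SimplicialObject C} {f g f' g' : X ⟶ Y}
    (hf : f = f') (hg : g = g') (H : SimplicialObject.Homotopy f g) :
    Nonempty (SimplicialObject.Homotopy f' g') := by
  subst hf hg
  exact ⟨H⟩

end HAD

/-- (HAD) -/
theorem had : HAD_Stmt := by
  rintro C _ _ X Y f g f' g' ⟨H⟩ ⟨H'⟩
  exact ⟨HAD.add H H'⟩

/-- (SHEC) -/
theorem shec : SHEC_Stmt := by
  rintro C _ X E Y i p q s hip hsq ⟨H1⟩ ⟨H2⟩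
  refine ⟨s ≫ p, HAD.cast ?_ ?_ ((H2.precomp i).postcomp p),
    HAD.cast ?_ ?_ ((H1.precomp s).postcomp q)⟩
  · simp only [Category.assoc]
  · rw [Category.comp_id, hip]
  · simp only [Category.assoc]
  · rw [Category.comp_id, hsq]

end Pool.Agent.SHQ
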